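import Pool.Agent.R128.F4.Stm

namespace R128.F4

open Classical

namespace A1

theorem sol_empty_of_indep {V : Type} {G : SimpleGraph V} {S : Finset V} (h : Indep G S) :
    Sol G S S := by
  refine ⟨Finset.Subset.refl _, h, id, ?_⟩
  intro x hx
  simp at hx

theorem sol_add {V : Type} {G : SimpleGraph V} {S I : Finset V} {x y : V} (hx : x ∈ S)
    (hy : y ∈ S) (hxy : G.Adj x y) (h : Sol G ((S.erase x).erase y) I) : Sol G S I := by
  obtain ⟨hI, hind, f, hf⟩ := h
  have hne : x ≠ y := hxy.ne
  refine ⟨fun z hz => (Finset.mem_erase.1 (Finset.mem_erase.1 (hI hz)).2).2, hind,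
    fun z => if z = x then y else if z = y then x else f z, ?_⟩
  intro z hz
  have hxI : x ∉ I := fun h => by
    have := hI h
    simp at this
  have hyI : y ∉ I := fun h => by
    have := hI h
    simp at this
  by_cases h1 : z = x
  · subst h1
    simp [hne.symm, hy, hyI, hxy]
  · by_cases h2 : z = y
    · subst h2
      simp [hne.symm, hx, hxI, hxy.symm]
    · have hz' : z ∈ ((S.erase x).erase y) \ I := by
        rw [Finset.mem_sdiff] at hz ⊢
        refine ⟨?_, hz.2⟩
        simp [h1, h2, hz.1]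
      obtain ⟨h3, h4, h5⟩ := hf z hz'
      rw [Finset.mem_sdiff, Finset.mem_erase, Finset.mem_erase] at h3
      simp only [h1, h2, if_false]
      rw [if_neg h3.1.2.1, if_neg h3.1.1]
      exact ⟨Finset.mem_sdiff.2 ⟨h3.1.2.2, h3.2⟩, h4, h5⟩

theorem exists_sol {V : Type} (G : SimpleGraph V) : ∀ (n : ℕ) (S : Finset V), S.card = n →
    ∃ I, Sol G S I := by
  intro n
  induction n using Nat.strong_induction_on with
  | _ n ih =>
    intro S hS
    by_cases hI : Indep G S
    · exact ⟨S, sol_empty_of_indep hI⟩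
    · unfold Indep at hI
      push Not at hI
      obtain ⟨x, hx, y, hy, hxy⟩ := hI
      have hne : x ≠ y := hxy.ne
      have hy' : y ∈ S.erase x := Finset.mem_erase.2 ⟨hne.symm, hy⟩
      have hc1 := Finset.card_erase_lt_of_mem hx
      have hc2 := Finset.card_erase_lt_of_mem hy'
      obtain ⟨I, hI⟩ := ih _ (by omega) ((S.erase x).erase y) rfl
      exact ⟨I, sol_add hx hy hxy hI⟩

theorem even_of_pm {V : Type} (G : SimpleGraph V) : ∀ (n : ℕ) (T : Finset V), T.card = n →
    PM G T → Even T.card := by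
  intro n
  induction n using Nat.strong_induction_on with
  | _ n ih =>
    intro T hT ⟨f, hf⟩
    rcases T.eq_empty_or_nonempty with h | ⟨x, hx⟩
    · subst h
      simp
    · obtain ⟨h1, h2, h3⟩ := hf x hx
      have hne : x ≠ f x := h2.ne
      have hy' : f x ∈ T.erase x := Finset.mem_erase.2 ⟨hne.symm, h1⟩
      have hc1 := Finset.card_erase_add_one hx
      have hc2 := Finset.card_erase_add_one hy'
      have hpm : PM G ((T.erase x).erase (f x)) := by
        refine ⟨f, fun z hz => ?_⟩
        rw [Finset.mem_erase, Finset.mem_erase] at hz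
        obtain ⟨h4, h5, h6⟩ := hf z hz.2.2
        refine ⟨?_, h5, h6⟩
        rw [Finset.mem_erase, Finset.mem_erase]
        refine ⟨fun h => ?_, fun h => ?_, h4⟩
        · apply hz.2.1
          rw [← h6, h, h3]
        · apply hz.1
          rw [← h6, h]
      have := ih _ (by omega) _ rfl hpm
      obtain ⟨k, hk⟩ := this
      exact ⟨k + 1, by omega⟩

end A1

theorem A1_proof : Stm.A1 := by
  intro V G S
  refine ⟨fun I hI => ?_, ?_, fun I hI => ?_⟩
  · unfold cc
    exact Finset.le_sup (f := Finset.card)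
      (Finset.mem_filter.2 ⟨Finset.mem_powerset.2 hI.1, hI⟩)
  · obtain ⟨I0, hI0⟩ := A1.exists_sol G _ S rfl
    have hne : (S.powerset.filter (fun I => Sol G S I)).Nonempty :=
      ⟨I0, Finset.mem_filter.2 ⟨Finset.mem_powerset.2 hI0.1, hI0⟩⟩
    obtain ⟨I, hI, hI2⟩ := Finset.exists_mem_eq_sup _ hne Finset.card
    exact ⟨I, (Finset.mem_filter.1 hI).2, by unfold cc; exact hI2.symm⟩
  · have h1 := A1.even_of_pm G _ _ rfl hI.2.2
    have h2 := Finset.card_sdiff_add_card_eq_card hI.1
    obtain ⟨k, hk⟩ := h1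
    omega

end R128.F4
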