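import Pool.Agent.R128.F4.Stm
import Pool.Agent.R128.F4.A1

namespace R128.F4

open Classical

namespace A2

theorem pm_insert {V : Type} {G : SimpleGraph V} {T : Finset V} {a b : V} (h : PM G T)
    (ha : a ∉ T) (hb : b ∉ T) (hab : G.Adj a b) : PM G (insert a (insert b T)) := by
  obtain ⟨f, hf⟩ := h
  have hne : a ≠ b := hab.ne
  refine ⟨fun z => if z = a then b else if z = b then a else f z, ?_⟩
  intro z hz
  by_cases h1 : z = a
  · subst h1
    simp [hne.symm, hab]
  · by_cases h2 : z = b
    · subst h2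
      simp [hne.symm, hab.symm]
    · have hz' : z ∈ T := by
        rw [Finset.mem_insert, Finset.mem_insert] at hz
        tauto
      obtain ⟨h3, h4, h5⟩ := hf z hz'
      have h6 : f z ≠ a := fun h => ha (h ▸ h3)
      have h7 : f z ≠ b := fun h => hb (h ▸ h3)
      simp only [h1, h2, if_false, if_neg h6, if_neg h7]
      exact ⟨Finset.mem_insert_of_mem (Finset.mem_insert_of_mem h3), h4, h5⟩

theorem pm_erase {V : Type} {G : SimpleGraph V} {T : Finset V} {f : V → V} {x : V}
    (hf : ∀ x ∈ T, f x ∈ T ∧ G.Adj x (f x) ∧ f (f x) = x) (hx : x ∈ T) :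
    PM G ((T.erase x).erase (f x)) := by
  obtain ⟨h1, h2, h3⟩ := hf x hx
  refine ⟨f, fun z hz => ?_⟩
  rw [Finset.mem_erase, Finset.mem_erase] at hz
  obtain ⟨h4, h5, h6⟩ := hf z hz.2.2
  refine ⟨?_, h5, h6⟩
  rw [Finset.mem_erase, Finset.mem_erase]
  refine ⟨fun h => ?_, fun h => ?_, h4⟩
  · apply hz.2.1
    rw [← h6, h, h3]
  · apply hz.1
    rw [← h6, h]

theorem indep_erase {V : Type} {G : SimpleGraph V} {I : Finset V} (h : Indep G I) (t : V) :
    Indep G (I.erase t) :=
  fun x hx y hy => h x (Finset.mem_of_mem_erase hx) y (Finset.mem_of_mem_erase hy)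

theorem indep_insert {V : Type} {G : SimpleGraph V} {I : Finset V} (h : Indep G I) {t : V}
    (ht : ∀ x ∈ I, ¬ G.Adj t x) : Indep G (insert t I) := by
  intro x hx y hy
  rw [Finset.mem_insert] at hx hy
  rcases hx with rfl | hx
  · rcases hy with rfl | hy
    · exact G.irrefl
    · exact ht y hy
  · rcases hy with rfl | hy
    · exact fun h' => ht x hx h'.symm
    · exact h x hx y hy

theorem sol_insert {V : Type} {G : SimpleGraph V} {S I : Finset V} {v : V} (hv : v ∈ S)
    (h : Sol G (S.erase v) I) : ∃ J, Sol G S J ∧ I.card ≤ J.card + 1 := by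
  obtain ⟨hI, hind, hpm⟩ := h
  have hvI : v ∉ I := fun h => by
    have := hI h
    simp at this
  by_cases ht : ∃ t ∈ I, G.Adj v t
  · obtain ⟨t, ht, hvt⟩ := ht
    refine ⟨I.erase t, ⟨?_, indep_erase hind t, ?_⟩, ?_⟩
    · intro z hz
      exact Finset.mem_of_mem_erase (hI (Finset.mem_of_mem_erase hz))
    · have h1 : S \ (I.erase t) = insert v (insert t ((S.erase v) \ I)) := by
        ext z
        have htS : t ∈ S := Finset.mem_of_mem_erase (hI ht)
        simp only [Finset.mem_sdiff, Finset.mem_erase, Finset.mem_insert]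
        constructor
        · rintro ⟨h1, h2⟩
          by_cases h3 : z = v
          · left; exact h3
          · by_cases h4 : z = t
            · right; left; exact h4
            · right; right
              exact ⟨⟨h3, h1⟩, fun h5 => h2 ⟨h4, h5⟩⟩
        · rintro (rfl | rfl | ⟨⟨h1, h2⟩, h3⟩)
          · exact ⟨hv, fun h => hvI h.2⟩
          · exact ⟨htS, fun h => h.1 rfl⟩
          · exact ⟨h2, fun h => h3 h.2⟩
      rw [h1]
      refine pm_insert hpm ?_ ?_ hvt
      · simp
      · simp [ht]
    · rw [Finset.card_erase_add_one ht]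
  · push Not at ht
    refine ⟨insert v I, ⟨?_, indep_insert hind ht, ?_⟩, ?_⟩
    · intro z hz
      rw [Finset.mem_insert] at hz
      rcases hz with rfl | hz
      · exact hv
      · exact Finset.mem_of_mem_erase (hI hz)
    · have h1 : S \ (insert v I) = (S.erase v) \ I := by
        ext z
        simp only [Finset.mem_sdiff, Finset.mem_erase, Finset.mem_insert]
        tauto
      rw [h1]
      exact hpm
    · rw [Finset.card_insert_of_notMem hvI]
      omega

theorem sol_erase {V : Type} {G : SimpleGraph V} {S I : Finset V} {v : V} (hv : v ∈ S)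
    (h : Sol G S I) : ∃ J, Sol G (S.erase v) J ∧ I.card ≤ J.card + 1 := by
  obtain ⟨hI, hind, f, hf⟩ := h
  by_cases hvI : v ∈ I
  · refine ⟨I.erase v, ⟨?_, indep_erase hind v, ?_⟩, ?_⟩
    · exact Finset.erase_subset_erase v hI
    · have h1 : (S.erase v) \ (I.erase v) = S \ I := by
        ext z
        simp only [Finset.mem_sdiff, Finset.mem_erase]
        constructor
        · rintro ⟨⟨h1, h2⟩, h3⟩
          exact ⟨h2, fun h => h3 ⟨h1, h⟩⟩
        · rintro ⟨h1, h2⟩
          exact ⟨⟨fun h => h2 (h ▸ hvI), h1⟩, fun h => h2 h.2⟩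
      rw [h1]
      exact ⟨f, hf⟩
    · rw [Finset.card_erase_add_one hvI]
  · have hvT : v ∈ S \ I := Finset.mem_sdiff.2 ⟨hv, hvI⟩
    obtain ⟨h1, h2, h3⟩ := hf v hvT
    have hpm := pm_erase hf hvT
    rw [Finset.mem_sdiff] at h1
    have huv : f v ≠ v := h2.ne.symm
    by_cases ht : ∃ t ∈ I, G.Adj (f v) t
    · obtain ⟨t, ht, hut⟩ := ht
      have htv : t ≠ v := fun h => hvI (h ▸ ht)
      refine ⟨I.erase t, ⟨?_, indep_erase hind t, ?_⟩, ?_⟩
      · intro z hz
        rw [Finset.mem_erase] at hz ⊢
        exact ⟨fun h => hvI (h ▸ hz.2), hI hz.2⟩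
      · have h4 : (S.erase v) \ (I.erase t) =
            insert (f v) (insert t (((S \ I).erase v).erase (f v))) := by
          ext z
          simp only [Finset.mem_sdiff, Finset.mem_erase, Finset.mem_insert]
          constructor
          · rintro ⟨⟨h4, h5⟩, h6⟩
            by_cases h7 : z = f v
            · left; exact h7
            · by_cases h8 : z = t
              · right; left; exact h8
              · right; right
                exact ⟨h7, h4, h5, fun h9 => h6 ⟨h8, h9⟩⟩
          · rintro (rfl | rfl | ⟨h4, h5, h6, h7⟩)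
            · exact ⟨⟨huv, h1.1⟩, fun h => h1.2 h.2⟩
            · exact ⟨⟨htv, hI ht⟩, fun h => h.1 rfl⟩
            · exact ⟨⟨h5, h6⟩, fun h => h7 h.2⟩
        rw [h4]
        refine pm_insert hpm ?_ ?_ hut
        · simp
        · simp [ht]
      · rw [Finset.card_erase_add_one ht]
    · push Not at ht
      refine ⟨insert (f v) I, ⟨?_, indep_insert hind ht, ?_⟩, ?_⟩
      · intro z hz
        rw [Finset.mem_insert] at hz
        rw [Finset.mem_erase]
        rcases hz with rfl | hz
        · exact ⟨huv, h1.1⟩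
        · exact ⟨fun h => hvI (h ▸ hz), hI hz⟩
      · have h4 : (S.erase v) \ (insert (f v) I) = ((S \ I).erase v).erase (f v) := by
          ext z
          simp only [Finset.mem_sdiff, Finset.mem_erase, Finset.mem_insert]
          tauto
        rw [h4]
        exact hpm
      · rw [Finset.card_insert_of_notMem h1.2]
        omega

end A2

theorem A2_proof : Stm.A2 := by
  intro hA1 V G S
  refine ⟨fun x y hx hy hxy => ?_, fun v hv => ?_⟩
  · obtain ⟨I, hI, hI2⟩ := (hA1 V G ((S.erase x).erase y)).2.1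
    rw [← hI2]
    exact (hA1 V G S).1 I (A1.sol_add hx hy hxy hI)
  · obtain ⟨I, hI, hI2⟩ := (hA1 V G (S.erase v)).2.1
    obtain ⟨J, hJ, hJ2⟩ := (hA1 V G S).2.1
    obtain ⟨J', hJ', hIJ'⟩ := A2.sol_insert hv hI
    obtain ⟨I', hI', hJI'⟩ := A2.sol_erase hv hJ
    have h1 := (hA1 V G S).1 J' hJ'
    have h2 := (hA1 V G (S.erase v)).1 I' hI'
    have h3 := (hA1 V G S).2.2 J hJ
    have h4 := (hA1 V G (S.erase v)).2.2 I hI
    have h5 := Finset.card_erase_add_one hv
    omega

end R128.F4
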