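import Pool.Agent.R128.F4.Stm

namespace R128.F4

open Classical

namespace A3

variable {V : Type} {G : SimpleGraph V} {K L I J : Finset V}

theorem restrict (hKL : Disjoint K L) (hn : ∀ x ∈ K, ∀ y ∈ L, ¬ G.Adj x y)
    (h : Sol G (K ∪ L) I) : Sol G K (I ∩ K) := by
  obtain ⟨h1, h2, f, hf⟩ := h
  refine ⟨Finset.inter_subset_right, ?_, f, ?_⟩
  · intro x hx y hy
    exact h2 x (Finset.mem_inter.mp hx).1 y (Finset.mem_inter.mp hy).1
  · intro x hx
    rw [Finset.mem_sdiff, Finset.mem_inter] at hx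
    have hxI : x ∉ I := fun h => hx.2 ⟨h, hx.1⟩
    obtain ⟨h3, h4, h5⟩ := hf x (Finset.mem_sdiff.mpr ⟨Finset.mem_union_left _ hx.1, hxI⟩)
    rw [Finset.mem_sdiff, Finset.mem_union] at h3
    have hfK : f x ∈ K := by
      rcases h3.1 with h | h
      · exact h
      · exact absurd h4 (hn x hx.1 _ h)
    refine ⟨Finset.mem_sdiff.mpr ⟨hfK, fun h => h3.2 (Finset.mem_inter.mp h).1⟩, h4, h5⟩

theorem glue (hKL : Disjoint K L) (hn : ∀ x ∈ K, ∀ y ∈ L, ¬ G.Adj x y)
    (hI : Sol G K I) (hJ : Sol G L J) : Sol G (K ∪ L) (I ∪ J) := by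
  obtain ⟨h1, h2, f, hf⟩ := hI
  obtain ⟨k1, k2, g, hg⟩ := hJ
  refine ⟨Finset.union_subset_union h1 k1, ?_, fun x => if x ∈ K then f x else g x, ?_⟩
  · intro x hx y hy
    rcases Finset.mem_union.mp hx with hx | hx <;> rcases Finset.mem_union.mp hy with hy | hy
    · exact h2 x hx y hy
    · exact hn x (h1 hx) y (k1 hy)
    · intro h; exact hn y (h1 hy) x (k1 hx) h.symm
    · exact k2 x hx y hy
  · intro x hx
    rw [Finset.mem_sdiff, Finset.mem_union, Finset.mem_union, not_or] at hx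
    by_cases hxK : x ∈ K
    · obtain ⟨h3, h4, h5⟩ := hf x (Finset.mem_sdiff.mpr ⟨hxK, hx.2.1⟩)
      rw [Finset.mem_sdiff] at h3
      have h6 : f x ∉ J := fun h => Finset.disjoint_left.mp hKL h3.1 (k1 h)
      simp only [if_pos hxK, if_pos h3.1]
      refine ⟨?_, h4, h5⟩
      rw [Finset.mem_sdiff, Finset.mem_union, Finset.mem_union, not_or]
      exact ⟨Or.inl h3.1, h3.2, h6⟩
    · have hxL : x ∈ L := hx.1.resolve_left hxK
      obtain ⟨h3, h4, h5⟩ := hg x (Finset.mem_sdiff.mpr ⟨hxL, hx.2.2⟩)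
      rw [Finset.mem_sdiff] at h3
      have h6 : g x ∉ K := fun h => Finset.disjoint_left.mp hKL h h3.1
      have h7 : g x ∉ I := fun h => h6 (h1 h)
      simp only [if_neg hxK, if_neg h6]
      refine ⟨?_, h4, h5⟩
      rw [Finset.mem_sdiff, Finset.mem_union, Finset.mem_union, not_or]
      exact ⟨Or.inr h3.1, h7, h3.2⟩

end A3

open A3 in
theorem A3_proof : Stm.A3 := by
  intro hA1 V G K L hKL hn
  apply le_antisymm
  · obtain ⟨-, ⟨I, hI, hc⟩, -⟩ := hA1 V G (K ∪ L)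
    have h1 := (hA1 V G K).1 _ (restrict hKL hn hI)
    have hn' : ∀ x ∈ L, ∀ y ∈ K, ¬ G.Adj x y := fun x hx y hy h => hn y hy x hx h.symm
    have hI' : Sol G (L ∪ K) I := by rw [Finset.union_comm]; exact hI
    have h2 := (hA1 V G L).1 _ (restrict hKL.symm hn' hI')
    have h3 : I.card = (I ∩ K).card + (I ∩ L).card := by
      rw [← Finset.card_union_of_disjoint, ← Finset.inter_union_distrib_left,
        Finset.inter_eq_left.mpr hI.1]
      exact Finset.disjoint_left.mpr fun x hx hy => Finset.disjoint_left.mp hKL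
        (Finset.mem_inter.mp hx).2 (Finset.mem_inter.mp hy).2
    omega
  · obtain ⟨-, ⟨I, hI, hc⟩, -⟩ := hA1 V G K
    obtain ⟨-, ⟨J, hJ, hc'⟩, -⟩ := hA1 V G L
    have h1 := (hA1 V G (K ∪ L)).1 _ (glue hKL hn hI hJ)
    rw [Finset.card_union_of_disjoint] at h1
    · omega
    · exact Finset.disjoint_left.mpr fun x hx hy => Finset.disjoint_left.mp hKL (hI.1 hx) (hJ.1 hy)

end R128.F4
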