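import Pool.Agent.R128.F4.Stm

namespace R128.F4

open Classical

namespace A4

variable {V : Type} {G : SimpleGraph V} {S K L : Finset V}

theorem mem_comps : K ∈ comps G S ↔ K ⊆ S ∧ Conn G K ∧ ∀ x ∈ K, ∀ y ∈ S, G.Adj x y → y ∈ K := by
  unfold comps
  rw [Finset.mem_filter, Finset.mem_powerset]

theorem cover (x : V) (hx : x ∈ S) : ∃ K ∈ comps G S, x ∈ K := by
  let F := S.powerset.filter (fun T => x ∈ T ∧ ∀ a ∈ T, ∀ b ∈ S, G.Adj a b → b ∈ T)
  have hF : ∀ T, T ∈ F ↔ T ⊆ S ∧ x ∈ T ∧ ∀ a ∈ T, ∀ b ∈ S, G.Adj a b → b ∈ T := fun T => by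
    simp only [F]
    rw [Finset.mem_filter, Finset.mem_powerset]
  have hne : F.Nonempty := ⟨S, (hF S).mpr ⟨le_rfl, hx, fun a _ b hb _ => hb⟩⟩
  obtain ⟨T, hT, hmin⟩ := Finset.exists_min_image F Finset.card hne
  obtain ⟨h1, h2, h3⟩ := (hF T).mp hT
  refine ⟨T, mem_comps.mpr ⟨h1, ⟨⟨x, h2⟩, ?_⟩, h3⟩, h2⟩
  intro T' hT' hne' hcl
  by_contra hneq
  have hss : T' ⊂ T := Finset.ssubset_iff_subset_ne.mpr ⟨hT', hneq⟩
  have c1 : ∀ a ∈ T', ∀ b ∈ S, G.Adj a b → b ∈ T' := fun a ha b hb hab =>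
    hcl a ha b (h3 a (hT' ha) b hb hab) hab
  by_cases hxT : x ∈ T'
  · have h4 := hmin T' ((hF T').mpr ⟨hT'.trans h1, hxT, c1⟩)
    exact absurd (Finset.card_lt_card hss) (by omega)
  · have h4 := hmin (T \ T') ((hF _).mpr ⟨Finset.sdiff_subset.trans h1,
      Finset.mem_sdiff.mpr ⟨h2, hxT⟩, fun a ha b hb hab => by
        rw [Finset.mem_sdiff] at ha ⊢
        exact ⟨h3 a ha.1 b hb hab, fun hbT => ha.2 (c1 b hbT a (h1 ha.1) hab.symm)⟩⟩)
    have h5 : (T \ T').card < T.card := by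
      apply Finset.card_lt_card
      exact Finset.sdiff_ssubset hT' hne'
    omega

theorem disj (hK : K ∈ comps G S) (hL : L ∈ comps G S) (hne : K ≠ L) : Disjoint K L := by
  rw [mem_comps] at hK hL
  by_contra hd
  apply hne
  have hnonempty : (K ∩ L).Nonempty := Finset.not_disjoint_iff_nonempty_inter.mp hd
  have e1 : K ∩ L = K := hK.2.1.2 _ Finset.inter_subset_left hnonempty (fun a ha b hb hab => by
    rw [Finset.mem_inter] at ha ⊢
    exact ⟨hb, hL.2.2 a ha.2 b (hK.1 hb) hab⟩)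
  have e2 : K ∩ L = L := hL.2.1.2 _ Finset.inter_subset_right hnonempty (fun a ha b hb hab => by
    rw [Finset.mem_inter] at ha ⊢
    exact ⟨hK.2.2 a ha.1 b (hL.1 hb) hab, hb⟩)
  exact e1.symm.trans e2

end A4

open A4 in
theorem A4_proof : Stm.A4 := by
  intro V G S
  refine ⟨fun x hx => cover x hx, fun K L hK hL hne => disj hK hL hne, ?_, ?_⟩
  · intro hS
    ext K
    rw [Finset.mem_singleton, mem_comps]
    constructor
    · rintro ⟨h1, h2, h3⟩
      exact hS.2 K h1 h2.1 h3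
    · rintro rfl
      exact ⟨le_rfl, hS, fun a _ b hb _ => hb⟩
  · intro v hS hv K hK
    rw [mem_comps] at hK
    by_contra hcon
    push Not at hcon
    have e1 : K = S := by
      refine hS.2 K (hK.1.trans (Finset.erase_subset _ _)) hK.2.1.1 ?_
      intro a ha b hb hab
      by_cases hbv : b = v
      · subst hbv
        exact absurd hab.symm (hcon a ha)
      · exact hK.2.2 a ha b (Finset.mem_erase.mpr ⟨hbv, hb⟩) hab
    have h2 : v ∈ K := by rw [e1]; exact hv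
    exact absurd (hK.1 h2) (Finset.notMem_erase v S)

end R128.F4
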