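import Pool.Agent.R128.F4.Stm

namespace R128.F4

open Classical

namespace A4b

variable {V : Type} {G : SimpleGraph V} {S K L : Finset V}

theorem mem_comps : K ∈ comps G S ↔ K ⊆ S ∧ Conn G K ∧ ∀ x ∈ K, ∀ y ∈ S, G.Adj x y → y ∈ K := by
  unfold comps
  rw [Finset.mem_filter, Finset.mem_powerset]

theorem biUnion (h4 : Stm.A4) (G : SimpleGraph V) (S : Finset V) : (comps G S).biUnion id = S := by
  ext x
  rw [Finset.mem_biUnion]
  constructor
  · rintro ⟨K, hK, hx⟩
    exact (mem_comps.mp hK).1 hx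
  · intro hx
    obtain ⟨K, hK, hxK⟩ := (h4 V G S).1 x hx
    exact ⟨K, hK, hxK⟩

theorem sum_sum (h4 : Stm.A4) (G : SimpleGraph V) (S : Finset V) (f : V → ℕ) :
    ∑ K ∈ comps G S, ∑ x ∈ K, f x = ∑ x ∈ S, f x := by
  conv_rhs => rw [← biUnion h4 G S]
  rw [Finset.sum_biUnion]
  · rfl
  · intro K hK L hL hne
    exact (h4 V G S).2.1 K L hK hL hne

end A4b

open A4b in
theorem A4b_proof : Stm.A4b := by
  intro h4 V G S
  have h2 : ∀ S v, ∑ K ∈ comps G S, dg G K v = dg G S v := by
    intro S v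
    have h := sum_sum h4 G S (fun x => if G.Adj v x then 1 else 0)
    have e : ∀ T : Finset V, ∑ x ∈ T, (if G.Adj v x then 1 else 0) = dg G T v := fun T => by
      rw [dg, Finset.card_filter]
    simp only [e] at h
    exact h
  refine ⟨?_, h2 S, ?_⟩
  · have h := sum_sum h4 G S (fun _ => 1)
    simp only [Finset.sum_const, smul_eq_mul, mul_one] at h
    exact h
  · intro v hS hv
    calc (comps G (S.erase v)).card = ∑ K ∈ comps G (S.erase v), 1 := by simp
      _ ≤ ∑ K ∈ comps G (S.erase v), dg G K v := by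
          refine Finset.sum_le_sum fun K hK => ?_
          obtain ⟨y, hy, hvy⟩ := (h4 V G S).2.2.2 v hS hv K hK
          exact Finset.card_pos.mpr ⟨y, Finset.mem_filter.mpr ⟨hy, hvy⟩⟩
      _ = dg G (S.erase v) v := h2 _ v
      _ ≤ dg G S v := Finset.card_le_card (Finset.filter_subset_filter _ (Finset.erase_subset _ _))

end R128.F4
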