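import Pool.Agent.R128.F4.Stm
import Pool.Agent.R128.F4.A1

namespace R128.F4

open Classical

namespace A5

variable {V : Type} {G : SimpleGraph V} {S K L : Finset V}

theorem mem_comps : K ∈ comps G S ↔ K ⊆ S ∧ Conn G K ∧ ∀ x ∈ K, ∀ y ∈ S, G.Adj x y → y ∈ K := by
  unfold comps
  rw [Finset.mem_filter, Finset.mem_powerset]

theorem biUnion (h4 : Stm.A4) (G : SimpleGraph V) (S : Finset V) : (comps G S).biUnion id = S := by
  ext x
  rw [Finset.mem_biUnion]
  constructor
  · rintro ⟨K, hK, hx⟩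
    exact (mem_comps.mp hK).1 hx
  · intro hx
    obtain ⟨K, hK, hxK⟩ := (h4 V G S).1 x hx
    exact ⟨K, hK, hxK⟩

theorem cc_empty (h3 : Stm.A3) (h1 : Stm.A1) (G : SimpleGraph V) : cc G (∅ : Finset V) = 0 := by
  have h := h3 h1 V G ∅ ∅ (by simp) (by simp)
  rw [Finset.union_empty] at h
  omega

theorem sum_sub (h3 : Stm.A3) (h1 : Stm.A1) (h4 : Stm.A4) (G : SimpleGraph V) (S : Finset V)
    (F : Finset (Finset V)) : F ⊆ comps G S → ∑ K ∈ F, cc G K = cc G (F.biUnion id) := by
  induction F using Finset.induction_on with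
  | empty =>
    intro _
    rw [Finset.sum_empty, Finset.biUnion_empty, cc_empty h3 h1]
  | insert K F hK ih =>
    intro hF
    have hKc : K ∈ comps G S := hF (Finset.mem_insert_self _ _)
    have hFc : F ⊆ comps G S := (Finset.subset_insert _ _).trans hF
    rw [Finset.sum_insert hK, ih hFc, Finset.biUnion_insert]
    have hdis : ∀ L ∈ F, Disjoint K L := fun L hL =>
      (h4 V G S).2.1 K L hKc (hFc hL) (fun h => hK (h ▸ hL))
    rw [id, h3 h1 V G K (F.biUnion id)]
    · rw [Finset.disjoint_biUnion_right]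
      exact hdis
    · intro x hx y hy hxy
      obtain ⟨L, hL, hyL⟩ := Finset.mem_biUnion.mp hy
      have h5 : y ∈ K := (mem_comps.mp hKc).2.2 x hx y ((mem_comps.mp (hFc hL)).1 hyL) hxy
      exact Finset.disjoint_left.mp (hdis L hL) h5 hyL

end A5

open A5 in
theorem A5_of : Stm.A5 := by
  intro h1 h3 h4 V G S
  constructor
  · rw [sum_sub h3 h1 h4 G S (comps G S) le_rfl, biUnion h4]
  · intro K y hK hy
    obtain ⟨hKS, -, hcl⟩ := mem_comps.mp hK
    have e1 : K ∪ (S \ K) = S := Finset.union_sdiff_of_subset hKS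
    have e2 : K.erase y ∪ (S \ K) = S.erase y := by
      ext z
      simp only [Finset.mem_union, Finset.mem_erase, Finset.mem_sdiff]
      constructor
      · rintro (⟨h, h'⟩ | ⟨h, h'⟩)
        · exact ⟨h, hKS h'⟩
        · exact ⟨fun h'' => h' (h'' ▸ hy), h⟩
      · rintro ⟨h, h'⟩
        by_cases hz : z ∈ K
        · exact Or.inl ⟨h, hz⟩
        · exact Or.inr ⟨h', hz⟩
    have hn : ∀ x ∈ K, ∀ z ∈ S \ K, ¬ G.Adj x z := fun x hx z hz hxz =>
      (Finset.mem_sdiff.mp hz).2 (hcl x hx z (Finset.mem_sdiff.mp hz).1 hxz)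
    have a1 := h3 h1 V G K (S \ K) Finset.disjoint_sdiff hn
    have a2 := h3 h1 V G (K.erase y) (S \ K)
      (Finset.disjoint_sdiff.mono_left (Finset.erase_subset _ _))
      (fun x hx z hz => hn x (Finset.mem_of_mem_erase hx) z hz)
    rw [e1] at a1
    rw [e2] at a2
    omega

/-- The statement `Stm.A5`. -/
theorem A5_proof : Stm.A5 := A5_of

end R128.F4
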