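import Pool.Agent.R128.F4.Stm

namespace R128.F4

open Classical

namespace A6

variable {V : Type}

/-- perfect matching function -/
def IsPM (G : SimpleGraph V) (T : Finset V) (f : V → V) : Prop :=
  ∀ x ∈ T, f x ∈ T ∧ G.Adj x (f x) ∧ f (f x) = x

theorem inj {G : SimpleGraph V} {Q : Finset V} {f : V → V} (hf : IsPM G Q f) {a b : V}
    (ha : a ∈ Q) (hb : b ∈ Q) (h : f a = f b) : a = b := by
  rw [← (hf a ha).2.2, ← (hf b hb).2.2, h]

theorem claim1 {G : SimpleGraph V} {Q : Finset V} (h0 : ∀ I, Sol G Q I → I.card ≤ 0)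
    {f : V → V} (hf : IsPM G Q f) {b d : V} (hb : b ∈ Q) (hd : d ∈ Q) (hbd : G.Adj b d)
    (hne : d ≠ f b) : G.Adj (f b) (f d) := by
  by_contra hna
  have hbd' : b ≠ d := hbd.ne
  have hbfd : b ≠ f d := by
    intro h
    apply hne
    rw [h, (hf d hd).2.2]
  have hbfb : b ≠ f b := (hf b hb).2.1.ne
  have hdfd : d ≠ f d := (hf d hd).2.1.ne
  have hff : f b ≠ f d := fun h => hbd' (inj hf hb hd h)
  have hsol : Sol G Q {f b, f d} := by
    refine ⟨?_, ?_, ?_⟩
    · intro x hx
      rw [Finset.mem_insert, Finset.mem_singleton] at hx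
      rcases hx with rfl | rfl
      · exact (hf b hb).1
      · exact (hf d hd).1
    · intro x hx y hy
      rw [Finset.mem_insert, Finset.mem_singleton] at hx hy
      rcases hx with rfl | rfl <;> rcases hy with rfl | rfl
      · exact G.loopless.irrefl _
      · exact hna
      · exact fun h => hna h.symm
      · exact G.loopless.irrefl _
    · refine ⟨fun x => if x = b then d else if x = d then b else f x, ?_⟩
      intro x hx
      rw [Finset.mem_sdiff, Finset.mem_insert, Finset.mem_singleton, not_or] at hx
      obtain ⟨hxQ, hx1, hx2⟩ := hx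
      by_cases h1 : x = b
      · subst h1
        have h2 : d ≠ x := hbd'.symm
        simp only [if_true, if_neg h2]
        refine ⟨?_, hbd, trivial⟩
        rw [Finset.mem_sdiff, Finset.mem_insert, Finset.mem_singleton, not_or]
        exact ⟨hd, hne, hdfd⟩
      · by_cases h2 : x = d
        · subst h2
          simp only [if_neg h1, if_true]
          refine ⟨?_, hbd.symm, trivial⟩
          rw [Finset.mem_sdiff, Finset.mem_insert, Finset.mem_singleton, not_or]
          exact ⟨hb, hbfb, hbfd⟩
        · have h3 : f x ≠ b := by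
            intro h
            apply hx1
            rw [← h, (hf x hxQ).2.2]
          have h4 : f x ≠ d := by
            intro h
            apply hx2
            rw [← h, (hf x hxQ).2.2]
          simp only [if_neg h1, if_neg h2, if_neg h3, if_neg h4]
          refine ⟨?_, (hf x hxQ).2.1, (hf x hxQ).2.2⟩
          rw [Finset.mem_sdiff, Finset.mem_insert, Finset.mem_singleton, not_or]
          exact ⟨(hf x hxQ).1, fun h => h1 (inj hf hxQ hb h), fun h => h2 (inj hf hxQ hd h)⟩
  have := h0 _ hsol
  rw [Finset.card_pair hff] at this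
  omega

/-- swapping the pairs of `x` and `y` -/
noncomputable def sw (f : V → V) (x y : V) : V → V := fun z =>
  if z = x then y else if z = y then x else if z = f x then f y else if z = f y then f x else f z

theorem sw_pm {G : SimpleGraph V} {Q : Finset V} {f : V → V} (hf : IsPM G Q f) {x y : V}
    (hx : x ∈ Q) (hy : y ∈ Q) (hxy : G.Adj x y) (hne : y ≠ f x) (hff : G.Adj (f x) (f y)) :
    IsPM G Q (sw f x y) := by
  have hxy' : x ≠ y := hxy.ne
  have h1 : x ≠ f y := by
    intro h
    apply hne
    rw [h, (hf y hy).2.2]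
  have h2 : x ≠ f x := (hf x hx).2.1.ne
  have h3 : y ≠ f y := (hf y hy).2.1.ne
  have h4 : f x ≠ f y := hff.ne
  have ex : sw f x y x = y := by simp [sw]
  have ey : sw f x y y = x := by
    unfold sw
    rw [if_neg hxy'.symm, if_pos rfl]
  have efx : sw f x y (f x) = f y := by
    unfold sw
    rw [if_neg h2.symm, if_neg hne.symm, if_pos rfl]
  have efy : sw f x y (f y) = f x := by
    unfold sw
    rw [if_neg h1.symm, if_neg h3.symm, if_neg h4.symm, if_pos rfl]
  intro z hz
  by_cases hzx : z = x
  · subst hzx
    rw [ex, ey]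
    exact ⟨hy, hxy, rfl⟩
  by_cases hzy : z = y
  · subst hzy
    rw [ey, ex]
    exact ⟨hx, hxy.symm, rfl⟩
  by_cases hzfx : z = f x
  · subst hzfx
    rw [efx, efy]
    exact ⟨(hf y hy).1, hff, rfl⟩
  by_cases hzfy : z = f y
  · subst hzfy
    rw [efy, efx]
    exact ⟨(hf x hx).1, hff.symm, rfl⟩
  have ez : sw f x y z = f z := by
    unfold sw
    rw [if_neg hzx, if_neg hzy, if_neg hzfx, if_neg hzfy]
  have ezz : sw f x y (f z) = z := by
    unfold sw
    rw [if_neg, if_neg, if_neg, if_neg]
    · exact (hf z hz).2.2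
    · intro h
      exact hzy (inj hf hz hy h)
    · intro h
      exact hzx (inj hf hz hx h)
    · intro h
      apply hzfy
      rw [← h, (hf z hz).2.2]
    · intro h
      apply hzfx
      rw [← h, (hf z hz).2.2]
  rw [ez, ezz]
  exact ⟨(hf z hz).1, (hf z hz).2.1, rfl⟩

theorem sw_other {f : V → V} {x y z : V} (h1 : z ≠ x) (h2 : z ≠ y) (h3 : z ≠ f x)
    (h4 : z ≠ f y) : sw f x y z = f z := by
  unfold sw
  rw [if_neg h1, if_neg h2, if_neg h3, if_neg h4]

theorem sw_right {f : V → V} {x y : V} (h : y ≠ x) : sw f x y y = x := by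
  unfold sw
  rw [if_neg h, if_pos rfl]

theorem sw_fright {f : V → V} {x y : V} (h1 : f y ≠ x) (h2 : f y ≠ y) (h3 : f y ≠ f x) :
    sw f x y (f y) = f x := by
  unfold sw
  rw [if_neg h1, if_neg h2, if_neg h3, if_pos rfl]

theorem main {G : SimpleGraph V} {Q : Finset V} (h0 : ∀ I, Sol G Q I → I.card ≤ 0)
    (hc : Conn G Q) {f : V → V} (hf : IsPM G Q f) {x : V} (hx : x ∈ Q) :
    ∀ y ∈ Q, y = x ∨ y = f x ∨ G.Adj x y ∨ G.Adj x (f y) := by
  have hT : Q.filter (fun y => y = x ∨ y = f x ∨ G.Adj x y ∨ G.Adj x (f y)) = Q := by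
    apply hc.2 _ (Finset.filter_subset _ _)
    · exact ⟨x, by simp [hx]⟩
    · intro y hy z hz hyz
      rw [Finset.mem_filter] at hy ⊢
      obtain ⟨hyQ, hy⟩ := hy
      refine ⟨hz, ?_⟩
      by_cases hyx : y = x
      · subst hyx
        exact Or.inr (Or.inr (Or.inl hyz))
      by_cases hyfx : y = f x
      · subst hyfx
        by_cases hzx : z = x
        · exact Or.inl hzx
        · have := claim1 h0 hf (hf x hx).1 hz hyz (by rw [(hf x hx).2.2]; exact hzx)
          rw [(hf x hx).2.2] at this
          exact Or.inr (Or.inr (Or.inr this))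
      by_cases hzx : z = x
      · exact Or.inl hzx
      by_cases hzfx : z = f x
      · exact Or.inr (Or.inl hzfx)
      have hy' : G.Adj x y ∨ G.Adj x (f y) := by tauto
      rcases hy' with hxy | hxy
      · by_cases hzfy : z = f y
        · refine Or.inr (Or.inr (Or.inr ?_))
          rw [hzfy, (hf y hyQ).2.2]
          exact hxy
        have hff := claim1 h0 hf hx hyQ hxy hyfx
        have hpm := sw_pm hf hx hyQ hxy hyfx hff
        have e1 : sw f x y y = x := sw_right hyx
        have e2 : sw f x y z = f z := sw_other hzx hyz.ne.symm hzfx hzfy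
        have := claim1 h0 hpm hyQ hz hyz (by rw [e1]; exact hzx)
        rw [e1, e2] at this
        exact Or.inr (Or.inr (Or.inr this))
      · have hfyx : f y ≠ f x := fun h => hyx (inj hf hyQ hx h)
        have hfyx' : f y ≠ x := by
          intro h
          apply hyfx
          rw [← h, (hf y hyQ).2.2]
        by_cases hzfy : z = f y
        · rw [hzfy]
          exact Or.inr (Or.inr (Or.inl hxy))
        have hff := claim1 h0 hf hx (hf y hyQ).1 hxy hfyx
        have hpm := sw_pm hf hx (hf y hyQ).1 hxy hfyx hff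
        have e1 : sw f x (f y) y = f x := by
          have h := @sw_fright V f x (f y)
          rw [(hf y hyQ).2.2] at h
          exact h hyx (hf y hyQ).2.1.ne hyfx
        have e2 : sw f x (f y) z = f z := by
          apply sw_other hzx hzfy hzfx
          rw [(hf y hyQ).2.2]
          exact hyz.ne.symm
        have h3 := claim1 h0 hpm hyQ hz hyz (by rw [e1]; exact hzfx)
        rw [e1, e2] at h3
        have h4 := claim1 h0 hf (hf x hx).1 (hf z hz).1 h3 (by
          rw [(hf x hx).2.2]
          intro h
          apply hzfx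
          rw [← h, (hf z hz).2.2])
        rw [(hf x hx).2.2, (hf z hz).2.2] at h4
        exact Or.inr (Or.inr (Or.inl h4))
  intro y hy
  rw [← hT, Finset.mem_filter] at hy
  exact hy.2

end A6

theorem A6_proof : Stm.A6 := by
  intro h1 V G Q hc hcc x hx
  obtain ⟨hle, ⟨I, hI, hIc⟩, -⟩ := h1 V G Q
  have h0 : ∀ I, Sol G Q I → I.card ≤ 0 := by
    intro I hI
    rw [← hcc]
    exact hle I hI
  rw [hcc, Finset.card_eq_zero] at hIc
  subst hIc
  obtain ⟨-, -, f, hf⟩ := hI
  rw [Finset.sdiff_empty] at hf
  have hf' : A6.IsPM G Q f := hf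
  have hm := A6.main h0 hc hf' hx
  unfold dg
  refine Finset.card_le_mul_card_image_of_maps_to (f := fun y => if G.Adj x y then y else f y)
    ?_ 2 ?_
  · intro y hy
    rw [Finset.mem_filter]
    by_cases h : G.Adj x y
    · simp only [if_pos h]
      exact ⟨hy, h⟩
    · simp only [if_neg h]
      refine ⟨(hf y hy).1, ?_⟩
      rcases hm y hy with e | e | e | e
      · rw [e]
        exact (hf x hx).2.1
      · exfalso
        apply h
        rw [e]
        exact (hf x hx).2.1
      · exact absurd e h
      · exact e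
  · intro n hn
    calc (Q.filter (fun y => (if G.Adj x y then y else f y) = n)).card
        ≤ ({n, f n} : Finset V).card := by
          apply Finset.card_le_card
          intro y hy
          rw [Finset.mem_filter] at hy
          obtain ⟨hyQ, hy⟩ := hy
          rw [Finset.mem_insert, Finset.mem_singleton]
          split_ifs at hy with h
          · exact Or.inl hy
          · right
            rw [← hy, (hf y hyQ).2.2]
      _ ≤ 2 := Finset.card_le_two

end R128.F4
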