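import Pool.Agent.R128.F4.Stm

namespace R128.F4

open Classical

theorem facts_of (a1 : Stm.A1) (a2 : Stm.A2) (a3 : Stm.A3) (a4 : Stm.A4) (a4b : Stm.A4b)
    (a5 : Stm.A5) (a6 : Stm.A6) (V : Type) (G : SimpleGraph V) : Facts G where
  le_cc := fun S I h => (a1 V G S).1 I h
  opt := fun S => (a1 V G S).2.1
  parity := fun S => by
    obtain ⟨I, hI, hc⟩ := (a1 V G S).2.1
    rw [← hc]
    exact (a1 V G S).2.2 I hI
  edge := fun S x y hx hy h => (a2 a1 V G S).1 x y hx hy h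
  pm := fun S v hv => (a2 a1 V G S).2 v hv
  add := fun K L h h' => a3 a1 V G K L h h'
  cover := fun S x hx => (a4 V G S).1 x hx
  disj := fun S K L hK hL h => (a4 V G S).2.1 K L hK hL h
  one := fun S h => (a4 V G S).2.2.1 h
  nbr := fun S v h hv => (a4 V G S).2.2.2 v h hv
  sum_card := fun S => (a4b a4 V G S).1
  sum_dg := fun S v => (a4b a4 V G S).2.1 v
  card_le := fun S v h hv => (a4b a4 V G S).2.2 v h hv
  sum_cc := fun S => (a5 a1 a3 a4 V G S).1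
  rem := fun R K y hK hy => (a5 a1 a3 a4 V G R).2 K y hK hy
  zero := fun Q hQ h x hx => a6 a1 V G Q hQ h x hx

theorem good_of (gs : ∀ (V : Type) (G : SimpleGraph V) (m A B : ℕ) (S : Finset V),
      Ctx G m A B S → Good G m A B S)
    (fa : ∀ (V : Type) (G : SimpleGraph V), Facts G)
    (V : Type) (G : SimpleGraph V) (m A B : ℕ) (par : Par m A B)
    (deg : ∀ (T : Finset V) (x : V), dg G T x ≤ m + 1) :
    ∀ S : Finset V, Conn G S → Good G m A B S := by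
  intro S
  induction' hn : S.card using Nat.strong_induction_on with n ih generalizing S
  intro hS
  refine gs V G m A B S ⟨par, fa V G, deg, hS, ?_⟩
  intro T hT hTc
  exact ih T.card (hn ▸ hT) T rfl hTc

theorem final_of (a1 : Stm.A1) (a2 : Stm.A2) (a3 : Stm.A3) (a4 : Stm.A4) (a4b : Stm.A4b)
    (a5 : Stm.A5) (a6 : Stm.A6) (eb : Stm.EB) (pb : Stm.PB) (cv1 : Stm.CV1) (cv2 : Stm.CV2)
    (cv3 : Stm.CV3) (cv5 : Stm.CV5) (cv6 : Stm.CV6) (cv7 : Stm.CV7) (cv8a : Stm.CV8a)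
    (cv8c : Stm.CV8c) (cv8d1 : Stm.CV8d1) (cv8d3 : Stm.CV8d3) (cv8 : Stm.CV8) (ns : Stm.NS)
    (nctr : Stm.NCtr) (ncmax : Stm.NCmax) (three : Stm.Three) (bx : Stm.BX) (b1 : Stm.B1)
    (b2 : Stm.B2) (cb : Stm.CB) (bn : Stm.BN) (t0 : Stm.T0) (t2 : Stm.T2)
    (gs : Stm.GoodStep) (u1 : Stm.U1) (u2 : Stm.U2) (u3 : Stm.U3) (u4 : Stm.U4) (l1 : Stm.L1)
    (l2 : Stm.L2) (l3 : Stm.L3) (l4 : Stm.L4) (l5 : Stm.L5) (l6 : Stm.L6) (l7 : Stm.L7)
    (l8 : Stm.L8) (r s : ℕ) (hr : 5 ≤ r) (hs : r ^ 2 + 8 < s + 5 * r) :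
    IsLeast (F4Set r s) (2 * s - 1 - (s - r + 2 + (r - 3) ^ 2) / ((r - 3) ^ 2 + 1)) := by
  have fa := facts_of a1 a2 a3 a4 a4b a5 a6
  have h8 := cv8 pb eb cv1 cv2 cv3 cv5 cv6 cv7 cv8a cv8c cv8d1 cv8d3
  have hbn := bn pb eb ns nctr ncmax three bx b1 b2 cb
  have hg := gs pb eb t0 t2 h8 hbn
  have hgood := fun (V : Type) (G : SimpleGraph V) (m A B : ℕ) (par : Par m A B)
    (deg : ∀ (T : Finset V) (x : V), dg G T x ≤ m + 1) => good_of hg fa V G m A B par deg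
  refine ⟨u4 u1 u2 u3 hgood fa r s hr hs, ?_⟩
  intro p hp
  by_contra hlt
  exact l8 l1 l2 l3 l4 l5 l6 l7 r s p hr hs (not_le.1 hlt) hp

end R128.F4
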