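import Pool.Agent.R85.F4Aux

namespace R128.F4
open Classical

theorem B1_proof : Stm.B1 := by
  intro hPB hEB hN hBX h3 V G m A B S u v w K1 hB Kj hKj Kl hKl hjl hj1 hl1 hju hlv
  obtain ⟨x1, x2, x3, x4, x5⟩ := hBX hN V G m A B S u v w K1 hB
  have F := hB.ctx.F
  obtain ⟨y1, hy1, huy1⟩ := hju
  obtain ⟨y2, hy2, hvy2⟩ := hlv
  obtain ⟨z1, hz1, hwz1⟩ := F.nbr _ w hB.hH hB.hw K1 hB.hK1
  have hcw := hB.hwn.trans hB.hcH
  rcases F.pm K1 z1 hz1 with hp | hp
  · exact (h3 V G S F u hB.hu v hB.hv (G.ne_of_adj hB.huv) w hB.hw hcw Kj hKj Kl hKl K1 hB.hK1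
      hjl hj1 hl1 y1 hy1 huy1 (x2 Kj hKj hj1 y1 hy1) y2 hy2 hvy2 (x2 Kl hKl hl1 y2 hy2)
      z1 hz1 hwz1 hp).elim
  have hHS : (S.erase u).erase v ⊆ S := (Finset.erase_subset _ _).trans (Finset.erase_subset _ _)
  have hctxH := R85F4.ctx_sub hB.ctx hHS hB.hH
  have hK1m := R85F4.mem_comps.1 hB.hK1
  have hK1H := hK1m.1.trans (Finset.erase_subset _ _)
  have hctxK := R85F4.ctx_sub hctxH hK1H hK1m.2.1
  have p1 := hPB hEB V G m A B K1 hctxK z1 hz1
  have d1 := F.card_le K1 z1 hK1m.2.1 hz1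
  have hwK : w ∉ K1 := fun h => (Finset.mem_erase.1 (hK1m.1 h)).1 rfl
  have d2 := R85F4.dg_lt hK1H hB.hw hwK hwz1.symm
  have d3 := hB.ctx.deg ((S.erase u).erase v) z1
  have d4 : (comps G (K1.erase z1)).card * A ≤ m * A := Nat.mul_le_mul_right _ (by omega)
  have s1 := F.sum_card (((S.erase u).erase v).erase w)
  have s2 := F.sum_cc (((S.erase u).erase v).erase w)
  rw [← Finset.add_sum_erase _ _ hB.hK1] at s1 s2
  have s3 : ∑ K ∈ (comps G (((S.erase u).erase v).erase w)).erase K1, K.card ≤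
      ∑ K ∈ (comps G (((S.erase u).erase v).erase w)).erase K1, (A + B * cc G K) :=
    Finset.sum_le_sum fun K hK =>
      hEB V G m A B _ hctxH w hB.hw K (Finset.mem_of_mem_erase hK)
  rw [Finset.sum_add_distrib, Finset.sum_const, smul_eq_mul, ← Finset.mul_sum,
    Finset.card_erase_of_mem hB.hK1, hB.hall w hB.hw hB.hwn, Nat.add_sub_cancel] at s3
  have c1 := Finset.card_erase_add_one hB.hw
  have hv' : v ∈ S.erase u := Finset.mem_erase.2 ⟨(G.ne_of_adj hB.huv).symm, hB.hv⟩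
  have c2 := Finset.card_erase_add_one hv'
  have c3 := Finset.card_erase_add_one hB.hu
  have hpB := hB.ctx.par.hB
  generalize ∑ K ∈ (comps G (((S.erase u).erase v).erase w)).erase K1, K.card = X at s1 s3
  generalize ∑ K ∈ (comps G (((S.erase u).erase v).erase w)).erase K1, cc G K = Y at s2 s3
  have hc : cc G S = cc G (K1.erase z1) + Y + 2 := by omega
  rw [hc, Nat.mul_add, Nat.mul_add]
  generalize (comps G (K1.erase z1)).card * A = q at p1 d4
  generalize B * cc G (K1.erase z1) = b1 at p1 ⊢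
  generalize B * Y = b2 at s3 ⊢
  generalize m * A = mA at d4 s3 hpB
  omega

end R128.F4
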