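import Pool.Agent.R85.F4Aux

namespace R128.F4
open Classical

theorem B2_proof : Stm.B2 := by
  intro hN hBX h3 V G m A B S u v w K1 hB hno K2 hK2 h21 hu2
  obtain ⟨x1, x2, x3, x4, x5⟩ := hBX hN V G m A B S u v w K1 hB
  have F := hB.ctx.F
  have hcw := hB.hwn.trans hB.hcH
  have hcard := hB.hall w hB.hw hB.hwn
  have hm := hB.ctx.par.hm
  obtain ⟨K3, hK3, h31, h32⟩ : ∃ K3 ∈ comps G (((S.erase u).erase v).erase w),
      K3 ≠ K1 ∧ K3 ≠ K2 := by
    have h1 : (((comps G (((S.erase u).erase v).erase w)).erase K1).erase K2).Nonempty := by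
      rw [← Finset.card_pos, Finset.card_erase_of_mem (Finset.mem_erase.2 ⟨h21, hK2⟩),
        Finset.card_erase_of_mem hB.hK1, hcard]
      omega
    obtain ⟨K3, hK3⟩ := h1
    rw [Finset.mem_erase, Finset.mem_erase] at hK3
    exact ⟨K3, hK3.2.2, hK3.2.1, hK3.1⟩
  have hv3 : ∀ y ∈ K3, ¬ G.Adj v y := fun y hy h =>
    hno K2 hK2 K3 hK3 h32.symm h21 h31 hu2 ⟨y, hy, h⟩
  have hu3 : ∃ y ∈ K3, G.Adj u y := by
    obtain ⟨z, hz, h | h⟩ := x5 K3 hK3
    · exact ⟨z, hz, h⟩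
    · exact absurd h (hv3 z hz)
  have hvK : ∀ K ∈ comps G (((S.erase u).erase v).erase w), K ≠ K1 → ∀ y ∈ K,
      ¬ G.Adj v y := by
    intro K hK hK1 y hy h
    by_cases h2 : K = K2
    · rw [h2] at hy
      exact hno K3 hK3 K2 hK2 h32 h31 h21 hu3 ⟨y, hy, h⟩
    · exact hno K2 hK2 K hK (Ne.symm h2) h21 hK1 hu2 ⟨y, hy, h⟩
  have hw' := hB.hw
  rw [Finset.mem_erase, Finset.mem_erase] at hw'
  have huv : u ≠ v := G.ne_of_adj hB.huv
  obtain ⟨z, hz, hvz⟩ : ∃ z ∈ S.erase u, G.Adj v z := by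
    by_contra hn
    push Not at hn
    have h1 := (hB.nocut u hB.hu).2 {v} (Finset.singleton_subset_iff.2
      (Finset.mem_erase.2 ⟨huv.symm, hB.hv⟩)) (Finset.singleton_nonempty v) (by
        intro a ha b hb hab
        rw [Finset.mem_singleton] at ha
        rw [ha] at hab
        exact absurd hab (hn b hb))
    have h2 : w ∈ ({v} : Finset V) := by rw [h1]; exact Finset.mem_erase.2 ⟨hw'.2.1, hw'.2.2⟩
    exact hw'.1 (Finset.mem_singleton.1 h2)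
  have hzw : z ≠ w := by
    intro h
    rw [h] at hvz
    exact (x1 w hB.hw hB.hwn).2.2 hvz
  have hzH : z ∈ (S.erase u).erase v := Finset.mem_erase.2 ⟨(G.ne_of_adj hvz).symm, hz⟩
  obtain ⟨K, hK, hzK⟩ := F.cover _ z (Finset.mem_erase.2 ⟨hzw, hzH⟩)
  have hKK1 : K = K1 := by
    by_contra hne
    exact hvK K hK hne z hzK hvz
  rw [hKK1] at hzK hK
  obtain ⟨y, hy, huy⟩ := hu2
  obtain ⟨zc, hzc, hwzc⟩ := F.nbr _ w hB.hH hB.hw K3 hK3
  rcases x3 z hzK with hp | hp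
  · exact h3 V G S F u hB.hu v hB.hv huv w hB.hw hcw K2 hK2 K1 hK K3 hK3 h21 h32.symm
      (Ne.symm h31) y hy huy (x2 K2 hK2 h21 y hy) z hzK hvz hp zc hzc hwzc
      (x2 K3 hK3 h31 zc hzc)
  · exact (x1 z hzH hp).2.2 hvz

end R128.F4
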