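import Pool.Agent.R128.F4.Stm

namespace R128.F4.Stm

open Classical

private theorem exists_nbr {V : Type} {G : SimpleGraph V} {S : Finset V} (hS : Conn G S)
    (h2 : 2 ≤ S.card) {x : V} (hx : x ∈ S) : ∃ y ∈ S, G.Adj x y := by
  by_contra hne
  push Not at hne
  have := hS.2 {x} (Finset.singleton_subset_iff.2 hx) ⟨x, Finset.mem_singleton_self x⟩ (by
    intro a ha y hy hay
    rw [Finset.mem_singleton] at ha
    subst ha
    exact absurd hay (hne y hy))
  rw [← this, Finset.card_singleton] at h2
  omega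

theorem BN_proof : R128.F4.Stm.BN := by
  intro hPB hEB hNS hNCtr hNCmax hThree hBX hB1 hB2 hCB V G m A B S hctx hcrit hc1 hno x hx
  have hF := hctx.F
  -- card ≥ 3
  have h3 : 3 ≤ S.card := by
    obtain ⟨I, hI, hIc⟩ := hF.opt (S.erase x)
    have h1 := Finset.card_le_card hI.1
    have h2 := hcrit x hx
    have h4 := Finset.card_erase_add_one hx
    omega
  obtain ⟨u, hu, hxu⟩ := exists_nbr hctx.conn (by omega) hx
  obtain ⟨v, hv, hvx, hvu, huv, hH⟩ := hNS V G S hF hctx.conn h3 hno x hx u hu hxu
  have hvS : v ∈ S.erase u := Finset.mem_erase.2 ⟨hvu, hv⟩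
  have hcard : ((S.erase u).erase v).card + 2 = S.card := by
    have h1 := Finset.card_erase_add_one hu
    have h2 := Finset.card_erase_add_one hvS
    omega
  have hcH : cc G ((S.erase u).erase v) = cc G S := by
    have h1 := hF.edge S u v hu hv huv
    have h2 := hcrit u hu
    rcases hF.pm (S.erase u) v hvS with h | h <;> omega
  have hxu' : x ≠ u := G.ne_of_adj hxu
  have hxSu : x ∈ S.erase u := Finset.mem_erase.2 ⟨hxu', hx⟩
  have hxH : x ∈ (S.erase u).erase v := Finset.mem_erase.2 ⟨hvx.symm, hxSu⟩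
  have hdH : dg G ((S.erase u).erase v) x + 1 ≤ dg G S x := by
    unfold dg
    rw [← Finset.card_insert_of_notMem (a := u)]
    · apply Finset.card_le_card
      intro y hy
      rw [Finset.mem_insert, Finset.mem_filter, Finset.mem_erase, Finset.mem_erase] at hy
      rw [Finset.mem_filter]
      rcases hy with rfl | ⟨⟨_, _, h⟩, h'⟩
      · exact ⟨hu, hxu⟩
      · exact ⟨h, h'⟩
    · simp
  have hd2 : 2 ≤ dg G S x := by
    obtain ⟨y, hy, hxy⟩ := exists_nbr (hno u hu) (by
      have := Finset.card_erase_add_one hu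
      omega) hxSu
    rw [Finset.mem_erase] at hy
    unfold dg
    rw [← Finset.card_pair hy.1]
    apply Finset.card_le_card
    intro z hz
    rw [Finset.mem_insert, Finset.mem_singleton] at hz
    rw [Finset.mem_filter]
    rcases hz with rfl | rfl
    · exact ⟨hy.2, hxy⟩
    · exact ⟨hu, hxu⟩
  by_cases hcr : Crit G ((S.erase u).erase v)
  · have := (hctx.ih _ (by omega) hH).b (by omega) hcr x hxH
    rw [hcH] at this
    omega
  · have := hCB hPB hEB hNCtr hNCmax hThree hBX hB1 hB2 V G m A B S hctx hcrit hno u hu v hv huv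
      hH hcH hcr
    omega

end R128.F4.Stm
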