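import Pool.Agent.R85.F4Aux

namespace R128.F4
open Classical

theorem BX_proof : Stm.BX := by
  intro hN V G m A B S u v w K1 hB
  obtain ⟨ctx, crit, nocut, hu, hv, huv, hH, hcH, hw, hwn, hall, hK1, hmax⟩ := hB
  obtain ⟨par, F, deg, conn, ih⟩ := ctx
  have hHS : (S.erase u).erase v ⊆ S := (Finset.erase_subset _ _).trans (Finset.erase_subset _ _)
  have huH : u ∉ (S.erase u).erase v := fun h =>
    (Finset.mem_erase.1 (Finset.mem_of_mem_erase h)).1 rfl
  have hvH : v ∉ (S.erase u).erase v := fun h => (Finset.mem_erase.1 h).1 rfl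
  generalize hHdef : (S.erase u).erase v = H at *
  refine ⟨?_, ?_, ?_, ?_, ?_⟩
  · intro z hz hc
    have h1 := hall z hz hc
    have h2 := F.card_le H z hH hz
    have h3 := deg H z
    have h5 := deg S z
    refine ⟨by omega, fun h => ?_, fun h => ?_⟩
    · have h4 := R85F4.dg_lt hHS hu huH h.symm
      omega
    · have h4 := R85F4.dg_lt hHS hv hvH h.symm
      omega
  · intro K hK hne z hz
    have h1 := hmax K hK hne z hz
    rcases F.pm K z hz with h | h
    · exact h
    · have h2 := hN V G H F w hw hwn K hK z hz h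
      omega
  · intro z hz
    rcases F.pm K1 z hz with h | h
    · exact Or.inl h
    · exact Or.inr (hN V G H F w hw hwn K1 hK1 z hz h)
  · intro K hK
    have h1 := F.sum_dg (H.erase w) w
    have h2 := deg (H.erase w) w
    have h3 := hall w hw hwn
    have h4 : ∀ K ∈ comps G (H.erase w), 1 ≤ dg G K w := by
      intro K hK
      obtain ⟨y, hy, hwy⟩ := F.nbr H w hH hw K hK
      exact Finset.card_pos.2 ⟨y, Finset.mem_filter.2 ⟨hy, hwy⟩⟩
    by_contra hne
    have h5 : 1 < dg G K w := lt_of_le_of_ne (h4 K hK) (Ne.symm hne)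
    have h6 : ∑ K ∈ comps G (H.erase w), 1 < ∑ K ∈ comps G (H.erase w), dg G K w :=
      Finset.sum_lt_sum h4 ⟨K, hK, h5⟩
    rw [Finset.sum_const, smul_eq_mul, mul_one] at h6
    omega
  · intro K hK
    by_contra hno
    push Not at hno
    have hKm := R85F4.mem_comps.1 hK
    have hwS : w ∈ S := hHS hw
    have hKS : K ⊆ S.erase w := fun a ha => by
      have := hKm.1 ha
      exact Finset.mem_erase.2 ⟨(Finset.mem_erase.1 this).1, hHS (Finset.mem_erase.1 this).2⟩
    have h7 := (nocut w hwS).2 K hKS hKm.2.1.1 (by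
      intro a ha b hb hab
      have hb' := Finset.mem_erase.1 hb
      by_cases hbu : b = u
      · rw [hbu] at hab; exact absurd hab.symm (hno a ha).1
      by_cases hbv : b = v
      · rw [hbv] at hab; exact absurd hab.symm (hno a ha).2
      refine hKm.2.2 a ha b (Finset.mem_erase.2 ⟨hb'.1, ?_⟩) hab
      rw [← hHdef]
      exact Finset.mem_erase.2 ⟨hbv, Finset.mem_erase.2 ⟨hbu, hb'.2⟩⟩)
    have huw : u ≠ w := fun h => huH (h ▸ hw)
    have h8 : u ∈ K := by rw [h7]; exact Finset.mem_erase.2 ⟨huw, hu⟩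
    exact huH (Finset.mem_of_mem_erase (hKm.1 h8))

end R128.F4
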