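import Pool.Agent.R128.F4.Stm

namespace R128.F4.Stm

open Classical

private theorem swap_erase {V : Type} (S : Finset V) (u v : V) :
    (S.erase v).erase u = (S.erase u).erase v := Finset.erase_right_comm

theorem CB_proof : R128.F4.Stm.CB := by
  intro hPB hEB hNCtr hNCmax hThree hBX hB1 hB2 V G m A B S hctx hcrit hno u hu v hv huv hH hcH hnc
  have hF := hctx.F
  have hpar := hctx.par
  have huv' : u ≠ v := G.ne_of_adj huv
  have hvS : v ∈ S.erase u := Finset.mem_erase.2 ⟨huv'.symm, hv⟩
  have hcard : ((S.erase u).erase v).card + 2 = S.card := by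
    have h1 := Finset.card_erase_add_one hu
    have h2 := Finset.card_erase_add_one hvS
    omega
  have hctxH : Ctx G m A B ((S.erase u).erase v) :=
    ⟨hpar, hF, hctx.deg, hH, fun T hT hc => hctx.ih T (by omega) hc⟩
  -- noncritical vertex
  have hex : ∃ w ∈ (S.erase u).erase v,
      cc G (((S.erase u).erase v).erase w) + 1 = cc G ((S.erase u).erase v) := by
    by_contra hne
    push Not at hne
    apply hnc
    intro z hz
    rcases hF.pm _ z hz with h | h
    · exact h
    · exact absurd h (hne z hz)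
  by_cases hsm : ∃ w ∈ (S.erase u).erase v,
      cc G (((S.erase u).erase v).erase w) + 1 = cc G ((S.erase u).erase v) ∧
      (comps G (((S.erase u).erase v).erase w)).card ≤ m
  · obtain ⟨w, hw, hwn, hwc⟩ := hsm
    have h1 := hPB hEB V G m A B _ hctxH w hw
    have h2 : (comps G (((S.erase u).erase v).erase w)).card * A ≤ m * A :=
      Nat.mul_le_mul_right A hwc
    have h3 : B * cc G S = B * cc G (((S.erase u).erase v).erase w) + B := by
      rw [← hcH, ← hwn]; ring
    have h4 := hpar.hB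
    omega
  · push Not at hsm
    have hall : ∀ z ∈ (S.erase u).erase v,
        cc G (((S.erase u).erase v).erase z) + 1 = cc G ((S.erase u).erase v) →
        (comps G (((S.erase u).erase v).erase z)).card = m + 1 := by
      intro z hz hzn
      have h1 := hsm z hz hzn
      have h2 := hF.card_le _ z hH hz
      have h3 := hctx.deg ((S.erase u).erase v) z
      omega
    obtain ⟨w, hw, hwn, K1, hK1, hmax⟩ := hNCmax V G _ hF hH hex (by
      intro z hz hzn
      have := hall z hz hzn
      apply Finset.card_pos.1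
      omega)
    have hb : BCtx G m A B S u v w K1 :=
      ⟨hctx, hcrit, hno, hu, hv, huv, hH, hcH, hw, hwn, hall, hK1, hmax⟩
    have hb' : BCtx G m A B S v u w K1 := by
      refine ⟨hctx, hcrit, hno, hv, hu, huv.symm, ?_, ?_, ?_, ?_, ?_, ?_, ?_⟩ <;>
        rw [swap_erase S u v]
      · exact hH
      · exact hcH
      · exact hw
      · exact hwn
      · exact hall
      · exact hK1
      · exact hmax
    by_cases hB : ∃ Kj ∈ comps G (((S.erase u).erase v).erase w),
        ∃ Kl ∈ comps G (((S.erase u).erase v).erase w), Kj ≠ Kl ∧ Kj ≠ K1 ∧ Kl ≠ K1 ∧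
        (∃ y ∈ Kj, G.Adj u y) ∧ (∃ y ∈ Kl, G.Adj v y)
    · obtain ⟨Kj, hKj, Kl, hKl, h1, h2, h3, h4, h5⟩ := hB
      exact hB1 hPB hEB hNCtr hBX hThree V G m A B S u v w K1 hb Kj hKj Kl hKl h1 h2 h3 h4 h5
    · exfalso
      have hno1 : ∀ Kj ∈ comps G (((S.erase u).erase v).erase w),
          ∀ Kl ∈ comps G (((S.erase u).erase v).erase w), Kj ≠ Kl → Kj ≠ K1 → Kl ≠ K1 →
          (∃ y ∈ Kj, G.Adj u y) → (∃ y ∈ Kl, G.Adj v y) → False :=
        fun Kj hKj Kl hKl h1 h2 h3 h4 h5 => hB ⟨Kj, hKj, Kl, hKl, h1, h2, h3, h4, h5⟩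
      have hc := hall w hw hwn
      have hm := hpar.hm
      obtain ⟨K2, hK2, hK21⟩ := Finset.exists_mem_ne (s := comps G (((S.erase u).erase v).erase w))
        (by omega) K1
      obtain ⟨z, hz, hzuv⟩ := (hBX hNCtr V G m A B S u v w K1 hb).2.2.2.2 K2 hK2
      rcases hzuv with hzu | hzv
      · exact hB2 hNCtr hBX hThree V G m A B S u v w K1 hb hno1 K2 hK2 hK21 ⟨z, hz, hzu⟩
      · have := hB2 hNCtr hBX hThree V G m A B S v u w K1 hb'
        rw [swap_erase S u v] at this
        exact this (fun Kj hKj Kl hKl h1 h2 h3 h4 h5 =>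
          hno1 Kl hKl Kj hKj h1.symm h3 h2 h5 h4) K2 hK2 hK21 ⟨z, hz, hzv⟩

end R128.F4.Stm
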