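import Pool.Agent.R128.F4.Stm

namespace R128.F4
open Classical

theorem CV1_proof : Stm.CV1 := by
  intro V G S F hS hC w hw K hK y hy hwy
  have hK2 := hK
  rw [comps, Finset.mem_filter, Finset.mem_powerset] at hK2
  have hyS : y ∈ S := Finset.mem_of_mem_erase (hK2.1 hy)
  have h1 := F.edge S w y hw hyS hwy
  have h2 := hC w hw
  have h3 := F.rem (S.erase w) K y hK hy
  have h4 := F.pm K y hy
  omega

end R128.F4
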