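import Pool.Agent.R128.F4.Stm

namespace R128.F4

open Classical

namespace EB

theorem mem_comps {V : Type} {G : SimpleGraph V} {S K : Finset V} :
    K ∈ comps G S ↔ K ⊆ S ∧ Conn G K ∧ ∀ x ∈ K, ∀ y ∈ S, G.Adj x y → y ∈ K := by
  unfold comps
  rw [Finset.mem_filter, Finset.mem_powerset]

theorem dg_insert {V : Type} {G : SimpleGraph V} {K : Finset V} {v y : V} (hv : v ∉ K)
    (h : G.Adj y v) : dg G (insert v K) y = dg G K y + 1 := by
  unfold dg
  rw [Finset.filter_insert, if_pos h, Finset.card_insert_of_notMem]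
  intro h'
  exact hv (Finset.mem_filter.1 h').1

theorem dg_le {V : Type} {G : SimpleGraph V} {m : ℕ}
    (hdeg : ∀ (T : Finset V) (x : V), dg G T x ≤ m + 1) {K : Finset V} {v y : V} (hv : v ∉ K)
    (h : G.Adj y v) : dg G K y ≤ m := by
  have h1 := hdeg (insert v K) y
  rw [dg_insert hv h] at h1
  omega

theorem ctx_comp {V : Type} {G : SimpleGraph V} {m A B : ℕ} {S K : Finset V} {v : V}
    (h : Ctx G m A B S) (hv : v ∈ S) (hK : K ∈ comps G (S.erase v)) :
    K.card < S.card ∧ v ∉ K ∧ Ctx G m A B K := by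
  obtain ⟨h1, h2, h3⟩ := mem_comps.1 hK
  have h4 : K.card < S.card :=
    lt_of_le_of_lt (Finset.card_le_card h1) (Finset.card_erase_lt_of_mem hv)
  refine ⟨h4, fun h5 => ?_, ⟨h.par, h.F, h.deg, h2, fun T hT hT' => h.ih T (by omega) hT'⟩⟩
  have := h1 h5
  simp at this

end EB

theorem EB_proof : Stm.EB := by
  intro V G m A B S h v hv K hK
  obtain ⟨h1, h2, h3⟩ := EB.ctx_comp h hv hK
  rcases Nat.eq_zero_or_pos (cc G K) with h4 | h4
  · obtain ⟨y, hy, hvy⟩ := h.F.nbr S v h.conn hv K hK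
    have h5 := h.F.zero K h3.conn h4 y hy
    have h6 := EB.dg_le h.deg h2 hvy.symm
    have h7 := h.par.hA
    rw [h4]
    omega
  · exact (h.ih K h1 h3.conn).a h4

end R128.F4
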