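import Pool.Agent.R128.F4.Stm
import Pool.Agent.R128.F4.EB

namespace R128.F4

open Classical

theorem CV2_proof : Stm.CV2 := by
  intro hPB hEB hCV1 V G m A B S h hcrit w hw K hK y hy hwy
  obtain ⟨h1, h2, h3⟩ := EB.ctx_comp h hw hK
  have h4 := h.F.card_le K y h3.conn hy
  have h5 := EB.dg_le h.deg h2 hwy.symm
  have h6 := hPB hEB V G m A B K h3 y hy
  have h7 := hCV1 V G S h.F h.conn hcrit w hw K hK y hy hwy
  have h8 : (comps G (K.erase y)).card ≤ m := by omega
  have h9 : B * cc G K = B * cc G (K.erase y) + B := by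
    rw [← h7, Nat.mul_add, Nat.mul_one]
  have h10 : (comps G (K.erase y)).card * A ≤ m * A := Nat.mul_le_mul_right A h8
  have h11 := h.par.hB
  refine ⟨h8, ?_, ?_⟩ <;> omega

end R128.F4
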