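import Pool.Agent.R128.F4.Stm
import Pool.Agent.R128.F4.EB

namespace R128.F4

open Classical

namespace CV3

theorem glue {V : Type} {G : SimpleGraph V} (F : Facts G) (R : Finset V)
    (g : Finset V → Finset V) (hg : ∀ K ∈ comps G R, Sol G K (g K)) :
    Sol G R ((comps G R).biUnion g) ∧
      ((comps G R).biUnion g).card = ∑ K ∈ comps G R, (g K).card := by
  have huniq : ∀ K ∈ comps G R, ∀ L ∈ comps G R, ∀ x, x ∈ K → x ∈ L → K = L := by
    intro K hK L hL x hxK hxL
    by_contra hne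
    exact Finset.disjoint_left.1 (F.disj R K L hK hL hne) hxK hxL
  have hpm : ∀ K : Finset V, ∃ f : V → V, K ∈ comps G R → ∀ x ∈ K \ g K, f x ∈ K \ g K ∧
      G.Adj x (f x) ∧ f (f x) = x := by
    intro K
    by_cases hK : K ∈ comps G R
    · obtain ⟨f, hf⟩ := (hg K hK).2.2
      exact ⟨f, fun _ => hf⟩
    · exact ⟨id, fun h => absurd h hK⟩
  choose ff hff using hpm
  have hcomp : ∀ x : V, ∃ K : Finset V, x ∈ R → K ∈ comps G R ∧ x ∈ K := by
    intro x
    by_cases hx : x ∈ R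
    · obtain ⟨K, hK, hxK⟩ := F.cover R x hx
      exact ⟨K, fun _ => ⟨hK, hxK⟩⟩
    · exact ⟨∅, fun h => absurd h hx⟩
  choose kp hkp using hcomp
  refine ⟨⟨?_, ?_, fun x => ff (kp x) x, ?_⟩, ?_⟩
  · intro x hx
    obtain ⟨K, hK, hxK⟩ := Finset.mem_biUnion.1 hx
    exact (EB.mem_comps.1 hK).1 ((hg K hK).1 hxK)
  · intro x hx y hy hxy
    obtain ⟨K, hK, hxK⟩ := Finset.mem_biUnion.1 hx
    obtain ⟨L, hL, hyL⟩ := Finset.mem_biUnion.1 hy
    have h1 : y ∈ K := (EB.mem_comps.1 hK).2.2 x ((hg K hK).1 hxK) y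
      ((EB.mem_comps.1 hL).1 ((hg L hL).1 hyL)) hxy
    have h2 : K = L := huniq K hK L hL y h1 ((hg L hL).1 hyL)
    subst h2
    exact (hg K hK).2.1 x hxK y hyL hxy
  · intro x hx
    obtain ⟨hxR, hxI⟩ := Finset.mem_sdiff.1 hx
    obtain ⟨hK, hxK⟩ := hkp x hxR
    have hxg : x ∈ kp x \ g (kp x) := Finset.mem_sdiff.2
      ⟨hxK, fun h => hxI (Finset.mem_biUnion.2 ⟨kp x, hK, h⟩)⟩
    obtain ⟨h1, h2, h3⟩ := hff (kp x) hK x hxg
    obtain ⟨h4, h5⟩ := Finset.mem_sdiff.1 h1
    have h6 : ff (kp x) x ∈ R := (EB.mem_comps.1 hK).1 h4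
    obtain ⟨hK', hx'⟩ := hkp _ h6
    have h7 : kp (ff (kp x) x) = kp x := huniq _ hK' _ hK _ hx' h4
    refine ⟨Finset.mem_sdiff.2 ⟨h6, fun h => ?_⟩, h2, ?_⟩
    · obtain ⟨L, hL, hyL⟩ := Finset.mem_biUnion.1 h
      have h8 : L = kp x := huniq L hL _ hK _ ((hg L hL).1 hyL) h4
      subst h8
      exact h5 hyL
    · show ff (kp (ff (kp x) x)) (ff (kp x) x) = x
      rw [h7]
      exact h3
  · refine Finset.card_biUnion ?_
    intro K hK L hL hne
    exact Finset.disjoint_of_subset_left (hg K hK).1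
      (Finset.disjoint_of_subset_right (hg L hL).1 (F.disj R K L hK hL hne))

end CV3

theorem CV3_proof : Stm.CV3 := by
  intro V G S F hconn hcrit w hw
  by_contra hno
  push Not at hno
  have hch : ∀ K : Finset V, ∃ I : Finset V, K ∈ comps G (S.erase w) →
      Sol G K I ∧ I.card = cc G K ∧ ∀ x ∈ I, ¬ G.Adj w x := by
    intro K
    by_cases hK : K ∈ comps G (S.erase w)
    · obtain ⟨I, hI⟩ := hno K hK
      exact ⟨I, fun _ => hI⟩
    · exact ⟨∅, fun h => absurd h hK⟩
  choose g hg using hch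
  obtain ⟨⟨h1, h2, h3⟩, h4⟩ := CV3.glue F (S.erase w) g (fun K hK => (hg K hK).1)
  have h5 : ∑ K ∈ comps G (S.erase w), (g K).card = cc G (S.erase w) := by
    rw [← F.sum_cc (S.erase w)]
    exact Finset.sum_congr rfl (fun K hK => (hg K hK).2.1)
  set I := (comps G (S.erase w)).biUnion g with hIdef
  have hwI : w ∉ I := fun h => by
    have := h1 h
    simp at this
  have hadj : ∀ x ∈ I, ¬ G.Adj w x := by
    intro x hx
    obtain ⟨K, hK, hxK⟩ := Finset.mem_biUnion.1 hx
    exact (hg K hK).2.2 x hxK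
  have hsol : Sol G S (insert w I) := by
    refine ⟨?_, ?_, ?_⟩
    · intro z hz
      rcases Finset.mem_insert.1 hz with rfl | hz
      · exact hw
      · exact Finset.mem_of_mem_erase (h1 hz)
    · intro x hx y hy
      rw [Finset.mem_insert] at hx hy
      rcases hx with rfl | hx
      · rcases hy with rfl | hy
        · exact G.irrefl
        · exact hadj y hy
      · rcases hy with rfl | hy
        · exact fun h' => hadj x hx h'.symm
        · exact h2 x hx y hy
    · have h6 : S \ (insert w I) = (S.erase w) \ I := by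
        ext z
        simp only [Finset.mem_sdiff, Finset.mem_erase, Finset.mem_insert]
        tauto
      rw [h6]
      exact h3
  have h7 := F.le_cc S _ hsol
  have h8 := hcrit w hw
  rw [Finset.card_insert_of_notMem hwI] at h7
  omega

end R128.F4
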