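import Pool.Agent.R128.F4.Stm

namespace R128.F4

open Classical

namespace CV5

variable {V : Type}

theorem sol_of {G : SimpleGraph V} {T I : Finset V} {f : V → V} (hI : Indep G I)
    (hf : ∀ x ∈ T \ I, f x ∈ T \ I ∧ G.Adj x (f x) ∧ f (f x) = x) {Y : Finset V} (hY : Y ⊆ T)
    (hcl : ∀ x ∈ Y, x ∉ I → f x ∈ Y) : Sol G Y (I ∩ Y) := by
  refine ⟨Finset.inter_subset_right, ?_, f, ?_⟩
  · intro x hx y hy
    exact hI x (Finset.mem_inter.1 hx).1 y (Finset.mem_inter.1 hy).1
  · intro x hx
    rw [Finset.mem_sdiff, Finset.mem_inter] at hx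
    have hxI : x ∉ I := fun h => hx.2 ⟨h, hx.1⟩
    obtain ⟨h1, h2, h3⟩ := hf x (Finset.mem_sdiff.2 ⟨hY hx.1, hxI⟩)
    refine ⟨?_, h2, h3⟩
    rw [Finset.mem_sdiff, Finset.mem_inter]
    exact ⟨hcl x hx.1 hxI, fun h => (Finset.mem_sdiff.1 h1).2 h.1⟩

end CV5

theorem CV5_proof : Stm.CV5 := by
  intro hCV1 V G S F hconn hcrit w hw K hK hnb
  have hK' := hK
  unfold comps at hK'
  rw [Finset.mem_filter, Finset.mem_powerset] at hK'
  obtain ⟨hKS, hKc, hKcl⟩ := hK'
  have hwK : w ∉ K := fun h => (Finset.mem_erase.1 (hKS h)).1 rfl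
  have hPw : (insert w K).erase w = K := Finset.erase_insert hwK
  have hKS' : ∀ x ∈ K, x ∈ S := fun x hx => Finset.mem_of_mem_erase (hKS hx)
  have hPS : insert w K ⊆ S := by
    intro x hx
    rw [Finset.mem_insert] at hx
    rcases hx with rfl | hx
    · exact hw
    · exact hKS' x hx
  have hcS : cc G (S.erase w) = cc G S + 1 := hcrit w hw
  -- part (i)
  have hi : cc G (insert w K) + 1 = cc G K := by
    rcases F.pm (insert w K) w (Finset.mem_insert_self _ _) with h | h
    · rw [hPw] at h
      exact h.symm
    · exfalso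
      rw [hPw] at h
      obtain ⟨I, ⟨hIP, hI, f, hf⟩, hIc⟩ := F.opt (insert w K)
      by_cases hwI : w ∈ I
      · apply hnb
        have hs : Sol G K (I ∩ K) := by
          apply CV5.sol_of hI hf (Finset.subset_insert _ _)
          intro x hx hxI
          have h1 := (hf x (Finset.mem_sdiff.2 ⟨Finset.mem_insert_of_mem hx, hxI⟩)).1
          rw [Finset.mem_sdiff, Finset.mem_insert] at h1
          rcases h1.1 with e | e
          · exact absurd (e ▸ hwI) h1.2
          · exact e
        refine ⟨I ∩ K, hs, ?_, ?_⟩
        · have e : I = insert w (I ∩ K) := by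
            ext x
            rw [Finset.mem_insert, Finset.mem_inter]
            constructor
            · intro hx
              have := hIP hx
              rw [Finset.mem_insert] at this
              rcases this with e | e
              · exact Or.inl e
              · exact Or.inr ⟨hx, e⟩
            · rintro (rfl | ⟨hx, -⟩)
              · exact hwI
              · exact hx
          have : I.card = (I ∩ K).card + 1 := by
            conv_lhs => rw [e]
            apply Finset.card_insert_of_notMem
            rw [Finset.mem_inter]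
            exact fun h => hwK h.2
          omega
        · intro x hx
          exact hI w hwI x (Finset.mem_inter.1 hx).1
      · have hwm : w ∈ (insert w K) \ I :=
          Finset.mem_sdiff.2 ⟨Finset.mem_insert_self _ _, hwI⟩
        obtain ⟨h1, h2, h3⟩ := hf w hwm
        rw [Finset.mem_sdiff, Finset.mem_insert] at h1
        have hyK : f w ∈ K := by
          rcases h1.1 with e | e
          · exact absurd e.symm h2.ne
          · exact e
        have hs : Sol G (K.erase (f w)) (I ∩ (K.erase (f w))) := by
          apply CV5.sol_of hI hf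
            (fun x hx => Finset.mem_insert_of_mem (Finset.mem_of_mem_erase hx))
          intro x hx hxI
          rw [Finset.mem_erase] at hx ⊢
          obtain ⟨g1, g2, g3⟩ := hf x (Finset.mem_sdiff.2 ⟨Finset.mem_insert_of_mem hx.2, hxI⟩)
          rw [Finset.mem_sdiff, Finset.mem_insert] at g1
          constructor
          · intro e
            apply hwK
            have : x = w := by rw [← g3, e, h3]
            rw [← this]
            exact hx.2
          · rcases g1.1 with e | e
            · exfalso
              apply hx.1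
              rw [← g3, e]
            · exact e
        have e : I ∩ (K.erase (f w)) = I := by
          rw [Finset.inter_eq_left]
          intro x hx
          rw [Finset.mem_erase]
          constructor
          · intro e
            exact h1.2 (e ▸ hx)
          · have := hIP hx
            rw [Finset.mem_insert] at this
            rcases this with e | e
            · exact absurd (e ▸ hx) hwI
            · exact e
        rw [e] at hs
        have h5 := F.le_cc _ _ hs
        have h6 := hCV1 V G S F hconn hcrit w hw K hK (f w) hyK h2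
        omega
  refine ⟨hi, ?_⟩
  intro z hz
  by_cases hzw : z = w
  · rw [hzw, hPw]
    exact hi.symm
  have hzK : z ∈ K := by
    rw [Finset.mem_insert] at hz
    rcases hz with h | h
    · exact absurd h hzw
    · exact h
  have hzS : z ∈ S := hKS' z hzK
  have key : cc G K ≤ cc G ((insert w K).erase z) := by
    obtain ⟨I, ⟨hIS, hI, f, hf⟩, hIc⟩ := F.opt (S.erase z)
    have hcz : cc G (S.erase z) = cc G S + 1 := hcrit z hzS
    have hOd : Disjoint K ((S.erase w) \ K) := Finset.disjoint_sdiff
    have hOe : ∀ x ∈ K, ∀ y ∈ (S.erase w) \ K, ¬ G.Adj x y := by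
      intro x hx y hy hxy
      rw [Finset.mem_sdiff] at hy
      exact hy.2 (hKcl x hx y hy.1 hxy)
    have hKO : K ∪ ((S.erase w) \ K) = S.erase w := Finset.union_sdiff_of_subset hKS
    have hO := F.add K _ hOd hOe
    rw [hKO] at hO
    -- closure facts
    have hfK : ∀ x ∈ K, x ≠ z → x ∉ I → f x = w ∨ f x ∈ K := by
      intro x hx hxz hxI
      obtain ⟨g1, g2, g3⟩ := hf x (Finset.mem_sdiff.2
        ⟨Finset.mem_erase.2 ⟨hxz, hKS' x hx⟩, hxI⟩)
      by_cases e : f x = w
      · exact Or.inl e
      · right
        apply hKcl x hx _ _ g2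
        rw [Finset.mem_sdiff, Finset.mem_erase] at g1
        exact Finset.mem_erase.2 ⟨e, g1.1.2⟩
    have hfO : ∀ x ∈ (S.erase w) \ K, x ∉ I → f x = w ∨ f x ∈ (S.erase w) \ K := by
      intro x hx hxI
      rw [Finset.mem_sdiff, Finset.mem_erase] at hx
      have hxz : x ≠ z := fun e => hx.2 (e ▸ hzK)
      obtain ⟨g1, g2, g3⟩ := hf x (Finset.mem_sdiff.2
        ⟨Finset.mem_erase.2 ⟨hxz, hx.1.2⟩, hxI⟩)
      by_cases e : f x = w
      · exact Or.inl e
      · right
        rw [Finset.mem_sdiff, Finset.mem_erase] at g1
        rw [Finset.mem_sdiff, Finset.mem_erase]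
        refine ⟨⟨e, g1.1.2⟩, ?_⟩
        intro hc
        exact hx.2 (hKcl _ hc x (Finset.mem_erase.2 hx.1) g2.symm)
    have hOsub : (S.erase w) \ K ⊆ S.erase z := by
      intro x hx
      rw [Finset.mem_sdiff, Finset.mem_erase] at hx
      exact Finset.mem_erase.2 ⟨fun e => hx.2 (e ▸ hzK), hx.1.2⟩
    have hPsub : (insert w K).erase z ⊆ S.erase z := Finset.erase_subset_erase _ hPS
    by_cases hA : w ∈ I ∨ f w ∈ K
    · have s1 : Sol G ((S.erase w) \ K) (I ∩ ((S.erase w) \ K)) := by
        apply CV5.sol_of hI hf hOsub
        intro x hx hxI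
        rcases hfO x hx hxI with e | e
        · exfalso
          obtain ⟨g1, g2, g3⟩ := hf x (Finset.mem_sdiff.2 ⟨hOsub hx, hxI⟩)
          rcases hA with hA | hA
          · rw [Finset.mem_sdiff] at g1
            exact g1.2 (e ▸ hA)
          · rw [← e, g3] at hA
            exact (Finset.mem_sdiff.1 hx).2 hA
        · exact e
      have s2 : Sol G ((insert w K).erase z) (I ∩ ((insert w K).erase z)) := by
        apply CV5.sol_of hI hf hPsub
        intro x hx hxI
        obtain ⟨g1, g2, g3⟩ := hf x (Finset.mem_sdiff.2 ⟨hPsub hx, hxI⟩)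
        rw [Finset.mem_sdiff, Finset.mem_erase] at g1
        rw [Finset.mem_erase, Finset.mem_insert] at hx ⊢
        refine ⟨g1.1.1, ?_⟩
        rcases hx.2 with e | e
        · rw [e]
          rcases hA with hA | hA
          · exact absurd (e ▸ hA) hxI
          · exact Or.inr hA
        · exact hfK x e hx.1 hxI
      have l1 := F.le_cc _ _ s1
      have l2 := F.le_cc _ _ s2
      have l3 : I.card ≤ (I ∩ ((S.erase w) \ K)).card + (I ∩ ((insert w K).erase z)).card := by
        refine le_trans (Finset.card_le_card ?_) (Finset.card_union_le _ _)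
        intro x hx
        have hx1 := Finset.mem_erase.1 (hIS hx)
        rw [Finset.mem_union, Finset.mem_inter, Finset.mem_inter, Finset.mem_sdiff,
          Finset.mem_erase, Finset.mem_erase, Finset.mem_insert]
        by_cases e1 : x = w
        · exact Or.inr ⟨hx, hx1.1, Or.inl e1⟩
        · by_cases e2 : x ∈ K
          · exact Or.inr ⟨hx, hx1.1, Or.inr e2⟩
          · exact Or.inl ⟨hx, ⟨e1, hx1.2⟩, e2⟩
      omega
    · rw [not_or] at hA
      obtain ⟨hwI, hfw⟩ := hA
      have hwm : w ∈ (S.erase z) \ I :=
        Finset.mem_sdiff.2 ⟨Finset.mem_erase.2 ⟨Ne.symm hzw, hw⟩, hwI⟩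
      obtain ⟨h1, h2, h3⟩ := hf w hwm
      rw [Finset.mem_sdiff, Finset.mem_erase] at h1
      have hy'R : f w ∈ S.erase w := Finset.mem_erase.2 ⟨h2.ne.symm, h1.1.2⟩
      have s1 : Sol G (((S.erase w) \ K).erase (f w))
          (I ∩ (((S.erase w) \ K).erase (f w))) := by
        apply CV5.sol_of hI hf ((Finset.erase_subset _ _).trans hOsub)
        intro x hx hxI
        rw [Finset.mem_erase] at hx ⊢
        obtain ⟨g1, g2, g3⟩ := hf x (Finset.mem_sdiff.2 ⟨hOsub hx.2, hxI⟩)
        rcases hfO x hx.2 hxI with e | e
        · exfalso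
          apply hx.1
          rw [← e, g3]
        · refine ⟨?_, e⟩
          intro e'
          have : x = w := by rw [← g3, e', h3]
          have h7 := (Finset.mem_erase.1 (Finset.mem_sdiff.1 hx.2).1).1
          exact h7 this
      have s2 : Sol G (K.erase z) (I ∩ (K.erase z)) := by
        apply CV5.sol_of hI hf
          (fun x hx => Finset.mem_erase.2 ⟨(Finset.mem_erase.1 hx).1,
            hKS' x (Finset.mem_erase.1 hx).2⟩)
        intro x hx hxI
        rw [Finset.mem_erase] at hx ⊢
        obtain ⟨g1, g2, g3⟩ := hf x (Finset.mem_sdiff.2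
          ⟨Finset.mem_erase.2 ⟨hx.1, hKS' x hx.2⟩, hxI⟩)
        rw [Finset.mem_sdiff, Finset.mem_erase] at g1
        refine ⟨g1.1.1, ?_⟩
        rcases hfK x hx.2 hx.1 hxI with e | e
        · exfalso
          apply hfw
          rw [← e, g3]
          exact hx.2
        · exact e
      have l1 := F.le_cc _ _ s1
      have l2 := F.le_cc _ _ s2
      have l3 : I.card ≤ (I ∩ (((S.erase w) \ K).erase (f w))).card + (I ∩ (K.erase z)).card := by
        refine le_trans (Finset.card_le_card ?_) (Finset.card_union_le _ _)
        intro x hx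
        have hx1 := Finset.mem_erase.1 (hIS hx)
        rw [Finset.mem_union, Finset.mem_inter, Finset.mem_inter, Finset.mem_erase,
          Finset.mem_sdiff, Finset.mem_erase, Finset.mem_erase]
        have e1 : x ≠ w := fun e => hwI (e ▸ hx)
        have e3 : x ≠ f w := fun e => h1.2 (e ▸ hx)
        by_cases e2 : x ∈ K
        · exact Or.inr ⟨hx, hx1.1, e2⟩
        · exact Or.inl ⟨hx, e3, ⟨e1, hx1.2⟩, e2⟩
      -- cc of R.erase y'
      obtain ⟨K', hK'm, hyK'⟩ := F.cover (S.erase w) (f w) hy'R
      have c1 := hCV1 V G S F hconn hcrit w hw K' hK'm (f w) hyK' h2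
      have c2 := F.rem (S.erase w) K' (f w) hK'm hyK'
      have c3 : K ∪ (((S.erase w) \ K).erase (f w)) = (S.erase w).erase (f w) := by
        ext x
        simp only [Finset.mem_union, Finset.mem_erase, Finset.mem_sdiff]
        constructor
        · rintro (h | ⟨h4, ⟨h5, h6⟩, h7⟩)
          · refine ⟨fun e => hfw (e ▸ h), ?_⟩
            exact Finset.mem_erase.1 (hKS h)
          · exact ⟨h4, h5, h6⟩
        · rintro ⟨h4, h5, h6⟩
          by_cases h7 : x ∈ K
          · exact Or.inl h7
          · exact Or.inr ⟨h4, ⟨h5, h6⟩, h7⟩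
      have c4 := F.add K (((S.erase w) \ K).erase (f w))
        (Finset.disjoint_of_subset_right (Finset.erase_subset _ _) hOd)
        (fun x hx y hy => hOe x hx y (Finset.mem_of_mem_erase hy))
      rw [c3] at c4
      have c5 : ((insert w K).erase z).erase w = K.erase z := by
        rw [Finset.erase_right_comm, hPw]
      have c6 := F.pm ((insert w K).erase z) w
        (Finset.mem_erase.2 ⟨Ne.symm hzw, Finset.mem_insert_self _ _⟩)
      rw [c5] at c6
      omega
  rcases F.pm (insert w K) z hz with h | h
  · exact h
  · omega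

end R128.F4
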