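import Pool.Agent.R128.F4.Stm

namespace R128.F4
open Classical

namespace CV6

variable {V : Type} {G : SimpleGraph V}

theorem mem_comps {S K : Finset V} : K ∈ comps G S ↔
    K ⊆ S ∧ Conn G K ∧ ∀ x ∈ K, ∀ y ∈ S, G.Adj x y → y ∈ K := by
  unfold comps
  rw [Finset.mem_filter, Finset.mem_powerset]

theorem conn_insert {K : Finset V} {w y : V} (hK : Conn G K) (hy : y ∈ K) (hwy : G.Adj w y) :
    Conn G (insert w K) := by
  refine ⟨Finset.insert_nonempty _ _, ?_⟩
  intro T hT hne hcl
  have hKT : ∀ x ∈ T, x ∈ K → K ⊆ T := by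
    intro x hxT hxK
    have h1 := hK.2 (T ∩ K) Finset.inter_subset_right ⟨x, Finset.mem_inter.2 ⟨hxT, hxK⟩⟩
      (by
        intro a ha b hb hab
        have ha' := Finset.mem_inter.1 ha
        exact Finset.mem_inter.2 ⟨hcl a ha'.1 b (Finset.mem_insert_of_mem hb) hab, hb⟩)
    rw [← h1]
    exact Finset.inter_subset_left
  have hKsub : K ⊆ T := by
    obtain ⟨x, hx⟩ := hne
    rcases Finset.mem_insert.1 (hT hx) with rfl | hxK
    · have hyT : y ∈ T := hcl x hx y (Finset.mem_insert_of_mem hy) hwy
      exact hKT y hyT hy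
    · exact hKT x hx hxK
  refine Finset.Subset.antisymm hT ?_
  intro z hz
  rcases Finset.mem_insert.1 hz with rfl | hzK
  · exact hcl y (hKsub hy) z hz hwy.symm
  · exact hKsub hzK

theorem dg_insert (K : Finset V) (w : V) : dg G (insert w K) w = dg G K w := by
  unfold dg
  rw [Finset.filter_insert, if_neg (fun h => G.irrefl h)]

end CV6

open CV6 in
theorem CV6_proof : Stm.CV6 := by
  intro h1 h5 V G m A B S hC hcrit w hw hnc K hK hNB
  have hF := hC.F
  have hK' := mem_comps.1 hK
  obtain ⟨hcc, hcr⟩ := h5 h1 V G S hF hC.conn hcrit w hw K hK hNB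
  obtain ⟨y, hyK, hwy⟩ := hF.nbr S w hC.conn hw K hK
  have hconn : Conn G (insert w K) := conn_insert hK'.2.1 hyK hwy
  have hwK : w ∉ K := fun h => (Finset.notMem_erase w S) (hK'.1 h)
  have hcard : (insert w K).card = K.card + 1 := Finset.card_insert_of_notMem hwK
  have hlt : (insert w K).card < S.card := by
    rw [hcard]
    have hne : K ≠ S.erase w := by
      intro h
      rw [← h] at hnc
      exact hnc hK'.2.1
    have h2 : K.card < (S.erase w).card :=
      Finset.card_lt_card (lt_of_le_of_ne hK'.1 hne)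
    rw [Finset.card_erase_of_mem hw] at h2
    omega
  have hdg := dg_insert (G := G) K w
  have hwm : w ∈ insert w K := Finset.mem_insert_self _ _
  rcases Nat.eq_zero_or_pos (cc G (insert w K)) with h0 | hpos
  · have h2 := hF.zero (insert w K) hconn h0 w hwm
    rw [hdg, hcard] at h2
    have h3 : cc G K = 1 := by omega
    rw [h3]
    constructor
    · omega
    · intro h4; omega
  · have h2 := (hC.ih (insert w K) hlt hconn).b hpos hcr w hwm
    rw [hdg, hcard] at h2
    have h3 : B * cc G K = B * cc G (insert w K) + B := by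
      rw [← hcc]; ring
    rw [h3]
    constructor
    · omega
    · intro _; omega

end R128.F4
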