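import Pool.Agent.R128.F4.CVAux

/-! Piece CV7. -/

namespace R128.F4
open Classical CVx

theorem CV7_proof : Stm.CV7 := by
  intro hPB hEB hCV1 hCV2 hCV5 hCV6 V G m A B S ctx crit w hw K hK K' hK' hne hb hb'
  have hnc : ¬ Conn G (S.erase w) := not_conn ctx.F hK hK' hne
  have h6 := (hCV6 hCV1 hCV5 V G m A B S ctx crit w hw hnc K hK hb).1
  have h6' := (hCV6 hCV1 hCV5 V G m A B S ctx crit w hw hnc K' hK' hb').1
  have hd := dg2 ctx hK hK' hne
  have hs := sum2 (comps G (S.erase w)) (fun L => L.card) (fun L => cc G L) B hK hK' hne (by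
    intro L hL _ _
    obtain ⟨y, hy, hwy⟩ := ctx.F.nbr S w ctx.conn hw L hL
    exact (hCV2 hPB hEB hCV1 V G m A B S ctx crit w hw L hL y hy hwy).2.2)
  rw [sum_cc_crit ctx.F crit hw, Nat.mul_add] at hs
  have hc := card_eq ctx.F hw
  have hm := ctx.par.hm
  have hA := ctx.par.hA
  have hB := ctx.par.hB
  have hB2 : 2 * m + 1 ≤ B := by
    rw [hB, hA]
    nlinarith
  omega

end R128.F4
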