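import Pool.Agent.R128.F4.CVAux

/-! Piece CV8: assembly of the cut vertex case. -/

namespace R128.F4
open Classical CVx

theorem CV8_proof : Stm.CV8 := by
  intro hPB hEB hCV1 hCV2 hCV3 hCV5 hCV6 hCV7 hCV8a hCV8c hCV8d1 hCV8d3 V G m A B S ctx crit w hw
    hnc
  have hm := ctx.par.hm
  have hA := ctx.par.hA
  have hB := ctx.par.hB
  obtain ⟨K1, hK1, hb1⟩ := hCV3 V G S ctx.F ctx.conn crit w hw
  by_contra hgoal
  -- another component
  have hex : ∃ K2 ∈ comps G (S.erase w), K1 ≠ K2 := by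
    by_contra hno
    push Not at hno
    apply hnc
    have h1 := mem_comps.1 hK1
    have h2 : K1 = S.erase w := by
      refine Finset.Subset.antisymm h1.1 ?_
      intro x hx
      obtain ⟨K, hK, hxK⟩ := ctx.F.cover (S.erase w) x hx
      rwa [hno K hK]
    rw [← h2]
    exact h1.2.1
  obtain ⟨K2, hK2, hne⟩ := hex
  have hnb2 : NBl G w K2 := by
    by_contra hb2
    exact hgoal (hCV7 hPB hEB hCV1 hCV2 hCV5 hCV6 V G m A B S ctx crit w hw K1 hK1 K2 hK2 hne hb1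
      hb2)
  obtain ⟨hKS, hKc, hKcl⟩ := mem_comps.1 hK2
  have hwK : w ∉ K2 := fun h => (Finset.mem_erase.1 (hKS h)).1 rfl
  have hall : ∀ y ∈ K2, G.Adj w y → (comps G (K2.erase y)).card = m := by
    intro y hy hwy
    have h1 := (hCV2 hPB hEB hCV1 V G m A B S ctx crit w hw K2 hK2 y hy hwy).1
    by_contra hlt
    exact hgoal (hCV8c hPB hEB hCV1 hCV2 hCV5 hCV6 hCV8a V G m A B S ctx crit w hw K1 hK1 K2 hK2
      hne hb1 hnb2 y hy hwy (by omega))
  obtain ⟨y, hy, hwy⟩ := ctx.F.nbr S w ctx.conn hw K2 hK2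
  have hcard := hall y hy hwy
  -- at most one component of `K2 - y` has no neighbour of `w`
  have hfew : ∀ Q1 ∈ comps G (K2.erase y), ∀ Q2 ∈ comps G (K2.erase y), Q1 ≠ Q2 →
      (∀ z ∈ Q1, ¬ G.Adj w z) → (∀ z ∈ Q2, ¬ G.Adj w z) → False := by
    intro Q1 hQ1 Q2 hQ2 hQ h1 h2
    exact hgoal (hCV8d1 hPB hEB hCV1 hCV2 hCV5 hCV6 hCV7 hCV8a V G m A B S ctx crit w hw K2 hK2 y
      hy hwy hcard Q1 hQ1 Q2 hQ2 hQ h1 h2)
  set C := comps G (K2.erase y) with hC
  have hbad : (C.filter (fun Q => ∀ z ∈ Q, ¬ G.Adj w z)).card ≤ 1 := by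
    rw [Finset.card_le_one]
    intro a ha b hb
    rw [Finset.mem_filter] at ha hb
    by_contra hab
    exact hfew a ha.1 b hb.1 hab ha.2 hb.2
  have hsplit := Finset.card_filter_add_card_filter_not (s := C)
    (fun Q => ∀ z ∈ Q, ¬ G.Adj w z)
  have hgood : ((C.filter (fun Q => ¬ ∀ z ∈ Q, ¬ G.Adj w z)).card) ≤ ∑ Q ∈ C, dg G Q w := by
    rw [Finset.card_filter]
    refine Finset.sum_le_sum fun Q hQ => ?_
    by_cases h : ∀ z ∈ Q, ¬ G.Adj w z
    · rw [if_neg (not_not.2 h)]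
      exact Nat.zero_le _
    · rw [if_pos h]
      push Not at h
      obtain ⟨z, hz, hwz⟩ := h
      exact one_le_dg hz hwz
  have hdgK2 : dg G K2 w = dg G (K2.erase y) w + 1 := by
    conv_lhs => rw [← Finset.insert_erase hy]
    exact dg_insert (Finset.notMem_erase y K2) hwy
  have hsd := ctx.F.sum_dg (K2.erase y) w
  rw [← hC] at hsd
  have hd2 : m ≤ dg G K2 w := by omega
  obtain ⟨y1, hy1, hwy1⟩ := ctx.F.nbr S w ctx.conn hw K1 hK1
  have hd1 := one_le_dg hy1 hwy1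
  have hdd := dg2 ctx hK1 hK2 hne
  -- no other components
  have honly : ∀ K ∈ comps G (S.erase w), K ≠ K1 → K ≠ K2 → False := by
    intro K hK hKK1 hKK2
    obtain ⟨z, hz, hwz⟩ := ctx.F.nbr S w ctx.conn hw K hK
    have hdz := one_le_dg hz hwz
    have hK2' : K2 ∈ (comps G (S.erase w)).erase K1 := Finset.mem_erase.2 ⟨hne.symm, hK2⟩
    have hK' : K ∈ (comps G (S.erase w)).erase K1 := Finset.mem_erase.2 ⟨hKK1, hK⟩
    have h1 := sum_ge2 _ (fun L => dg G L w) hK2' hK' hKK2.symm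
    have h2 := Finset.add_sum_erase (comps G (S.erase w)) (fun L => dg G L w) hK1
    have h3 := ctx.F.sum_dg (S.erase w) w
    have h4 := ctx.deg (S.erase w) w
    omega
  have hcs := card_eq ctx.F hw
  have hss := sum2 (comps G (S.erase w)) (fun L => L.card) (fun L => cc G L) B hK1 hK2 hne (by
    intro L hL h1 h2
    exact (honly L hL h1 h2).elim)
  rw [sum_cc_crit ctx.F crit hw, Nat.mul_add] at hss
  have h6 := hCV6 hCV1 hCV5 V G m A B S ctx crit w hw hnc K1 hK1 hb1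
  have h22 := (hCV2 hPB hEB hCV1 V G m A B S ctx crit w hw K2 hK2 y hy hwy).2.2
  have hc1 := hCV1 V G S ctx.F ctx.conn crit w hw K1 hK1 y1 hy1 hwy1
  by_cases hcc : 2 ≤ cc G K1
  · have h61 := h6.2 hcc
    omega
  · have hcc1 : cc G K1 = 1 := by omega
    have h61 := h6.1
    have h83 := hCV8d3 hPB hEB hCV1 V G m A B S ctx crit w hw K2 hK2 y hy hwy hall (by
      have hpos : 0 < (C.filter (fun Q => ¬ ∀ z ∈ Q, ¬ G.Adj w z)).card := by omega
      obtain ⟨Q, hQ⟩ := Finset.card_pos.1 hpos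
      rw [Finset.mem_filter] at hQ
      obtain ⟨hQC, hQ2⟩ := hQ
      push Not at hQ2
      exact ⟨Q, hQC, hQ2⟩)
    rw [hcc1] at hss h61
    omega

end R128.F4
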