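import Pool.Agent.R128.F4.Stm

namespace R128.F4
open Classical

namespace CV8a

variable {V : Type} {G : SimpleGraph V}

theorem mem_comps {S K : Finset V} : K ∈ comps G S ↔
    K ⊆ S ∧ Conn G K ∧ ∀ x ∈ K, ∀ y ∈ S, G.Adj x y → y ∈ K := by
  unfold comps
  rw [Finset.mem_filter, Finset.mem_powerset]

theorem PM_union {A B : Finset V} (hA : PM G A) (hB : PM G B) (hd : Disjoint A B) :
    PM G (A ∪ B) := by
  obtain ⟨f, hf⟩ := hA
  obtain ⟨g, hg⟩ := hB
  refine ⟨fun x => if x ∈ A then f x else g x, ?_⟩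
  intro x hx
  by_cases hxA : x ∈ A
  · obtain ⟨h1, h2, h3⟩ := hf x hxA
    simp only [if_pos hxA, if_pos h1]
    exact ⟨Finset.mem_union_left _ h1, h2, h3⟩
  · have hxB : x ∈ B := (Finset.mem_union.1 hx).resolve_left hxA
    obtain ⟨h1, h2, h3⟩ := hg x hxB
    have h4 : g x ∉ A := fun h => Finset.disjoint_left.1 hd h h1
    simp only [if_neg hxA, if_neg h4]
    exact ⟨Finset.mem_union_right _ h1, h2, h3⟩

theorem Sol_union {K L I J : Finset V} (hd : Disjoint K L) (hI : Sol G K I) (hJ : Sol G L J)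
    (hIJ : ∀ x ∈ I, ∀ y ∈ J, ¬ G.Adj x y) : Sol G (K ∪ L) (I ∪ J) := by
  obtain ⟨h1, h2, h3⟩ := hI
  obtain ⟨h4, h5, h6⟩ := hJ
  refine ⟨Finset.union_subset_union h1 h4, ?_, ?_⟩
  · intro x hx y hy hxy
    rcases Finset.mem_union.1 hx with hx | hx <;> rcases Finset.mem_union.1 hy with hy | hy
    · exact h2 x hx y hy hxy
    · exact hIJ x hx y hy hxy
    · exact hIJ y hy x hx hxy.symm
    · exact h5 x hx y hy hxy
  · have he : (K ∪ L) \ (I ∪ J) = (K \ I) ∪ (L \ J) := by
      ext x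
      simp only [Finset.mem_sdiff, Finset.mem_union, not_or]
      constructor
      · rintro ⟨h | h, h7, h8⟩
        · exact Or.inl ⟨h, h7⟩
        · exact Or.inr ⟨h, h8⟩
      · rintro (⟨h, h7⟩ | ⟨h, h8⟩)
        · exact ⟨Or.inl h, h7, fun hx => Finset.disjoint_left.1 hd h (h4 hx)⟩
        · exact ⟨Or.inr h, fun hx => Finset.disjoint_left.1 hd (h1 hx) h, h8⟩
    rw [he]
    exact PM_union h3 h6 (Finset.disjoint_of_subset_left Finset.sdiff_subset
      (Finset.disjoint_of_subset_right Finset.sdiff_subset hd))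

end CV8a

open CV8a in
theorem CV8a_proof : Stm.CV8a := by
  intro h1 V G S hF hconn hcrit w hw K hK hdg hNB
  have hK' := mem_comps.1 hK
  obtain ⟨y, hy⟩ := Finset.card_eq_one.1 hdg
  have hyK : y ∈ K ∧ G.Adj w y := by
    have : y ∈ K.filter (fun z => G.Adj w z) := by rw [hy]; exact Finset.mem_singleton_self y
    exact Finset.mem_filter.1 this
  have hyu : ∀ z ∈ K, G.Adj w z → z = y := by
    intro z hz hwz
    have : z ∈ K.filter (fun z => G.Adj w z) := Finset.mem_filter.2 ⟨hz, hwz⟩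
    rw [hy] at this
    exact Finset.mem_singleton.1 this
  have hKS : K ⊆ S := hK'.1.trans (Finset.erase_subset _ _)
  have hwK : w ∉ K := fun h => (Finset.notMem_erase w S) (hK'.1 h)
  have hcy := hcrit y (hKS hyK.1)
  have hcw := hcrit w hw
  have hc1 := h1 V G S hF hconn hcrit w hw K hK y hyK.1 hyK.2
  -- the decomposition of `S - y`
  have e1 : S.erase y = (K.erase y) ∪ (S \ K) := by
    ext z
    simp only [Finset.mem_erase, Finset.mem_union, Finset.mem_sdiff]
    constructor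
    · rintro ⟨h2, h3⟩
      by_cases hz : z ∈ K
      · exact Or.inl ⟨h2, hz⟩
      · exact Or.inr ⟨h3, hz⟩
    · rintro (⟨h2, h3⟩ | ⟨h2, h3⟩)
      · exact ⟨h2, hKS h3⟩
      · exact ⟨fun h => h3 (h ▸ hyK.1), h2⟩
  have h2 : cc G (S.erase y) = cc G (K.erase y) + cc G (S \ K) := by
    rw [e1]
    refine hF.add _ _ ?_ ?_
    · exact Finset.disjoint_of_subset_left (Finset.erase_subset _ _) Finset.disjoint_sdiff
    · intro x hx z hz hxz
      have hx' := Finset.mem_erase.1 hx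
      have hz' := Finset.mem_sdiff.1 hz
      by_cases hzw : z = w
      · rw [hzw] at hxz
        exact hx'.1 (hyu x hx'.2 hxz.symm)
      · exact hz'.2 (hK'.2.2 x hx'.2 z (Finset.mem_erase.2 ⟨hzw, hz'.1⟩) hxz)
  -- the decomposition of `S - w`
  set O : Finset V := (S.erase w) \ K with hO
  have e2 : S.erase w = K ∪ O := (Finset.union_sdiff_of_subset hK'.1).symm
  have hKO : ∀ x ∈ K, ∀ z ∈ O, ¬ G.Adj x z := by
    intro x hx z hz hxz
    have hz' := Finset.mem_sdiff.1 hz
    exact hz'.2 (hK'.2.2 x hx z hz'.1 hxz)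
  have h3 : cc G (S.erase w) = cc G K + cc G O := by
    conv_lhs => rw [e2]
    exact hF.add _ _ Finset.disjoint_sdiff hKO
  -- the optimal solution
  obtain ⟨I, hI, hIc⟩ := hF.opt (S \ K)
  have hIsub := hI.1
  have hwI : w ∈ I := by
    by_contra hwI
    obtain ⟨f, hf⟩ := hI.2.2
    have hwm : w ∈ (S \ K) \ I := by
      rw [Finset.mem_sdiff, Finset.mem_sdiff]
      exact ⟨⟨hw, hwK⟩, hwI⟩
    obtain ⟨h4, h5, h6⟩ := hf w hwm
    set y' := f w with hy'
    have hy'1 : y' ∈ S ∧ y' ∉ K ∧ y' ∉ I := by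
      rw [Finset.mem_sdiff, Finset.mem_sdiff] at h4
      exact ⟨h4.1.1, h4.1.2, h4.2⟩
    have hy'w : y' ≠ w := h5.ne'
    have hy'S : y' ∈ S.erase w := Finset.mem_erase.2 ⟨hy'w, hy'1.1⟩
    obtain ⟨K', hK'c, hy'K'⟩ := hF.cover (S.erase w) y' hy'S
    have h7 := h1 V G S hF hconn hcrit w hw K' hK'c y' hy'K' h5
    have h8 := hF.rem (S.erase w) K' y' hK'c hy'K'
    have e3 : (S.erase w).erase y' = K ∪ (O.erase y') := by
      rw [e2, Finset.erase_union_distrib, Finset.erase_eq_of_notMem hy'1.2.1]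
    have h9 : cc G ((S.erase w).erase y') = cc G K + cc G (O.erase y') := by
      rw [e3]
      refine hF.add _ _ ?_ ?_
      · exact Finset.disjoint_of_subset_right (Finset.erase_subset _ _) Finset.disjoint_sdiff
      · intro x hx z hz
        exact hKO x hx z (Finset.mem_of_mem_erase hz)
    have hIO : I ⊆ O.erase y' := by
      intro x hx
      have hx' := Finset.mem_sdiff.1 (hIsub hx)
      rw [Finset.mem_erase, hO, Finset.mem_sdiff, Finset.mem_erase]
      exact ⟨fun h => hy'1.2.2 (h ▸ hx), ⟨fun h => hwI (h ▸ hx), hx'.1⟩, hx'.2⟩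
    have hsol : Sol G (O.erase y') I := by
      refine ⟨hIO, hI.2.1, f, ?_⟩
      intro x hx
      rw [Finset.mem_sdiff, Finset.mem_erase, hO, Finset.mem_sdiff, Finset.mem_erase] at hx
      obtain ⟨⟨hx1, ⟨hx2, hx3⟩, hx4⟩, hx5⟩ := hx
      have hx6 : x ∈ (S \ K) \ I := by
        rw [Finset.mem_sdiff, Finset.mem_sdiff]
        exact ⟨⟨hx3, hx4⟩, hx5⟩
      obtain ⟨h10, h11, h12⟩ := hf x hx6
      rw [Finset.mem_sdiff, Finset.mem_sdiff] at h10
      refine ⟨?_, h11, h12⟩
      rw [Finset.mem_sdiff, Finset.mem_erase, hO, Finset.mem_sdiff, Finset.mem_erase]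
      refine ⟨⟨?_, ⟨?_, h10.1.1⟩, h10.1.2⟩, h10.2⟩
      · intro h
        apply hx2
        rw [← h12, h]
        exact h6
      · intro h
        apply hx1
        rw [← h12, h]
    have h13 := hF.le_cc _ _ hsol
    omega
  -- the contradiction
  obtain ⟨J, hJ, hJc, hJw⟩ := hNB
  have hS : K ∪ (S \ K) = S := Finset.union_sdiff_of_subset hKS
  have hsol : Sol G (K ∪ (S \ K)) (J ∪ I) := by
    refine Sol_union Finset.disjoint_sdiff hJ hI ?_
    intro x hx z hz hxz
    have hz' := Finset.mem_sdiff.1 (hIsub hz)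
    by_cases hzw : z = w
    · rw [hzw] at hxz
      exact hJw x hx hxz.symm
    · exact hz'.2 (hK'.2.2 x (hJ.1 hx) z (Finset.mem_erase.2 ⟨hzw, hz'.1⟩) hxz)
  rw [hS] at hsol
  have h14 := hF.le_cc _ _ hsol
  have h15 : (J ∪ I).card = J.card + I.card := by
    refine Finset.card_union_of_disjoint ?_
    exact Finset.disjoint_of_subset_left hJ.1 (Finset.disjoint_of_subset_right hIsub
      Finset.disjoint_sdiff)
  omega

end R128.F4
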