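import Pool.Agent.R128.F4.CVAux

/-! Piece CV8c. -/

namespace R128.F4
open Classical CVx

theorem CV8c_proof : Stm.CV8c := by
  intro hPB hEB hCV1 hCV2 hCV5 hCV6 hCV8a V G m A B S ctx crit w hw K1 hK1 K2 hK2 hne hb hnb y hy
    hwy hq
  have hnc : ¬ Conn G (S.erase w) := not_conn ctx.F hK1 hK2 hne
  have h6 := (hCV6 hCV1 hCV5 V G m A B S ctx crit w hw hnc K1 hK1 hb).1
  have hd := dg2 ctx hK1 hK2 hne
  have h2 := (hCV2 hPB hEB hCV1 V G m A B S ctx crit w hw K2 hK2 y hy hwy).2.1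
  have hs := sum2 (comps G (S.erase w)) (fun L => L.card) (fun L => cc G L) B hK1 hK2 hne (by
    intro L hL _ _
    obtain ⟨y, hy, hwy⟩ := ctx.F.nbr S w ctx.conn hw L hL
    exact (hCV2 hPB hEB hCV1 V G m A B S ctx crit w hw L hL y hy hwy).2.2)
  rw [sum_cc_crit ctx.F crit hw, Nat.mul_add] at hs
  have hc := card_eq ctx.F hw
  have hm := ctx.par.hm
  have hA := ctx.par.hA
  have hB := ctx.par.hB
  have hd2 : 2 ≤ dg G K2 w := by
    have h1 := one_le_dg hy hwy
    by_contra hlt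
    exact hCV8a hCV1 V G S ctx.F ctx.conn crit w hw K2 hK2 (by omega) hnb
  have hq2 : (comps G (K2.erase y)).card * A + A ≤ m * A := by
    calc (comps G (K2.erase y)).card * A + A = ((comps G (K2.erase y)).card + 1) * A := by ring
      _ ≤ m * A := Nat.mul_le_mul_right A hq
  omega

end R128.F4
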