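import Pool.Agent.R128.F4.CVAux

/-! Piece CV8d1. -/

namespace R128.F4
open Classical CVx

theorem CV8d1_proof : Stm.CV8d1 := by
  intro hPB hEB hCV1 hCV2 hCV5 hCV6 hCV7 hCV8a V G m A B S ctx crit w hw K hK y hy hwy hcard
    Q1 hQ1 Q2 hQ2 hne h1 h2
  obtain ⟨hKS, hKc, hKcl⟩ := mem_comps.1 hK
  have hyS : y ∈ S := Finset.mem_of_mem_erase (hKS hy)
  have hwK : w ∉ K := fun h => (Finset.mem_erase.1 (hKS h)).1 rfl
  -- the components without neighbours of `w` are components of `S - y`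
  have hcomp : ∀ Q ∈ comps G (K.erase y), (∀ z ∈ Q, ¬ G.Adj w z) → Q ∈ comps G (S.erase y) := by
    intro Q hQ hz
    obtain ⟨hQK, hQc, hQcl⟩ := mem_comps.1 hQ
    refine mem_comps.2 ⟨?_, hQc, ?_⟩
    · intro x hx
      have hx2 := Finset.mem_erase.1 (hQK hx)
      exact Finset.mem_erase.2 ⟨hx2.1, Finset.mem_of_mem_erase (hKS hx2.2)⟩
    · intro x hx z hzS hxz
      have hx2 := Finset.mem_erase.1 (hQK hx)
      have hzS2 := Finset.mem_erase.1 hzS
      have hzw : z ≠ w := by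
        rintro rfl
        exact hz x hx hxz.symm
      have hzK : z ∈ K := hKcl x hx2.2 z (Finset.mem_erase.2 ⟨hzw, hzS2.2⟩) hxz
      exact hQcl x hx z (Finset.mem_erase.2 ⟨hzS2.1, hzK⟩) hxz
  -- every component has exactly one neighbour of `y`
  have hsum : ∑ Q ∈ comps G (K.erase y), dg G Q y ≤ m := by
    rw [ctx.F.sum_dg]
    have h3 := ctx.deg (insert w (K.erase y)) y
    rw [dg_insert (by simp [hwK]) hwy.symm] at h3
    omega
  have hge : ∀ Q ∈ comps G (K.erase y), 1 ≤ dg G Q y := by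
    intro Q hQ
    obtain ⟨z, hz, hyz⟩ := ctx.F.nbr K y hKc hy Q hQ
    exact one_le_dg hz hyz
  have hone : ∀ Q ∈ comps G (K.erase y), dg G Q y = 1 := by
    intro Q hQ
    have h4 : ∑ Q' ∈ (comps G (K.erase y)).erase Q, 1
        ≤ ∑ Q' ∈ (comps G (K.erase y)).erase Q, dg G Q' y :=
      Finset.sum_le_sum fun Q' hQ' => hge Q' (Finset.mem_of_mem_erase hQ')
    rw [Finset.sum_const, smul_eq_mul, mul_one, Finset.card_erase_of_mem hQ, hcard] at h4
    have h5 := Finset.add_sum_erase (comps G (K.erase y)) (fun Q' => dg G Q' y) hQ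
    have h6 := hge Q hQ
    have hm := ctx.par.hm
    omega
  have hb : ∀ Q ∈ comps G (K.erase y), (∀ z ∈ Q, ¬ G.Adj w z) → ¬ NBl G y Q := by
    intro Q hQ hz
    exact hCV8a hCV1 V G S ctx.F ctx.conn crit y hyS Q (hcomp Q hQ hz) (hone Q hQ)
  exact hCV7 hPB hEB hCV1 hCV2 hCV5 hCV6 V G m A B S ctx crit y hyS Q1 (hcomp Q1 hQ1 h1) Q2
    (hcomp Q2 hQ2 h2) hne (hb Q1 hQ1 h1) (hb Q2 hQ2 h2)

end R128.F4
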