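import Pool.Agent.R128.F4.CVAux

/-! Piece CV8d3. -/

namespace R128.F4
open Classical CVx

theorem CV8d3_proof : Stm.CV8d3 := by
  intro hPB hEB hCV1 V G m A B S ctx crit w hw K hK y hy hwy hall hQex
  obtain ⟨hKS, hKc, hKcl⟩ := mem_comps.1 hK
  have hwK : w ∉ K := fun h => (Finset.mem_erase.1 (hKS h)).1 rfl
  have ctxK : Ctx G m A B K := ctx_of ctx hw hK
  have hm := ctx.par.hm
  have hA := ctx.par.hA
  have hB := ctx.par.hB
  have hccK := hCV1 V G S ctx.F ctx.conn crit w hw K hK y hy hwy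
  have hEBK : ∀ Q ∈ comps G (K.erase y), Q.card ≤ A + B * cc G Q :=
    hEB V G m A B K ctxK y hy
  have hcardK := card_eq ctx.F hy
  have hsumcc := ctx.F.sum_cc (K.erase y)
  by_cases htight : ∀ Q ∈ comps G (K.erase y), Q.card = A + B * cc G Q
  · -- all components tight: contradiction
    exfalso
    obtain ⟨Q, hQ, z, hz, hwz⟩ := hQex
    obtain ⟨hQK, hQc, hQcl⟩ := mem_comps.1 hQ
    have hzK := Finset.mem_erase.1 (hQK hz)
    have hyQ : y ∉ Q := fun h => (Finset.mem_erase.1 (hQK h)).1 rfl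
    have hwQ : w ∉ Q := fun h => hwK (Finset.mem_erase.1 (hQK h)).2
    have hQlt : Q.card < S.card := (card_lt hy hQ).trans (card_lt hw hK)
    have good := ctx.ih Q hQlt hQc
    have hwy' : w ∉ insert y Q := by
      rw [Finset.mem_insert, not_or]
      exact ⟨hwy.ne, hwQ⟩
    have hdeg := ctx.deg (insert w (insert y Q)) z
    rw [dg_insert hwy' hwz.symm] at hdeg
    by_cases hyz : G.Adj y z
    · rw [dg_insert hyQ hyz.symm] at hdeg
      have := good.d1 (htight Q hQ) z hz
      omega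
    · rw [dg_insert' (fun h => hyz h.symm)] at hdeg
      have hQz : Conn G (Q.erase z) := good.d2 (htight Q hQ) z hz (by omega)
      obtain ⟨y2, hy2, hyy2⟩ := ctx.F.nbr K y hKc hy Q hQ
      have hy2z : y2 ≠ z := by
        rintro rfl
        exact hyz hyy2
      have hy2Q : y2 ∈ Q.erase z := Finset.mem_erase.2 ⟨hy2z, hy2⟩
      have hyKz : y ∈ K.erase z := Finset.mem_erase.2 ⟨hzK.1.symm, hy⟩
      have hQKz : Q.erase z ⊆ K.erase z := by
        intro x hx
        have hx2 := Finset.mem_erase.1 hx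
        exact Finset.mem_erase.2 ⟨hx2.1, (Finset.mem_erase.1 (hQK hx2.2)).2⟩
      -- `K - z` is connected
      have hconn : Conn G (K.erase z) := by
        refine ⟨⟨y, hyKz⟩, ?_⟩
        intro T hTK hTne hTcl
        -- absorb components
        have habsQ : (T ∩ Q.erase z).Nonempty → Q.erase z ⊆ T := fun hne =>
          sub_of_closed hQz hne (fun x hx _ u hu hxu => hTcl x hx u (hQKz hu) hxu)
        have hsub' : ∀ Q' ∈ comps G (K.erase y), Q' ≠ Q → Q' ⊆ K.erase z := by
          intro Q' hQ' hne x hx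
          refine Finset.mem_erase.2 ⟨?_, (Finset.mem_erase.1 ((mem_comps.1 hQ').1 hx)).2⟩
          rintro rfl
          exact Finset.disjoint_left.1 (ctx.F.disj _ Q' Q hQ' hQ hne) hx hz
        have habs : ∀ Q' ∈ comps G (K.erase y), Q' ≠ Q → (T ∩ Q').Nonempty → Q' ⊆ T :=
          fun Q' hQ' hne hn =>
            sub_of_closed (mem_comps.1 hQ').2.1 hn
              (fun x hx _ u hu hxu => hTcl x hx u (hsub' Q' hQ' hne hu) hxu)
        have hyT : y ∈ T := by
          obtain ⟨x, hx⟩ := hTne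
          have hxK := Finset.mem_erase.1 (hTK hx)
          by_cases hxy : x = y
          · rwa [← hxy]
          · obtain ⟨Q', hQ', hxQ'⟩ := ctx.F.cover (K.erase y) x (Finset.mem_erase.2 ⟨hxy, hxK.2⟩)
            by_cases hQQ : Q' = Q
            · subst hQQ
              have hsub := habsQ ⟨x, Finset.mem_inter.2 ⟨hx, Finset.mem_erase.2 ⟨hxK.1, hxQ'⟩⟩⟩
              exact hTcl y2 (hsub hy2Q) y hyKz hyy2.symm
            · have hsub := habs Q' hQ' hQQ ⟨x, Finset.mem_inter.2 ⟨hx, hxQ'⟩⟩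
              obtain ⟨y3, hy3, hyy3⟩ := ctx.F.nbr K y hKc hy Q' hQ'
              exact hTcl y3 (hsub hy3) y hyKz hyy3.symm
        refine Finset.Subset.antisymm hTK ?_
        intro x hx
        have hxK := Finset.mem_erase.1 hx
        by_cases hxy : x = y
        · rwa [hxy]
        · obtain ⟨Q', hQ', hxQ'⟩ := ctx.F.cover (K.erase y) x (Finset.mem_erase.2 ⟨hxy, hxK.2⟩)
          by_cases hQQ : Q' = Q
          · subst hQQ
            have hy2T : y2 ∈ T := hTcl y hyT y2 (hQKz hy2Q) hyy2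
            exact habsQ ⟨y2, Finset.mem_inter.2 ⟨hy2T, hy2Q⟩⟩
              (Finset.mem_erase.2 ⟨hxK.1, hxQ'⟩)
          · obtain ⟨y3, hy3, hyy3⟩ := ctx.F.nbr K y hKc hy Q' hQ'
            have hy3T : y3 ∈ T := hTcl y hyT y3 (hsub' Q' hQ' hQQ hy3) hyy3
            exact habs Q' hQ' hQQ ⟨y3, Finset.mem_inter.2 ⟨hy3T, hy3⟩⟩ hxQ'
      have h1 := hall z hzK.2 hwz
      rw [ctx.F.one _ hconn, Finset.card_singleton] at h1
      omega
  · push Not at htight
    obtain ⟨Q0, hQ0, hQ0ne⟩ := htight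
    have hpar := ctx.F.parity Q0
    have hlt : Q0.card + 2 ≤ A + B * cc G Q0 := by
      have h1 := hEBK Q0 hQ0
      have h2 : (A + B * cc G Q0) % 2 = cc G Q0 % 2 := by
        rw [hB, hA]
        have : 2 * m + (m * (2 * m) + 1) * cc G Q0 = 2 * (m + m * m * cc G Q0) + cc G Q0 := by ring
        rw [this, Nat.mul_add_mod]
      omega
    have h3 := Finset.add_sum_erase (comps G (K.erase y)) (fun Q' => Q'.card) hQ0
    have h4 := Finset.add_sum_erase (comps G (K.erase y)) (fun Q' => A + B * cc G Q') hQ0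
    have h5 : ∑ Q' ∈ (comps G (K.erase y)).erase Q0, Q'.card
        ≤ ∑ Q' ∈ (comps G (K.erase y)).erase Q0, (A + B * cc G Q') :=
      Finset.sum_le_sum fun Q' hQ' => hEBK Q' (Finset.mem_of_mem_erase hQ')
    have h6 : ∑ Q' ∈ comps G (K.erase y), (A + B * cc G Q')
        = m * A + B * cc G (K.erase y) := by
      rw [Finset.sum_add_distrib, Finset.sum_const, smul_eq_mul, hall y hy hwy, ← Finset.mul_sum,
        hsumcc]
    have h7 : B * cc G K = B * cc G (K.erase y) + B := by
      rw [← hccK]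
      ring
    omega

end R128.F4
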