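import Pool.Agent.R128.F4.Stm

/-!
Auxiliary lemmas for the pieces CV7, CV8c, CV8d1, CV8d3, CV8.
-/

namespace R128.F4.CVx

noncomputable section
open Classical

variable {V : Type} {G : SimpleGraph V} {m A B : ℕ} {S K : Finset V} {w : V}

lemma mem_comps {S K : Finset V} : K ∈ comps G S ↔
    K ⊆ S ∧ Conn G K ∧ ∀ x ∈ K, ∀ y ∈ S, G.Adj x y → y ∈ K := by
  simp [comps]

lemma card_eq (F : Facts G) (hw : w ∈ S) :
    S.card = 1 + ∑ K ∈ comps G (S.erase w), K.card := by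
  rw [F.sum_card, Finset.card_erase_of_mem hw]
  have := Finset.card_pos.2 ⟨w, hw⟩
  omega

lemma card_lt (hw : w ∈ S) (hK : K ∈ comps G (S.erase w)) : K.card < S.card :=
  lt_of_le_of_lt (Finset.card_le_card (mem_comps.1 hK).1) (Finset.card_erase_lt_of_mem hw)

lemma ctx_of (h : Ctx G m A B S) (hw : w ∈ S) (hK : K ∈ comps G (S.erase w)) :
    Ctx G m A B K :=
  ⟨h.par, h.F, h.deg, (mem_comps.1 hK).2.1, fun T hT hc => h.ih T (hT.trans (card_lt hw hK)) hc⟩

lemma not_conn (F : Facts G) {R K K' : Finset V} (hK : K ∈ comps G R) (hK' : K' ∈ comps G R)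
    (hne : K ≠ K') : ¬ Conn G R := by
  intro hc
  rw [F.one R hc, Finset.mem_singleton] at hK hK'
  exact hne (hK.trans hK'.symm)

lemma one_le_dg {y : V} (hy : y ∈ K) (h : G.Adj w y) : 1 ≤ dg G K w :=
  Finset.card_pos.2 ⟨y, Finset.mem_filter.2 ⟨hy, h⟩⟩

lemma dg_insert {a x : V} {T : Finset V} (ha : a ∉ T) (h : G.Adj x a) :
    dg G (insert a T) x = dg G T x + 1 := by
  unfold dg
  rw [Finset.filter_insert, if_pos h, Finset.card_insert_of_notMem]
  simp [ha]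

lemma dg_insert' {a x : V} {T : Finset V} (h : ¬ G.Adj x a) :
    dg G (insert a T) x = dg G T x := by
  unfold dg
  rw [Finset.filter_insert, if_neg h]

lemma sum2 {α : Type*} (C : Finset α) (f g : α → ℕ) (B : ℕ) {K K' : α} (hK : K ∈ C) (hK' : K' ∈ C)
    (hne : K ≠ K') (h : ∀ L ∈ C, L ≠ K → L ≠ K' → f L ≤ B * g L) :
    ∑ L ∈ C, f L + B * g K + B * g K' ≤ f K + f K' + B * ∑ L ∈ C, g L := by
  have hK'2 : K' ∈ C.erase K := Finset.mem_erase.2 ⟨hne.symm, hK'⟩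
  rw [← Finset.add_sum_erase C f hK, ← Finset.add_sum_erase _ f hK'2,
    ← Finset.add_sum_erase C g hK, ← Finset.add_sum_erase _ g hK'2]
  have h2 : ∑ L ∈ (C.erase K).erase K', f L ≤ B * ∑ L ∈ (C.erase K).erase K', g L := by
    rw [Finset.mul_sum]
    refine Finset.sum_le_sum fun L hL => ?_
    rw [Finset.mem_erase, Finset.mem_erase] at hL
    exact h L hL.2.2 hL.2.1 hL.1
  rw [mul_add, mul_add]
  omega

lemma sum_ge2 {α : Type*} (C : Finset α) (f : α → ℕ) {K K' : α} (hK : K ∈ C) (hK' : K' ∈ C)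
    (hne : K ≠ K') : f K + f K' ≤ ∑ L ∈ C, f L := by
  have hK'2 : K' ∈ C.erase K := Finset.mem_erase.2 ⟨hne.symm, hK'⟩
  rw [← Finset.add_sum_erase C f hK, ← Finset.add_sum_erase _ f hK'2]
  omega

lemma dg2 (h : Ctx G m A B S) {K K' : Finset V} (hK : K ∈ comps G (S.erase w))
    (hK' : K' ∈ comps G (S.erase w)) (hne : K ≠ K') : dg G K w + dg G K' w ≤ m + 1 := by
  have h1 := sum_ge2 (comps G (S.erase w)) (fun L => dg G L w) hK hK' hne
  rw [h.F.sum_dg] at h1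
  exact h1.trans (h.deg _ _)

lemma sum_cc_crit (F : Facts G) (hc : Crit G S) (hw : w ∈ S) :
    ∑ K ∈ comps G (S.erase w), cc G K = cc G S + 1 := by
  rw [F.sum_cc]
  exact hc w hw

/-- a connected set meeting a closed set is contained in it -/
lemma sub_of_closed {Q T : Finset V} (hQ : Conn G Q) (hne : (T ∩ Q).Nonempty)
    (h : ∀ x ∈ T, x ∈ Q → ∀ u ∈ Q, G.Adj x u → u ∈ T) : Q ⊆ T := by
  have := hQ.2 (T ∩ Q) Finset.inter_subset_right hne (by
    intro x hx u hu hxu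
    rw [Finset.mem_inter] at hx
    exact Finset.mem_inter.2 ⟨h x hx.1 hx.2 u hu hxu, hu⟩)
  intro u hu
  rw [← this] at hu
  exact (Finset.mem_inter.1 hu).1

end

end R128.F4.CVx
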