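import Mathlib

/-!
Definitions for the determination of the vertex-edge Ramsey number `f_4(r,s)`.
Everything is relative to a simple graph `G` on a type `V` and finsets of vertices.
-/

namespace R128.F4

noncomputable section
open Classical

variable {V : Type}

/-- number of neighbours of `x` inside `S` -/
def dg (G : SimpleGraph V) (S : Finset V) (x : V) : ℕ :=
  (S.filter (fun y => G.Adj x y)).card

/-- independent set -/
def Indep (G : SimpleGraph V) (I : Finset V) : Prop := ∀ x ∈ I, ∀ y ∈ I, ¬ G.Adj x y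

/-- `T` has a perfect matching -/
def PM (G : SimpleGraph V) (T : Finset V) : Prop :=
  ∃ f : V → V, ∀ x ∈ T, f x ∈ T ∧ G.Adj x (f x) ∧ f (f x) = x

/-- `I` is the set of tokens of a solution on `S` : `I` is independent and the rest of `S` has a
perfect matching -/
def Sol (G : SimpleGraph V) (S I : Finset V) : Prop := I ⊆ S ∧ Indep G I ∧ PM G (S \ I)

/-- largest number of tokens -/
def cc (G : SimpleGraph V) (S : Finset V) : ℕ :=
  (S.powerset.filter (fun I => Sol G S I)).sup Finset.card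

/-- connected (nonempty) vertex sets -/
def Conn (G : SimpleGraph V) (S : Finset V) : Prop :=
  S.Nonempty ∧ ∀ T ⊆ S, T.Nonempty → (∀ x ∈ T, ∀ y ∈ S, G.Adj x y → y ∈ T) → T = S

/-- connected components of `S` -/
def comps (G : SimpleGraph V) (S : Finset V) : Finset (Finset V) :=
  S.powerset.filter (fun K => Conn G K ∧ ∀ x ∈ K, ∀ y ∈ S, G.Adj x y → y ∈ K)

/-- critical sets -/
def Crit (G : SimpleGraph V) (S : Finset V) : Prop := ∀ v ∈ S, cc G (S.erase v) = cc G S + 1

/-- `K` is nonblocking for `w` -/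
def NBl (G : SimpleGraph V) (w : V) (K : Finset V) : Prop :=
  ∃ I, Sol G K I ∧ I.card = cc G K ∧ ∀ x ∈ I, ¬ G.Adj w x

structure Par (m A B : ℕ) : Prop where
  hm : 2 ≤ m
  hA : A = 2 * m
  hB : B = m * A + 1

/-- basic facts, all proved in the pieces A1-A6 -/
structure Facts (G : SimpleGraph V) : Prop where
  le_cc : ∀ (S I : Finset V), Sol G S I → I.card ≤ cc G S
  opt : ∀ (S : Finset V), ∃ I, Sol G S I ∧ I.card = cc G S
  parity : ∀ (S : Finset V), cc G S % 2 = S.card % 2
  edge : ∀ (S : Finset V) (x y : V), x ∈ S → y ∈ S → G.Adj x y →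
    cc G ((S.erase x).erase y) ≤ cc G S
  pm : ∀ (S : Finset V) (v : V), v ∈ S →
    cc G (S.erase v) = cc G S + 1 ∨ cc G (S.erase v) + 1 = cc G S
  add : ∀ (K L : Finset V), Disjoint K L → (∀ x ∈ K, ∀ y ∈ L, ¬ G.Adj x y) →
    cc G (K ∪ L) = cc G K + cc G L
  cover : ∀ (S : Finset V) (x : V), x ∈ S → ∃ K ∈ comps G S, x ∈ K
  disj : ∀ (S K L : Finset V), K ∈ comps G S → L ∈ comps G S → K ≠ L → Disjoint K L
  one : ∀ (S : Finset V), Conn G S → comps G S = {S}
  nbr : ∀ (S : Finset V) (v : V), Conn G S → v ∈ S →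
    ∀ K ∈ comps G (S.erase v), ∃ y ∈ K, G.Adj v y
  sum_card : ∀ (S : Finset V), ∑ K ∈ comps G S, K.card = S.card
  sum_dg : ∀ (S : Finset V) (v : V), ∑ K ∈ comps G S, dg G K v = dg G S v
  card_le : ∀ (S : Finset V) (v : V), Conn G S → v ∈ S →
    (comps G (S.erase v)).card ≤ dg G S v
  sum_cc : ∀ (S : Finset V), ∑ K ∈ comps G S, cc G K = cc G S
  /-- removing a vertex `y` of a component `K` of `R` -/
  rem : ∀ (R K : Finset V) (y : V), K ∈ comps G R → y ∈ K →
    cc G (R.erase y) + cc G K = cc G R + cc G (K.erase y)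
  zero : ∀ (Q : Finset V), Conn G Q → cc G Q = 0 → ∀ x ∈ Q, Q.card ≤ 2 * dg G Q x

/-- the statement proved by strong induction on `S.card` -/
structure Good (G : SimpleGraph V) (m A B : ℕ) (S : Finset V) : Prop where
  a : 1 ≤ cc G S → S.card ≤ A + B * cc G S
  b : 1 ≤ cc G S → Crit G S → ∀ x ∈ S, S.card + 2 ≤ 2 * dg G S x + B * cc G S
  d1 : S.card = A + B * cc G S → ∀ x ∈ S, m ≤ dg G S x
  d2 : S.card = A + B * cc G S → ∀ y ∈ S, dg G S y ≤ m → Conn G (S.erase y)

/-- induction context at `S` -/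
structure Ctx (G : SimpleGraph V) (m A B : ℕ) (S : Finset V) : Prop where
  par : Par m A B
  F : Facts G
  deg : ∀ (T : Finset V) (x : V), dg G T x ≤ m + 1
  conn : Conn G S
  ih : ∀ T : Finset V, T.card < S.card → Conn G T → Good G m A B T

/-- context of the last case (no cut vertex, `H = S - u - v` not critical) -/
structure BCtx (G : SimpleGraph V) (m A B : ℕ) (S : Finset V) (u v w : V) (K1 : Finset V) :
    Prop where
  ctx : Ctx G m A B S
  crit : Crit G S
  nocut : ∀ z ∈ S, Conn G (S.erase z)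
  hu : u ∈ S
  hv : v ∈ S
  huv : G.Adj u v
  hH : Conn G ((S.erase u).erase v)
  hcH : cc G ((S.erase u).erase v) = cc G S
  hw : w ∈ (S.erase u).erase v
  hwn : cc G (((S.erase u).erase v).erase w) + 1 = cc G ((S.erase u).erase v)
  hall : ∀ z ∈ (S.erase u).erase v,
    cc G (((S.erase u).erase v).erase z) + 1 = cc G ((S.erase u).erase v) →
    (comps G (((S.erase u).erase v).erase z)).card = m + 1
  hK1 : K1 ∈ comps G (((S.erase u).erase v).erase w)
  hmax : ∀ K ∈ comps G (((S.erase u).erase v).erase w), K ≠ K1 → ∀ z ∈ K,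
    cc G (((S.erase u).erase v).erase z) = cc G ((S.erase u).erase v) + 1

/-! ### the final statement -/

/-- two distinct elements (vertices or edges) of a graph are joint -/
def Joint (G : SimpleGraph V) : V ⊕ G.edgeSet → V ⊕ G.edgeSet → Prop
  | .inl a, .inl b => G.Adj a b
  | .inl a, .inr e => a ∈ (e : Sym2 V)
  | .inr e, .inl a => a ∈ (e : Sym2 V)
  | .inr e, .inr f => ∃ a, a ∈ (e : Sym2 V) ∧ a ∈ (f : Sym2 V)

/-- `r` mutually joint elements -/
def HasJoint (G : SimpleGraph V) (r : ℕ) : Prop :=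
  ∃ X : Finset (V ⊕ G.edgeSet), X.card = r ∧ ∀ x ∈ X, ∀ y ∈ X, x ≠ y → Joint G x y

/-- `s` mutually disjoint elements -/
def HasDisj (G : SimpleGraph V) (s : ℕ) : Prop :=
  ∃ X : Finset (V ⊕ G.edgeSet), X.card = s ∧ ∀ x ∈ X, ∀ y ∈ X, x ≠ y → ¬ Joint G x y

/-- the set of orders `p` for which every connected graph has `r` mutually joint or `s` mutually
disjoint elements; `f_4(r,s)` is its least element -/
def F4Set (r s : ℕ) : Set ℕ :=
  {p | 0 < p ∧ ∀ G : SimpleGraph (Fin p), G.Connected → HasJoint G r ∨ HasDisj G s}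

/-- vertex cover certificate: every independent `I ⊆ S` lies in a vertex cover of `G[S]` with at
most `k` vertices -/
def VC (G : SimpleGraph V) (S : Finset V) (k : ℕ) : Prop :=
  ∀ I ⊆ S, Indep G I → ∃ Z ⊆ S, I ⊆ Z ∧ Z.card ≤ k ∧
    ∀ x ∈ S, ∀ y ∈ S, G.Adj x y → x ∈ Z ∨ y ∈ Z

end

end R128.F4
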