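import Pool.Agent.R128.F4.Stm

namespace R128.F4
open Classical

/-- edges through a vertex give neighbours -/
theorem L1.star {V : Type} (G : SimpleGraph V) (F : Finset G.edgeSet) (v : V)
    (h : ∀ e ∈ F, v ∈ (e : Sym2 V)) : ∃ T : Finset V, dg G T v = F.card := by
  have hex : ∀ e : G.edgeSet, ∃ w : V, e ∈ F → (e : Sym2 V) = s(v, w) := by
    intro e
    by_cases he : e ∈ F
    · obtain ⟨w, hw⟩ := (Sym2.mem_iff_exists.mp (h e he))
      exact ⟨w, fun _ => hw⟩
    · exact ⟨v, fun h' => absurd h' he⟩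
  choose φ hφ using hex
  refine ⟨F.image φ, ?_⟩
  have h1 : (F.image φ).card = F.card := by
    apply Finset.card_image_of_injOn
    intro e he f hf hef
    apply Subtype.ext
    rw [hφ e he, hφ f hf, hef]
  rw [← h1]
  unfold dg
  congr 1
  apply Finset.filter_true_of_mem
  intro y hy
  obtain ⟨e, he, rfl⟩ := Finset.mem_image.mp hy
  have h2 := e.2
  rw [hφ e he] at h2
  exact h2

theorem L1.common {V : Type} (F : Finset (Sym2 V)) (hl : ∀ e ∈ F, ¬ e.IsDiag)
    (hint : ∀ e ∈ F, ∀ f ∈ F, e ≠ f → ∃ a, a ∈ e ∧ a ∈ f) (hc : 4 ≤ F.card) :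
    ∃ v, ∀ e ∈ F, v ∈ e := by
  by_contra hcon
  push Not at hcon
  obtain ⟨e1, he1⟩ : F.Nonempty := Finset.card_pos.mp (by omega)
  induction e1 using Sym2.ind with
  | _ a b =>
    have hab : a ≠ b := fun h => hl _ he1 (by rw [h]; exact Sym2.mk_isDiag_iff.mpr rfl)
    obtain ⟨e2, he2, ha2⟩ := hcon a
    obtain ⟨e3, he3, hb3⟩ := hcon b
    have hne2 : e2 ≠ s(a, b) := fun h => ha2 (by rw [h]; exact Sym2.mem_mk_left a b)
    have hne3 : e3 ≠ s(a, b) := fun h => hb3 (by rw [h]; exact Sym2.mem_mk_right a b)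
    have hb2 : b ∈ e2 := by
      obtain ⟨x, hx, hx'⟩ := hint _ he2 _ he1 hne2
      rcases Sym2.mem_iff.mp hx' with h | h
      · rw [h] at hx; exact absurd hx ha2
      · rw [h] at hx; exact hx
    have ha3 : a ∈ e3 := by
      obtain ⟨x, hx, hx'⟩ := hint _ he3 _ he1 hne3
      rcases Sym2.mem_iff.mp hx' with h | h
      · rw [h] at hx; exact hx
      · rw [h] at hx; exact absurd hx hb3
    obtain ⟨c, rfl⟩ := Sym2.mem_iff_exists.mp hb2
    obtain ⟨d, rfl⟩ := Sym2.mem_iff_exists.mp ha3
    have hac : a ≠ c := fun h => ha2 (by rw [h]; exact Sym2.mem_mk_right b c)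
    have hbd : b ≠ d := fun h => hb3 (by rw [h]; exact Sym2.mem_mk_right a d)
    have hbc : b ≠ c := fun h => hl _ he2 (by rw [h]; exact Sym2.mk_isDiag_iff.mpr rfl)
    have hne23 : s(b, c) ≠ s(a, d) := fun h => ha2 (by rw [h]; exact Sym2.mem_mk_left a d)
    have hcd : c = d := by
      obtain ⟨x, hx, hx'⟩ := hint _ he2 _ he3 hne23
      rcases Sym2.mem_iff.mp hx with h | h <;> rcases Sym2.mem_iff.mp hx' with h' | h'
      · exact absurd (h'.symm.trans h) hab
      · exact absurd (h.symm.trans h') hbd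
      · exact absurd (h'.symm.trans h) hac
      · exact h.symm.trans h'
    subst hcd
    have hsub : F ⊆ {s(a, b), s(b, c), s(a, c)} := by
      intro e he
      by_contra hnot
      simp only [Finset.mem_insert, Finset.mem_singleton, not_or] at hnot
      obtain ⟨n1, n2, n3⟩ := hnot
      obtain ⟨x, hx, hx'⟩ := hint _ he _ he1 n1
      obtain ⟨y, hy, hy'⟩ := hint _ he _ he2 n2
      obtain ⟨z, hz, hz'⟩ := hint _ he _ he3 n3
      rw [Sym2.mem_iff] at hx' hy' hz'
      induction e using Sym2.ind with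
      | _ p q =>
        rw [Sym2.mem_iff] at hx hy hz
        rw [Sym2.eq_iff] at n1 n2 n3
        grind
    have h4 := Finset.card_le_card hsub
    have h5 := Finset.card_le_three (a := s(a, b)) (b := s(b, c)) (c := s(a, c))
    omega

theorem L1_proof : Stm.L1 := by
  intro V G m hm hdeg hD
  obtain ⟨X, hXc, hX⟩ := hD
  have hcard := Finset.card_toLeft_add_card_toRight (u := X)
  have hnostar : ∀ v : V, (∀ e ∈ X.toRight, v ∈ (e : Sym2 V)) → X.toRight.card ≤ m + 1 := by
    intro v hv
    obtain ⟨T, hT⟩ := L1.star G X.toRight v hv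
    rw [← hT]
    exact hdeg T v
  by_cases hE : X.toRight = ∅
  · rw [hE, Finset.card_empty] at hcard
    obtain ⟨v, hv⟩ : X.toLeft.Nonempty := Finset.card_pos.mp (by omega)
    have h1 := hdeg (X.toLeft.erase v) v
    have h2 : dg G (X.toLeft.erase v) v = (X.toLeft.erase v).card := by
      unfold dg
      congr 1
      apply Finset.filter_true_of_mem
      intro y hy
      rw [Finset.mem_erase, Finset.mem_toLeft] at hy
      rw [Finset.mem_toLeft] at hv
      exact hX _ hv _ hy.2 (fun h => hy.1 (Sum.inl_injective h).symm)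
    rw [h2, Finset.card_erase_of_mem hv] at h1
    omega
  · obtain ⟨e, he⟩ := Finset.nonempty_iff_ne_empty.mpr hE
    have hVE : ∀ v ∈ X.toLeft, ∀ f ∈ X.toRight, v ∈ (f : Sym2 V) := by
      intro v hv f hf
      rw [Finset.mem_toLeft] at hv
      rw [Finset.mem_toRight] at hf
      exact hX _ hv _ hf (by simp)
    rcases Nat.lt_or_ge 1 X.toLeft.card with h2 | h1
    · obtain ⟨v, hv, w, hw, hvw⟩ := Finset.one_lt_card.mp h2
      have key : ∀ f ∈ X.toRight, (f : Sym2 V) = s(v, w) := by
        intro f hf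
        exact (Sym2.mem_and_mem_iff hvw).mp ⟨hVE v hv f hf, hVE w hw f hf⟩
      have hR : X.toRight.card ≤ 1 := by
        rw [Finset.card_le_one]
        intro f hf f' hf'
        apply Subtype.ext
        rw [key f hf, key f' hf']
      have hL : X.toLeft ⊆ {v, w} := by
        intro u hu
        have h3 := hVE u hu e he
        rw [key e he, Sym2.mem_iff] at h3
        simpa using h3
      have hL2 := (Finset.card_le_card hL).trans Finset.card_le_two
      omega
    · by_cases hL : X.toLeft = ∅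
      · rw [hL, Finset.card_empty] at hcard
        let ι : G.edgeSet ↪ Sym2 V := ⟨fun e => e, Subtype.val_injective⟩
        obtain ⟨v, hv⟩ := L1.common (X.toRight.map ι) (by
          intro f hf
          obtain ⟨g, hg, rfl⟩ := Finset.mem_map.mp hf
          exact G.not_isDiag_of_mem_edgeSet g.2) (by
          intro f hf f' hf' hne
          obtain ⟨g, hg, rfl⟩ := Finset.mem_map.mp hf
          obtain ⟨g', hg', rfl⟩ := Finset.mem_map.mp hf'
          rw [Finset.mem_toRight] at hg hg'
          have hgg : g ≠ g' := fun h => hne (by rw [h])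
          exact hX _ hg _ hg' (fun h => hgg (Sum.inr_injective h))) (by
          rw [Finset.card_map]; omega)
        have h3 := hnostar v (fun f hf => hv _ (Finset.mem_map_of_mem ι hf))
        omega
      · obtain ⟨v, hv⟩ := Finset.nonempty_iff_ne_empty.mpr hL
        have h3 := hnostar v (hVE v hv)
        omega

end R128.F4
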