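import Pool.Agent.R128.F4.Stm

namespace R128.F4
open Classical

theorem L2_proof : Stm.L2 := by
  intro V G S k s hS hVC hks hD
  obtain ⟨X, hXc, hX⟩ := hD
  set I : Finset V := S.filter (fun v => Sum.inl v ∈ X) with hI
  have hImem : ∀ v, v ∈ I ↔ Sum.inl v ∈ X := by
    intro v
    rw [hI, Finset.mem_filter]
    exact ⟨fun h => h.2, fun h => ⟨hS v, h⟩⟩
  have hInd : Indep G I := by
    intro x hx y hy hxy
    rw [hImem] at hx hy
    exact hX _ hx _ hy (fun h => G.ne_of_adj hxy (Sum.inl_injective h)) hxy
  obtain ⟨Z, _, hIZ, hZc, hZ⟩ := hVC I (Finset.filter_subset _ _) hInd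
  have hex : ∀ x : V ⊕ G.edgeSet, ∃ a : V, x ∈ X →
      a ∈ Z ∧ (x = Sum.inl a ∨ ∃ e : G.edgeSet, x = Sum.inr e ∧ a ∈ (e : Sym2 V)) := by
    intro x
    by_cases hx : x ∈ X
    · cases x with
      | inl v => exact ⟨v, fun _ => ⟨hIZ ((hImem v).mpr hx), Or.inl rfl⟩⟩
      | inr e =>
        obtain ⟨e, he⟩ := e
        induction e using Sym2.ind with
        | _ a b =>
          have hab : G.Adj a b := he
          rcases hZ a (hS a) b (hS b) hab with h | h
          · exact ⟨a, fun _ => ⟨h, Or.inr ⟨_, rfl, Sym2.mem_mk_left a b⟩⟩⟩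
          · exact ⟨b, fun _ => ⟨h, Or.inr ⟨_, rfl, Sym2.mem_mk_right a b⟩⟩⟩
    · cases x with
      | inl v => exact ⟨v, fun h => absurd h hx⟩
      | inr e =>
        obtain ⟨e, he⟩ := e
        induction e using Sym2.ind with
        | _ a b => exact ⟨a, fun h => absurd h hx⟩
  choose φ hφ using hex
  have hcard : X.card ≤ Z.card := by
    apply Finset.card_le_card_of_injOn φ
    · intro x hx
      exact (hφ x hx).1
    · intro x hx y hy hxy
      by_contra hne
      have hJ := hX x hx y hy hne
      apply hJ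
      rcases (hφ x hx).2 with h1 | ⟨e, h1, h1'⟩ <;> rcases (hφ y hy).2 with h2 | ⟨f, h2, h2'⟩
      · exfalso
        apply hne
        rw [h1, h2, hxy]
      · have h3 : Joint G (Sum.inl (φ x)) (Sum.inr f) := by
          change φ x ∈ (f : Sym2 V)
          rw [hxy]
          exact h2'
        generalize φ x = a at h1 h3
        subst h1
        subst h2
        exact h3
      · have h3 : Joint G (Sum.inr e) (Sum.inl (φ y)) := by
          change φ y ∈ (e : Sym2 V)
          rw [← hxy]
          exact h1'
        generalize φ y = a at h2 h3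
        subst h1
        subst h2
        exact h3
      · rw [h1, h2]
        exact ⟨φ x, h1', by rw [hxy]; exact h2'⟩
  omega

end R128.F4
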