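import Pool.Agent.R128.F4.Stm

namespace R128.F4
open Classical

theorem L3_proof : Stm.L3 := by
  intro hL1 hL2 V G S m k s hm hS hdeg hVC hks hmem
  obtain ⟨g, hgS, hginj, hgsurj⟩ : ∃ g : Fin S.card → V, (∀ i, g i ∈ S) ∧
      Function.Injective g ∧ ∀ x ∈ S, ∃ i, g i = x := by
    refine ⟨fun i => (S.equivFin.symm i : V), fun i => (S.equivFin.symm i).2, ?_, ?_⟩
    · intro i j hij
      exact S.equivFin.symm.injective (Subtype.ext hij)
    · intro x hx
      exact ⟨S.equivFin ⟨x, hx⟩, by simp⟩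
  set H : SimpleGraph (Fin S.card) := G.comap g with hH
  have hadj : ∀ i j, H.Adj i j ↔ G.Adj (g i) (g j) := fun i j => Iff.rfl
  have hconn : H.Connected := by
    obtain ⟨x0, hx0⟩ := hS.1
    obtain ⟨i0, _⟩ := hgsurj x0 hx0
    have : Nonempty (Fin S.card) := ⟨i0⟩
    refine ⟨?_⟩
    intro i j
    have hT := hS.2 (S.filter (fun x => ∃ l, g l = x ∧ H.Reachable i l))
      (Finset.filter_subset _ _)
      ⟨g i, Finset.mem_filter.mpr ⟨hgS i, i, rfl, SimpleGraph.Reachable.refl i⟩⟩ (by
        intro x hx y hy hxy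
        obtain ⟨_, l, rfl, hl⟩ := Finset.mem_filter.mp hx
        obtain ⟨l', rfl⟩ := hgsurj y hy
        refine Finset.mem_filter.mpr ⟨hy, l', rfl, hl.trans ?_⟩
        exact SimpleGraph.Adj.reachable ((hadj l l').mpr hxy))
    have hj := hgS j
    rw [← hT, Finset.mem_filter] at hj
    obtain ⟨_, l, hl, hl'⟩ := hj
    rw [← hginj hl]
    exact hl'
  rcases hmem.2 H hconn with h | h
  · refine hL1 _ H m hm ?_ h
    intro T x
    have h1 : ((T.filter (fun y => H.Adj x y)).image g).card =
        (T.filter (fun y => H.Adj x y)).card := Finset.card_image_of_injective _ hginj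
    have h2 : (T.filter (fun y => H.Adj x y)).image g ⊆
        (T.image g).filter (fun y => G.Adj (g x) y) := by
      intro y hy
      obtain ⟨z, hz, rfl⟩ := Finset.mem_image.mp hy
      obtain ⟨hz1, hz2⟩ := Finset.mem_filter.mp hz
      exact Finset.mem_filter.mpr ⟨Finset.mem_image_of_mem g hz1, hz2⟩
    have h3 := hdeg (T.image g) (by
      intro y hy
      obtain ⟨z, _, rfl⟩ := Finset.mem_image.mp hy
      exact hgS z) (g x) (hgS x)
    have h4 := Finset.card_le_card h2
    rw [h1] at h4
    exact h4.trans h3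
  · refine hL2 _ H Finset.univ k s (fun x => Finset.mem_univ x) ?_ hks h
    intro I _ hI
    obtain ⟨Z, hZS, hIZ, hZc, hZ⟩ := hVC (I.image g) (by
      intro y hy
      obtain ⟨z, _, rfl⟩ := Finset.mem_image.mp hy
      exact hgS z) (by
      intro x hx y hy
      obtain ⟨x', hx', rfl⟩ := Finset.mem_image.mp hx
      obtain ⟨y', hy', rfl⟩ := Finset.mem_image.mp hy
      exact hI x' hx' y' hy')
    refine ⟨Finset.univ.filter (fun i => g i ∈ Z), Finset.subset_univ _, ?_, ?_, ?_⟩
    · intro i hi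
      exact Finset.mem_filter.mpr ⟨Finset.mem_univ _, hIZ (Finset.mem_image_of_mem g hi)⟩
    · refine le_trans ?_ hZc
      apply Finset.card_le_card_of_injOn g
      · intro i hi
        exact (Finset.mem_filter.mp hi).2
      · exact hginj.injOn
    · intro x _ y _ hxy
      rcases hZ (g x) (hgS x) (g y) (hgS y) hxy with h1 | h1
      · exact Or.inl (Finset.mem_filter.mpr ⟨Finset.mem_univ _, h1⟩)
      · exact Or.inr (Finset.mem_filter.mpr ⟨Finset.mem_univ _, h1⟩)

end R128.F4
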