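import Pool.Agent.R128.F4.Stm

namespace R128.F4
open Classical

theorem L4.grow {V : Type} (G : SimpleGraph V) (T : Finset V) (hT : Conn G T) (x y : V)
    (hx : x ∈ T) (_hy : y ∉ T) (hxy : G.Adj x y) : Conn G (insert y T) := by
  refine ⟨⟨y, Finset.mem_insert_self _ _⟩, ?_⟩
  intro W hW hWne hcl
  have hyW : y ∈ W := by
    by_cases hne : (W ∩ T).Nonempty
    · have h1 : W ∩ T = T := by
        apply hT.2 (W ∩ T) Finset.inter_subset_right hne
        intro a ha b hb hab
        rw [Finset.mem_inter] at ha ⊢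
        exact ⟨hcl a ha.1 b (Finset.mem_insert_of_mem hb) hab, hb⟩
      have h2 : x ∈ W := by
        have : x ∈ W ∩ T := by rw [h1]; exact hx
        exact (Finset.mem_inter.mp this).1
      exact hcl x h2 y (Finset.mem_insert_self _ _) hxy
    · obtain ⟨z, hz⟩ := hWne
      have h1 := Finset.mem_insert.mp (hW hz)
      rcases h1 with h1 | h1
      · rw [← h1]; exact hz
      · exact absurd ⟨z, Finset.mem_inter.mpr ⟨hz, h1⟩⟩ hne
  have hxW : x ∈ W := hcl y hyW x (Finset.mem_insert_of_mem hx) hxy.symm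
  have h1 : W ∩ T = T := by
    apply hT.2 (W ∩ T) Finset.inter_subset_right ⟨x, Finset.mem_inter.mpr ⟨hxW, hx⟩⟩
    intro a ha b hb hab
    rw [Finset.mem_inter] at ha ⊢
    exact ⟨hcl a ha.1 b (Finset.mem_insert_of_mem hb) hab, hb⟩
  apply Finset.Subset.antisymm hW
  intro z hz
  rcases Finset.mem_insert.mp hz with hz | hz
  · rw [hz]; exact hyW
  · rw [← h1] at hz
    exact (Finset.mem_inter.mp hz).1

theorem L4_proof : Stm.L4 := by
  intro V G S hS k hk
  induction k, hk using Nat.le_induction with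
  | base =>
    intro _
    obtain ⟨x, hx⟩ := hS.1
    refine ⟨{x}, Finset.singleton_subset_iff.mpr hx, Finset.card_singleton x,
      ⟨x, Finset.mem_singleton_self x⟩, ?_⟩
    intro T hT hne _
    obtain ⟨y, hy⟩ := hne
    have h1 := Finset.mem_singleton.mp (hT hy)
    apply Finset.Subset.antisymm hT
    rw [Finset.singleton_subset_iff, ← h1]
    exact hy
  | succ k hk ih =>
    intro hkS
    obtain ⟨T, hTS, hTc, hT⟩ := ih (by omega)
    have hne : T ≠ S := by
      intro h
      rw [h] at hTc
      omega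
    have hex : ∃ x ∈ T, ∃ y ∈ S, G.Adj x y ∧ y ∉ T := by
      by_contra hcon
      push Not at hcon
      exact hne (hS.2 T hTS hT.1 (fun x hx y hy hxy => hcon x hx y hy hxy))
    obtain ⟨x, hx, y, hy, hxy, hyT⟩ := hex
    refine ⟨insert y T, Finset.insert_subset hy hTS, ?_, L4.grow G T hT x y hx hyT hxy⟩
    rw [Finset.card_insert_of_notMem hyT, hTc]

end R128.F4
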