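import Pool.Agent.R128.F4.Stm

namespace R128.F4

theorem L5_proof : Stm.L5 := by
  intro b
  induction b with
  | zero =>
    intro m M hm _ hM
    refine ⟨fun _ => 1, fun i => ⟨le_rfl, hm⟩, ?_⟩
    simp only [Finset.range_zero, Finset.sum_empty]
    rw [Nat.mul_zero] at hM
    omega
  | succ b ih =>
    intro m M hm hb hM
    rw [Nat.mul_succ] at hM
    have hbm : b ≤ m * b := Nat.le_mul_of_pos_left b hm
    obtain ⟨f, hf, hsum⟩ := ih m (M - min m (M - b)) hm (by omega) (by omega)
    refine ⟨fun i => if i = b then min m (M - b) else f i, ?_, ?_⟩
    · intro i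
      by_cases hi : i = b
      · simp only [hi, if_true]
        omega
      · simp only [hi, if_false]
        exact hf i
    · rw [Finset.sum_range_succ]
      have h1 : ∑ i ∈ Finset.range b, (if i = b then min m (M - b) else f i)
          = ∑ i ∈ Finset.range b, f i := by
        apply Finset.sum_congr rfl
        intro i hi
        have := Finset.mem_range.mp hi
        rw [if_neg (by omega)]
      rw [h1, hsum, if_pos rfl]
      omega

end R128.F4
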