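import Pool.Agent.R128.F4.Stm

/-!
Piece L6: the chain of blocks and centres.
-/

namespace R128.F4.L6

noncomputable section
open Classical

/-- vertices: centres `inl k`, block vertices `inr (i, j, s)` -/
abbrev W : Type := ℕ ⊕ (ℕ × ℕ × Bool)

/-- adjacency of a centre and a block vertex -/
def cb (m k : ℕ) (v : ℕ × ℕ × Bool) : Prop :=
  v.2.1 = 0 ∧ ((v.2.2 = false ∧ k * m ≤ v.1 ∧ v.1 < k * m + m) ∨ (v.2.2 = true ∧ v.1 = k * m + m))

/-- adjacency relation -/
def rel (m : ℕ) : W → W → Prop
  | .inl _, .inl _ => False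
  | .inl k, .inr v => cb m k v
  | .inr v, .inl k => cb m k v
  | .inr v, .inr w => v.1 = w.1 ∧ v.2.2 ≠ w.2.2

/-- the graph -/
def H (m : ℕ) : SimpleGraph W where
  Adj := rel m
  symm := ⟨by
    rintro (a | a) (b | b) h
    · exact h
    · exact h
    · exact h
    · exact ⟨h.1.symm, h.2.symm⟩⟩
  loopless := ⟨by
    rintro (a | a) h
    · exact h
    · exact h.2 rfl⟩

/-- vertex sets: all centres, and in block `i` the sides in `b i` -/
def bs (m c : ℕ) (f : ℕ → ℕ) (b : ℕ → Finset Bool) : Finset W :=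
  (Finset.range c).disjSum ((Finset.range (c * m + 1)).biUnion
    (fun i => ({i} : Finset ℕ) ×ˢ (Finset.range (f i) ×ˢ b i)))

lemma mem_inl (m c : ℕ) (f : ℕ → ℕ) (b : ℕ → Finset Bool) (k : ℕ) :
    (Sum.inl k : W) ∈ bs m c f b ↔ k < c := by
  simp [bs]

lemma mem_inr (m c : ℕ) (f : ℕ → ℕ) (b : ℕ → Finset Bool) (i j : ℕ) (s : Bool) :
    (Sum.inr (i, j, s) : W) ∈ bs m c f b ↔ i < c * m + 1 ∧ j < f i ∧ s ∈ b i := by
  simp only [bs, Finset.inr_mem_disjSum, Finset.mem_biUnion, Finset.mem_range,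
    Finset.mem_product, Finset.mem_singleton]
  constructor
  · rintro ⟨a, ha, h1, h2, h3⟩
    subst h1
    exact ⟨ha, h2, h3⟩
  · rintro ⟨h1, h2, h3⟩
    exact ⟨i, h1, rfl, h2, h3⟩

lemma card_bs (m c : ℕ) (f : ℕ → ℕ) (b : ℕ → Finset Bool) :
    (bs m c f b).card = c + ∑ i ∈ Finset.range (c * m + 1), f i * (b i).card := by
  rw [bs, Finset.card_disjSum, Finset.card_range, Finset.card_biUnion]
  · congr 1
    apply Finset.sum_congr rfl
    intro i _
    simp
  · intro x _ y _ hxy
    rw [Function.onFun, Finset.disjoint_left]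
    rintro ⟨a, a', a''⟩ h1 h2
    simp only [Finset.mem_product, Finset.mem_singleton] at h1 h2
    exact hxy (h1.1.symm.trans h2.1)

lemma deg_inl (m k : ℕ) (T : Finset W) : dg (H m) T (Sum.inl k) ≤ m + 1 := by
  have hsub : (T.filter (fun y => (H m).Adj (Sum.inl k) y)) ⊆
      (Finset.Icc (k * m) (k * m + m)).image
        (fun i => (Sum.inr (i, 0, decide (i = k * m + m)) : W)) := by
    intro y hy
    rw [Finset.mem_filter] at hy
    obtain ⟨_, hy⟩ := hy
    rcases y with a | ⟨i, j, s⟩
    · exact absurd hy (by intro h; exact h)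
    · have hy' : cb m k (i, j, s) := hy
      obtain ⟨h0, h1⟩ := hy'
      simp only at h0 h1
      rw [Finset.mem_image]
      refine ⟨i, ?_, ?_⟩
      · rw [Finset.mem_Icc]
        rcases h1 with h1 | h1
        · omega
        · omega
      · rcases h1 with ⟨h1, h2, h3⟩ | ⟨h1, h2⟩
        · have : ¬ (i = k * m + m) := by omega
          simp [this, h0, h1]
        · simp [h2, h0, h1]
  have h := (Finset.card_le_card hsub).trans Finset.card_image_le
  have h2 : (Finset.Icc (k * m) (k * m + m)).card = m + 1 := by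
    rw [Nat.card_Icc]; omega
  rw [h2] at h
  exact h

lemma deg_inr (m c : ℕ) (f : ℕ → ℕ) (hm : 1 ≤ m) (hf : ∀ i, f i ≤ m) (b : ℕ → Finset Bool)
    (T : Finset W) (hT : T ⊆ bs m c f b) (i j : ℕ) (s : Bool) :
    dg (H m) T (Sum.inr (i, j, s)) ≤ m + 1 := by
  have hsub : (T.filter (fun y => (H m).Adj (Sum.inr (i, j, s)) y)) ⊆
      insert (Sum.inl (if s = false then i / m else i / m - 1) : W)
      ((Finset.range (f i)).image (fun j' => (Sum.inr (i, j', !s) : W))) := by
    intro y hy
    rw [Finset.mem_filter] at hy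
    obtain ⟨hyT, hy⟩ := hy
    rcases y with a | ⟨i', j', s'⟩
    · rw [Finset.mem_insert]
      left
      have hy' : cb m a (i, j, s) := hy
      obtain ⟨_, h1⟩ := hy'
      simp only at h1
      rcases h1 with ⟨h1, h2, h3⟩ | ⟨h1, h2⟩
      · rw [if_pos h1]
        congr 1
        symm
        rw [Nat.div_eq_iff (by omega)]
        constructor
        · omega
        · omega
      · have hs : ¬ (s = false) := by simp [h1]
        rw [if_neg hs]
        congr 1
        have : i / m = a + 1 := by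
          rw [h2, show a * m + m = (a + 1) * m by ring]
          exact Nat.mul_div_cancel _ (by omega)
        omega
    · rw [Finset.mem_insert]
      right
      have hy' : i = i' ∧ s ≠ s' := hy
      obtain ⟨h1, h2⟩ := hy'
      have h3 := (mem_inr m c f b i' j' s').1 (hT hyT)
      subst h1
      rw [Finset.mem_image]
      refine ⟨j', Finset.mem_range.2 h3.2.1, ?_⟩
      have : (!s) = s' := by
        cases s <;> cases s' <;> simp_all
      rw [this]
  have h := (Finset.card_le_card hsub).trans (Finset.card_insert_le _ _)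
  have h2 : ((Finset.range (f i)).image (fun j' => (Sum.inr (i, j', !s) : W))).card ≤ m := by
    refine Finset.card_image_le.trans ?_
    rw [Finset.card_range]
    exact hf i
  have h3 : dg (H m) T (Sum.inr (i, j, s)) =
    (T.filter (fun y => (H m).Adj (Sum.inr (i, j, s)) y)).card := rfl
  rw [h3]
  omega

lemma conn (m c : ℕ) (f : ℕ → ℕ) (hm : 1 ≤ m) (hf : ∀ i, 1 ≤ f i) :
    Conn (H m) (bs m c f (fun _ => Finset.univ)) := by
  set S := bs m c f (fun _ => Finset.univ) with hS
  have hin : ∀ k, (Sum.inl k : W) ∈ S ↔ k < c := fun k => mem_inl m c f _ k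
  have hir : ∀ i j s, (Sum.inr (i, j, s) : W) ∈ S ↔ i < c * m + 1 ∧ j < f i := by
    intro i j s
    rw [hS, mem_inr]
    simp
  have hbase : (Sum.inr (0, 0, false) : W) ∈ S := by
    rw [hir]
    exact ⟨by omega, hf 0⟩
  refine ⟨⟨_, hbase⟩, ?_⟩
  intro T hTS hne hcl
  have key : ∀ x ∈ S, ∀ y ∈ S, (H m).Adj x y → (x ∈ T ↔ y ∈ T) := by
    intro x hx y hy hxy
    exact ⟨fun h => hcl x h y hy hxy, fun h => hcl y h x hx hxy.symm⟩
  have hz : ∀ i, i < c * m + 1 → ∀ s, (Sum.inr (i, 0, s) : W) ∈ S := by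
    intro i hi s
    rw [hir]
    exact ⟨hi, hf i⟩
  -- within a block
  have blk1 : ∀ i, i < c * m + 1 →
      ((Sum.inr (i, 0, true) : W) ∈ T ↔ (Sum.inr (i, 0, false) : W) ∈ T) := by
    intro i hi
    apply key _ (hz i hi _) _ (hz i hi _)
    exact ⟨rfl, by simp⟩
  have blk : ∀ i j s, (Sum.inr (i, j, s) : W) ∈ S →
      ((Sum.inr (i, j, s) : W) ∈ T ↔ (Sum.inr (i, 0, false) : W) ∈ T) := by
    intro i j s h
    have hi := ((hir i j s).1 h).1
    cases s
    · rw [← blk1 i hi]
      apply key _ h _ (hz i hi _)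
      exact ⟨rfl, by simp⟩
    · apply key _ h _ (hz i hi _)
      exact ⟨rfl, by simp⟩
  have hcen : ∀ k, k < c → ∀ i, k * m ≤ i → i < k * m + m →
      ((Sum.inl k : W) ∈ T ↔ (Sum.inr (i, 0, false) : W) ∈ T) := by
    intro k hk i h1 h2
    have hle : k * m + m ≤ c * m := by
      have : (k + 1) * m ≤ c * m := Nat.mul_le_mul_right m hk
      linarith [this, show (k + 1) * m = k * m + m by ring]
    apply key _ ((hin k).2 hk) _ (hz i (by omega) _)
    exact ⟨rfl, Or.inl ⟨rfl, h1, h2⟩⟩
  have hcen2 : ∀ k, k < c →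
      ((Sum.inl k : W) ∈ T ↔ (Sum.inr (k * m + m, 0, false) : W) ∈ T) := by
    intro k hk
    have hle : k * m + m ≤ c * m := by
      have : (k + 1) * m ≤ c * m := Nat.mul_le_mul_right m hk
      linarith [this, show (k + 1) * m = k * m + m by ring]
    rw [← blk1 (k * m + m) (by omega)]
    apply key _ ((hin k).2 hk) _ (hz _ (by omega) _)
    exact ⟨rfl, Or.inr ⟨rfl, rfl⟩⟩
  have hchain : ∀ k, k ≤ c →
      ((Sum.inr (k * m, 0, false) : W) ∈ T ↔ (Sum.inr (0, 0, false) : W) ∈ T) := by
    intro k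
    induction k with
    | zero => intro _; simp
    | succ k ih =>
      intro hk
      rw [← ih (by omega), show (k + 1) * m = k * m + m by ring, ← hcen2 k (by omega)]
      exact hcen k (by omega) (k * m) le_rfl (by omega)
  have hc0 : ∀ k, k < c → ((Sum.inl k : W) ∈ T ↔ (Sum.inr (0, 0, false) : W) ∈ T) := by
    intro k hk
    rw [← hchain k (by omega)]
    exact hcen k hk (k * m) le_rfl (by omega)
  have hall : ∀ x ∈ S, (x ∈ T ↔ (Sum.inr (0, 0, false) : W) ∈ T) := by
    rintro (k | ⟨i, j, s⟩) hx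
    · exact hc0 k ((hin k).1 hx)
    · rw [blk i j s hx]
      have hi := ((hir i j s).1 hx).1
      by_cases hic : i = c * m
      · rw [hic]
        exact hchain c le_rfl
      · have hlt : i / m < c := by
          rw [Nat.div_lt_iff_lt_mul (by omega)]
          omega
        rw [← hc0 (i / m) hlt]
        symm
        apply hcen (i / m) hlt
        · exact Nat.div_mul_le_self i m
        · exact Nat.lt_div_mul_add (by omega)
  obtain ⟨x, hx⟩ := hne
  have hb := (hall x (hTS hx)).1 hx
  apply Finset.Subset.antisymm hTS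
  intro y hy
  exact (hall y hy).2 hb

lemma vc (m c : ℕ) (f : ℕ → ℕ) :
    VC (H m) (bs m c f (fun _ => Finset.univ)) (c + ∑ i ∈ Finset.range (c * m + 1), f i) := by
  intro I hIS hI
  set σ : ℕ → Bool := fun i => decide (∃ j, (Sum.inr (i, j, true) : W) ∈ I) with hσ
  refine ⟨bs m c f (fun i => {σ i}), ?_, ?_, ?_, ?_⟩
  · rintro (k | ⟨i, j, s⟩) hx
    · rw [mem_inl] at hx ⊢
      exact hx
    · rw [mem_inr] at hx ⊢
      exact ⟨hx.1, hx.2.1, Finset.mem_univ _⟩
  · rintro (k | ⟨i, j, s⟩) hx
    · have := hIS hx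
      rw [mem_inl] at this ⊢
      exact this
    · have h := hIS hx
      rw [mem_inr] at h ⊢
      refine ⟨h.1, h.2.1, ?_⟩
      rw [Finset.mem_singleton, hσ]
      cases s
      · symm
        simp only [decide_eq_false_iff_not]
        rintro ⟨j', hj'⟩
        exact hI _ hx _ hj' ⟨rfl, by simp⟩
      · symm
        simp only [decide_eq_true_eq]
        exact ⟨j, hx⟩
  · rw [card_bs]
    simp
  · rintro (k | ⟨i, j, s⟩) hx (k' | ⟨i', j', s'⟩) hy hxy
    · exact absurd hxy (by intro h; exact h)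
    · left
      rw [mem_inl] at hx ⊢
      exact hx
    · right
      rw [mem_inl] at hy ⊢
      exact hy
    · have h : i = i' ∧ s ≠ s' := hxy
      obtain ⟨h1, h2⟩ := h
      subst h1
      rw [mem_inr] at hx hy
      by_cases hs : s = σ i
      · left
        rw [mem_inr]
        exact ⟨hx.1, hx.2.1, Finset.mem_singleton.2 hs⟩
      · right
        rw [mem_inr]
        refine ⟨hy.1, hy.2.1, Finset.mem_singleton.2 ?_⟩
        revert h2 hs
        generalize σ i = t
        cases s <;> cases s' <;> cases t <;> simp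

end

end R128.F4.L6

namespace R128.F4

theorem L6_proof : Stm.L6 := by
  intro m c f hm hf
  refine ⟨L6.W, L6.H m, L6.bs m c f (fun _ => Finset.univ),
    L6.conn m c f hm (fun i => (hf i).1), ?_, ?_, L6.vc m c f⟩
  · intro T hT x _
    rcases x with k | ⟨i, j, s⟩
    · exact L6.deg_inl m k T
    · exact L6.deg_inr m c f hm (fun i => (hf i).2) _ T hT i j s
  · rw [L6.card_bs]
    congr 1
    rw [Finset.mul_sum]
    apply Finset.sum_congr rfl
    intro i _
    simp [mul_comm]

end R128.F4
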