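import Pool.Agent.R128.F4.Stm

namespace R128.F4

theorem L7_proof : Stm.L7 := by
  intro r s m c hr hs hm hc
  obtain ⟨k, rfl⟩ : ∃ k, r = k + 5 := ⟨r - 5, by omega⟩
  have hmk : m = k + 2 := by omega
  have hr3 : k + 5 - 3 = m := by omega
  rw [hr3] at hc
  obtain ⟨t, ht⟩ : ∃ t, s = m ^ 2 + m + 3 + t := by
    refine ⟨s - (m ^ 2 + m + 3), ?_⟩
    have : m ^ 2 + m + 3 ≤ s := by
      subst hmk
      nlinarith
    omega
  have h1 : s - (k + 5) + 2 + m ^ 2 = t + 2 * (m ^ 2 + 1) := by omega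
  rw [h1, Nat.add_mul_div_right _ _ (Nat.succ_pos _)] at hc
  set d := t / (m ^ 2 + 1) with hd
  have h2 : (m ^ 2 + 1) * d ≤ t := Nat.mul_div_le _ _
  have h3 : t < (m ^ 2 + 1) * d + (m ^ 2 + 1) := by
    have := Nat.lt_mul_div_succ t (Nat.succ_pos (m ^ 2))
    rw [Nat.mul_add, Nat.mul_one] at this
    exact this
  have h4 : (m ^ 2 + 1) * d = m ^ 2 * d + d := by ring
  have h5 : m * d ≤ m ^ 2 * d := by
    apply Nat.mul_le_mul_right
    nlinarith
  have h6 : m + 1 ≤ m ^ 2 := by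
    subst hmk
    nlinarith
  subst hc
  constructor
  · have h7 : (d + 2) * m = m * d + 2 * m := by ring
    rw [h7]
    omega
  · have h7 : m * ((d + 2) * m + 1) = m ^ 2 * d + 2 * m ^ 2 + m := by ring
    rw [h7]
    omega

end R128.F4
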