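import Pool.Agent.R128.F4.L1
import Pool.Agent.R128.F4.L2

namespace R128.F4
open Classical

theorem L8.vc_mono {V : Type} (G : SimpleGraph V) (S T : Finset V) (k : ℕ) (hTS : T ⊆ S)
    (h : VC G S k) : VC G T k := by
  intro I hI hInd
  obtain ⟨Z, _, hIZ, hZc, hZ⟩ := h I (hI.trans hTS) hInd
  refine ⟨Z ∩ T, Finset.inter_subset_right, Finset.subset_inter hIZ hI,
    (Finset.card_le_card Finset.inter_subset_left).trans hZc, ?_⟩
  intro x hx y hy hxy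
  rcases hZ x (hTS hx) y (hTS hy) hxy with h1 | h1
  · exact Or.inl (Finset.mem_inter.mpr ⟨h1, hx⟩)
  · exact Or.inr (Finset.mem_inter.mpr ⟨h1, hy⟩)

theorem L8_proof : Stm.L8 := by
  intro hL1 hL2 hL3 hL4 hL5 hL6 hL7 r s p hr hs hp hmem
  have hp0 : 0 < p := hmem.1
  obtain ⟨m, hm⟩ : ∃ m, m = r - 3 := ⟨_, rfl⟩
  obtain ⟨c, hc⟩ : ∃ c, c = (s - r + 2 + (r - 3) ^ 2) / ((r - 3) ^ 2 + 1) := ⟨_, rfl⟩
  rw [← hc] at hp
  obtain ⟨h1, h2⟩ := hL7 r s m c hr hs hm hc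
  obtain ⟨f, hf, hfs⟩ := hL5 (c * m + 1) m (s - 1 - c) (by omega) (by omega) h2
  obtain ⟨V, G, S, hS, hdg, hcard, hVC⟩ := hL6 m c f (by omega) hf
  rw [hfs] at hcard hVC
  obtain ⟨T, hTS, hTc, hT⟩ := hL4 V G S hS p hp0 (by omega)
  have hVC' : VC G T (c + (s - 1 - c)) := L8.vc_mono G S T _ hTS hVC
  have h3 := hL3 hL1 hL2 V G T m (c + (s - 1 - c)) s (by omega) hT
    (fun T' hT' x hx => hdg T' (hT'.trans hTS) x (hTS hx)) hVC' (by omega)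
  rw [hTc] at h3
  apply h3
  have h4 : m + 3 = r := by omega
  rw [h4]
  exact hmem

end R128.F4
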