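import Pool.Agent.R85.F4Aux

namespace R128.F4
open Classical

theorem NCmax_proof : Stm.NCmax := by
  intro V G H F hH hex hne
  let P : Finset (V × Finset V) := (H ×ˢ H.powerset).filter fun p =>
    cc G (H.erase p.1) + 1 = cc G H ∧ p.2 ∈ comps G (H.erase p.1)
  have hmem : ∀ w ∈ H, cc G (H.erase w) + 1 = cc G H → ∀ K ∈ comps G (H.erase w),
      (w, K) ∈ P := by
    intro w hw hc K hK
    refine Finset.mem_filter.2 ⟨Finset.mem_product.2 ⟨hw, Finset.mem_powerset.2 ?_⟩, hc, hK⟩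
    exact (R85F4.mem_comps.1 hK).1.trans (Finset.erase_subset _ _)
  obtain ⟨w0, hw0, hc0⟩ := hex
  obtain ⟨K0, hK0⟩ := hne w0 hw0 hc0
  obtain ⟨⟨w, K1⟩, hwK, hmax⟩ := Finset.exists_max_image P (fun p => p.2.card)
    ⟨_, hmem w0 hw0 hc0 K0 hK0⟩
  obtain ⟨h1, hc, hK1⟩ := Finset.mem_filter.1 hwK
  have hw : w ∈ H := (Finset.mem_product.1 h1).1
  change cc G (H.erase w) + 1 = cc G H at hc
  change K1 ∈ comps G (H.erase w) at hK1
  refine ⟨w, hw, hc, K1, hK1, fun K hK hne z hz => ?_⟩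
  have hKm := R85F4.mem_comps.1 hK
  have hK1m := R85F4.mem_comps.1 hK1
  have hzH := hKm.1 hz
  rw [Finset.mem_erase] at hzH
  rcases F.pm H z hzH.2 with h | h
  · exact h
  exfalso
  obtain ⟨y, hy, hwy⟩ := F.nbr H w hH hw K1 hK1
  have hins := R85F4.insert_conn hK1m.2.1 hy hwy
  have hdis := Finset.disjoint_left.1 (F.disj _ K K1 hK hK1 hne)
  have hsub : insert w K1 ⊆ H.erase z := by
    apply Finset.insert_subset
    · exact Finset.mem_erase.2 ⟨hzH.1.symm, hw⟩
    · intro a ha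
      refine Finset.mem_erase.2 ⟨?_, Finset.mem_of_mem_erase (hK1m.1 ha)⟩
      intro haz
      rw [haz] at ha
      exact hdis hz ha
  obtain ⟨C, hC, hwC⟩ := F.cover (H.erase z) w (hsub (Finset.mem_insert_self _ _))
  have hle := R85F4.sub_comp hC hins hsub (Finset.mem_insert_self _ _) hwC
  have hcard := Finset.card_le_card hle
  rw [Finset.card_insert_of_notMem (fun h' => (Finset.mem_erase.1 (hK1m.1 h')).1 rfl)] at hcard
  have h5 : C.card ≤ K1.card := hmax _ (hmem z hzH.2 h C hC)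
  omega

end R128.F4
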