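import Pool.Agent.R128.F4.Stm

namespace R128.F4
open Classical

theorem NCtr_proof : Stm.NCtr := by
  intro V G H F w hw hwc K hK z hz hzc
  have hK2 := hK
  rw [comps, Finset.mem_filter, Finset.mem_powerset] at hK2
  have hz1 := hK2.1 hz
  rw [Finset.mem_erase] at hz1
  have h1 := F.rem (H.erase w) K z hK hz
  have h2 := F.pm (H.erase z) w (Finset.mem_erase.2 ⟨fun h => hz1.1 h.symm, hw⟩)
  rw [Finset.erase_right_comm] at h2
  have h3 := F.pm H z hz1.2
  omega

end R128.F4
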