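import Pool.Agent.R85.F4Aux

namespace R128.F4
open Classical

theorem NS_proof : Stm.NS := by
  intro V G S F hS h3 hcut x hx u hu hxu
  have hxu' : x ≠ u := G.ne_of_adj hxu
  have hN : ∃ v ∈ S, v ≠ x ∧ G.Adj u v := by
    by_contra hno
    push Not at hno
    have hu' : u ∈ S.erase x := Finset.mem_erase.2 ⟨hxu'.symm, hu⟩
    have h1 := (hcut x hx).2 {u} (Finset.singleton_subset_iff.2 hu')
      (Finset.singleton_nonempty u) (by
        intro a ha b hb hab
        rw [Finset.mem_singleton] at ha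
        rw [ha] at hab
        exact absurd hab (hno b (Finset.mem_of_mem_erase hb) (Finset.ne_of_mem_erase hb)))
    have h2 : (S.erase x).card = 1 := by rw [← h1]; exact Finset.card_singleton u
    rw [Finset.card_erase_of_mem hx] at h2
    omega
  let P : Finset (V × Finset V) := (S ×ˢ S.powerset).filter fun p =>
    G.Adj u p.1 ∧ p.1 ≠ x ∧ p.2 ∈ comps G ((S.erase u).erase p.1) ∧ x ∈ p.2
  have hmem : ∀ v ∈ S, v ≠ x → G.Adj u v → ∃ C, (v, C) ∈ P := by
    intro v hv hvx huv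
    have hx' : x ∈ (S.erase u).erase v :=
      Finset.mem_erase.2 ⟨hvx.symm, Finset.mem_erase.2 ⟨hxu', hx⟩⟩
    obtain ⟨C, hC, hxC⟩ := F.cover _ x hx'
    refine ⟨C, Finset.mem_filter.2
      ⟨Finset.mem_product.2 ⟨hv, Finset.mem_powerset.2 ?_⟩, huv, hvx, hC, hxC⟩⟩
    exact ((R85F4.mem_comps.1 hC).1.trans (Finset.erase_subset _ _)).trans
      (Finset.erase_subset _ _)
  obtain ⟨v0, hv0, hv0x, huv0⟩ := hN
  obtain ⟨C0, hC0⟩ := hmem v0 hv0 hv0x huv0
  obtain ⟨⟨v, C⟩, hvC, hmax⟩ := Finset.exists_max_image P (fun p => p.2.card) ⟨_, hC0⟩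
  obtain ⟨h1, huv, hvx, hC, hxC⟩ := Finset.mem_filter.1 hvC
  have hv : v ∈ S := (Finset.mem_product.1 h1).1
  change G.Adj u v at huv
  change v ≠ x at hvx
  change C ∈ comps G ((S.erase u).erase v) at hC
  change x ∈ C at hxC
  have hvu : v ≠ u := (G.ne_of_adj huv).symm
  refine ⟨v, hv, hvx, hvu, huv, ?_⟩
  have hCm := R85F4.mem_comps.1 hC
  by_cases hCe : C = (S.erase u).erase v
  · rw [← hCe]; exact hCm.2.1
  exfalso
  obtain ⟨c0, hc0, hc0'⟩ : ∃ c0 ∈ (S.erase u).erase v, c0 ∉ C := by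
    by_contra hno
    push Not at hno
    exact hCe (Finset.Subset.antisymm hCm.1 hno)
  obtain ⟨D, hD, hcD⟩ := F.cover _ c0 hc0
  have hCD : C ≠ D := by rintro rfl; exact hc0' hcD
  have hdis := Finset.disjoint_left.1 (F.disj _ C D hC hD hCD)
  have hDm := R85F4.mem_comps.1 hD
  have huSv : u ∈ S.erase v := Finset.mem_erase.2 ⟨hvu.symm, hu⟩
  have hDS : D ⊆ S.erase v := fun a ha => by
    have := hDm.1 ha
    rw [Finset.mem_erase, Finset.mem_erase] at this
    exact Finset.mem_erase.2 ⟨this.1, this.2.2⟩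
  have huD : u ∉ D := fun h => by
    have := hDm.1 h
    rw [Finset.mem_erase, Finset.mem_erase] at this
    exact this.2.1 rfl
  obtain ⟨z, hz, hzu⟩ : ∃ z ∈ D, G.Adj z u := by
    by_contra hno
    push Not at hno
    apply huD
    have := (hcut v hv).2 D hDS ⟨c0, hcD⟩ (by
      intro a ha b hb hab
      by_cases hbu : b = u
      · rw [hbu] at hab; exact absurd hab (hno a ha)
      · exact hDm.2.2 a ha b (Finset.mem_erase.2 ⟨Finset.ne_of_mem_erase hb,
          Finset.mem_erase.2 ⟨hbu, Finset.mem_of_mem_erase hb⟩⟩) hab)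
    rw [this]; exact huSv
  have hzx : z ≠ x := by
    intro h
    rw [h] at hz
    exact hdis hxC hz
  have hzS : z ∈ S := Finset.mem_of_mem_erase (hDS hz)
  have hzv : z ≠ v := Finset.ne_of_mem_erase (hDS hz)
  obtain ⟨C', hC'⟩ := hmem z hzS hzx hzu.symm
  obtain ⟨_, _, _, hC'c, hxC'⟩ := Finset.mem_filter.1 hC'
  change C' ∈ comps G ((S.erase u).erase z) at hC'c
  change x ∈ C' at hxC'
  obtain ⟨y, hy, hvy⟩ := F.nbr (S.erase u) v (hcut u hu) (Finset.mem_erase.2 ⟨hvu, hv⟩) C hC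
  have hins := R85F4.insert_conn hCm.2.1 hy hvy
  have hsub : insert v C ⊆ (S.erase u).erase z := by
    apply Finset.insert_subset
    · exact Finset.mem_erase.2 ⟨hzv.symm, Finset.mem_erase.2 ⟨hvu, hv⟩⟩
    · intro a ha
      have h2 := hCm.1 ha
      rw [Finset.mem_erase] at h2
      refine Finset.mem_erase.2 ⟨?_, h2.2⟩
      intro h
      rw [h] at ha
      exact hdis ha hz
  have hle := R85F4.sub_comp hC'c hins hsub (Finset.mem_insert_of_mem hxC) hxC'
  have hcard := Finset.card_le_card hle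
  rw [Finset.card_insert_of_notMem (fun h => (Finset.mem_erase.1 (hCm.1 h)).1 rfl)] at hcard
  have h5 : C'.card ≤ C.card := hmax _ hC'
  omega

end R128.F4
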