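import Pool.Agent.R128.F4.Stm

namespace R128.F4

open Classical

theorem PB_proof : Stm.PB := by
  intro hEB V G m A B S h v hv
  have h1 := h.F.sum_card (S.erase v)
  have h2 := h.F.sum_cc (S.erase v)
  have h3 := Finset.card_erase_add_one hv
  have h4 : ∑ K ∈ comps G (S.erase v), K.card ≤
      ∑ K ∈ comps G (S.erase v), (A + B * cc G K) :=
    Finset.sum_le_sum (fun K hK => hEB V G m A B S h v hv K hK)
  rw [Finset.sum_add_distrib, ← Finset.mul_sum, h2, h1, Finset.sum_const, smul_eq_mul] at h4
  omega

end R128.F4
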