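import Pool.Agent.R128.F4.Stm

namespace R128.F4
open Classical

theorem T0_proof : Stm.T0 := by
  intro V G m S hF hm hconn hcard hcc
  have hdeg : ∀ x ∈ S, m ≤ dg G S x := by
    intro x hx
    have := hF.zero S hconn hcc x hx
    omega
  refine ⟨hdeg, ?_⟩
  intro y hy
  have hcardy : (S.erase y).card = 2 * m - 1 := by
    rw [Finset.card_erase_of_mem hy, hcard]
  have hdy : ∀ x ∈ S.erase y, m ≤ dg G (S.erase y) x + 1 := by
    intro x hx
    have h1 := hdeg x (Finset.mem_of_mem_erase hx)
    have h2 : dg G S x ≤ dg G (S.erase y) x + 1 := by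
      unfold dg
      rw [Finset.filter_erase]
      have := Finset.pred_card_le_card_erase (s := S.filter (fun z => G.Adj x z)) (a := y)
      omega
    omega
  refine ⟨?_, ?_⟩
  · rw [← Finset.card_pos, hcardy]; omega
  · intro T hT hne hcl
    refine Finset.Subset.antisymm hT ?_
    obtain ⟨u, hu⟩ := hne
    intro w hw
    by_cases huw : w = u
    · rw [huw]; exact hu
    by_cases hadj : G.Adj u w
    · exact hcl u hu w hw hadj
    -- a common neighbour
    have huS := hT hu
    have hex : ∃ z, z ∈ S.erase y ∧ G.Adj u z ∧ G.Adj w z := by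
      by_contra hcon
      push Not at hcon
      have hd : Disjoint ((S.erase y).filter (fun z => G.Adj u z))
          ((S.erase y).filter (fun z => G.Adj w z)) := by
        rw [Finset.disjoint_left]
        intro z hz1 hz2
        exact hcon z (Finset.mem_filter.1 hz1).1 (Finset.mem_filter.1 hz1).2
          (Finset.mem_filter.1 hz2).2
      have hsub : (S.erase y).filter (fun z => G.Adj u z) ∪
          (S.erase y).filter (fun z => G.Adj w z) ⊆ ((S.erase y).erase u).erase w := by
        intro z hz
        rw [Finset.mem_erase, Finset.mem_erase]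
        rcases Finset.mem_union.1 hz with hz | hz
        · have hz' := Finset.mem_filter.1 hz
          refine ⟨?_, ?_, hz'.1⟩
          · rintro rfl; exact hadj hz'.2
          · rintro rfl; exact G.irrefl hz'.2
        · have hz' := Finset.mem_filter.1 hz
          refine ⟨?_, ?_, hz'.1⟩
          · rintro rfl; exact G.irrefl hz'.2
          · rintro rfl; exact hadj hz'.2.symm
      have h1 := Finset.card_le_card hsub
      rw [Finset.card_union_of_disjoint hd, Finset.card_erase_of_mem
        (Finset.mem_erase.2 ⟨huw, hw⟩), Finset.card_erase_of_mem huS, hcardy] at h1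
      have h2 := hdy u huS
      have h3 := hdy w hw
      unfold dg at h2 h3
      omega
    obtain ⟨z, hz, huz, hwz⟩ := hex
    exact hcl z (hcl u hu z hz huz) w hw hwz.symm

end R128.F4
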