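import Pool.Agent.R128.F4.Stm

namespace R128.F4
open Classical

namespace T2

theorem mem_comps' {V : Type} {G : SimpleGraph V} {R K : Finset V} :
    K ∈ comps G R ↔ K ⊆ R ∧ Conn G K ∧ ∀ x ∈ K, ∀ y ∈ R, G.Adj x y → y ∈ K := by
  simp [comps]

theorem absorb {V : Type} {G : SimpleGraph V} {R K T : Finset V} (hK : Conn G K) (hKR : K ⊆ R)
    (hT : ∀ x ∈ T, ∀ y ∈ R, G.Adj x y → y ∈ T) {x : V} (hx : x ∈ T) (hxK : x ∈ K) : K ⊆ T := by
  have h : T ∩ K = K := by
    apply hK.2 (T ∩ K) Finset.inter_subset_right ⟨x, Finset.mem_inter.2 ⟨hx, hxK⟩⟩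
    intro a ha b hb hab
    rw [Finset.mem_inter] at ha ⊢
    exact ⟨hT a ha.1 b (hKR hb) hab, hb⟩
  intro a ha
  rw [← h] at ha
  exact (Finset.mem_inter.1 ha).1

theorem dg_mono {V : Type} {G : SimpleGraph V} {S T : Finset V} (h : S ⊆ T) (x : V) :
    dg G S x ≤ dg G T x :=
  Finset.card_le_card (Finset.filter_subset_filter _ h)

end T2

theorem T2_proof : Stm.T2 := by
  intro hEB V G m A B S hC hS v hv hcv
  have hF := hC.F
  have hpar := hC.par
  have hm := hpar.hm
  have hA := hpar.hA
  have hB := hpar.hB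
  have hlt : ∀ K ∈ comps G (S.erase v), K.card < S.card := by
    intro K hK
    have h1 := (T2.mem_comps'.1 hK).1
    have h2 := Finset.card_le_card h1
    have h3 : (S.erase v).card + 1 = S.card := Finset.card_erase_add_one hv
    omega
  have hsub : ∀ K ∈ comps G (S.erase v), K ⊆ S := fun K hK =>
    (T2.mem_comps'.1 hK).1.trans (Finset.erase_subset _ _)
  have hvK : ∀ K ∈ comps G (S.erase v), v ∉ K := fun K hK h =>
    (Finset.mem_erase.1 ((T2.mem_comps'.1 hK).1 h)).1 rfl
  have hconn : ∀ K ∈ comps G (S.erase v), Conn G K := fun K hK => (T2.mem_comps'.1 hK).2.1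
  have hle : ∀ K ∈ comps G (S.erase v), K.card ≤ A + B * cc G K :=
    fun K hK => hEB V G m A B S hC v hv K hK
  have h1 : ∑ K ∈ comps G (S.erase v), K.card = (S.erase v).card := hF.sum_card _
  have h2 : ∑ K ∈ comps G (S.erase v), cc G K = cc G (S.erase v) := hF.sum_cc _
  have h3 : (comps G (S.erase v)).card ≤ dg G S v := hF.card_le S v hC.conn hv
  have h4 : dg G S v ≤ m + 1 := hC.deg S v
  have h5 : (S.erase v).card + 1 = S.card := Finset.card_erase_add_one hv
  have h6 : ∑ K ∈ comps G (S.erase v), (A + B * cc G K) =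
      (comps G (S.erase v)).card * A + B * cc G (S.erase v) := by
    rw [Finset.sum_add_distrib, Finset.sum_const, smul_eq_mul, ← Finset.mul_sum, h2]
  have h7 : ∑ K ∈ comps G (S.erase v), K.card ≤ ∑ K ∈ comps G (S.erase v), (A + B * cc G K) :=
    Finset.sum_le_sum hle
  set t := (comps G (S.erase v)).card with ht
  set c' := cc G (S.erase v) with hc'
  have hc : cc G S = c' + 1 := hcv.symm
  have h8 : A + B * (c' + 1) ≤ 1 + t * A + B * c' := by
    rw [hc] at hS
    rw [h1, h6] at h7
    omega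
  have h9 : (m + 1) * A ≤ t * A := by
    rw [mul_add, mul_one, hB] at h8
    nlinarith
  have hApos : 0 < A := by omega
  have h10 : m + 1 ≤ t := Nat.le_of_mul_le_mul_right h9 hApos
  have ht' : t = m + 1 := by omega
  have hdv : dg G S v = m + 1 := by omega
  have htight : ∀ K ∈ comps G (S.erase v), K.card = A + B * cc G K := by
    have h11 : ∑ K ∈ comps G (S.erase v), K.card =
        ∑ K ∈ comps G (S.erase v), (A + B * cc G K) := by
      apply le_antisymm h7
      rw [h1, h6, ht']
      rw [hc] at hS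
      have : A + B * (c' + 1) = (m + 1) * A + B * c' + 1 := by
        rw [hB]
        ring
      omega
    exact (Finset.sum_eq_sum_iff_of_le hle).1 h11
  have hdgv : dg G (S.erase v) v = dg G S v := by
    unfold dg
    congr 1
    ext x
    simp only [Finset.mem_filter, Finset.mem_erase]
    constructor
    · rintro ⟨⟨_, h⟩, h'⟩
      exact ⟨h, h'⟩
    · rintro ⟨h, h'⟩
      exact ⟨⟨h'.ne', h⟩, h'⟩
  have hone : ∀ K ∈ comps G (S.erase v), dg G K v = 1 := by
    have h12 : ∑ K ∈ comps G (S.erase v), dg G K v = t := by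
      rw [hF.sum_dg, hdgv, hdv, ht']
    have h13 : ∀ K ∈ comps G (S.erase v), 1 ≤ dg G K v := by
      intro K hK
      obtain ⟨y, hy, hvy⟩ := hF.nbr S v hC.conn hv K hK
      exact Finset.card_pos.2 ⟨y, Finset.mem_filter.2 ⟨hy, hvy⟩⟩
    have h14 : ∑ _K ∈ comps G (S.erase v), 1 = ∑ K ∈ comps G (S.erase v), dg G K v := by
      rw [h12, Finset.sum_const, smul_eq_mul, mul_one]
    intro K hK
    exact ((Finset.sum_eq_sum_iff_of_le h13).1 h14 K hK).symm
  have hd1 : ∀ K ∈ comps G (S.erase v), ∀ x ∈ K, m ≤ dg G K x := fun K hK =>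
    (hC.ih K (hlt K hK) (hconn K hK)).d1 (htight K hK)
  refine ⟨?_, ?_⟩
  · intro x hx
    by_cases hxv : x = v
    · rw [hxv, hdv]
      omega
    · obtain ⟨K, hK, hxK⟩ := hF.cover (S.erase v) x (Finset.mem_erase.2 ⟨hxv, hx⟩)
      exact (hd1 K hK x hxK).trans (T2.dg_mono (hsub K hK) x)
  · intro y hy hdy
    have hyv : y ≠ v := by
      intro h
      rw [h, hdv] at hdy
      omega
    obtain ⟨K, hK, hyK⟩ := hF.cover (S.erase v) y (Finset.mem_erase.2 ⟨hyv, hy⟩)
    obtain ⟨z, hz, hvz⟩ := hF.nbr S v hC.conn hv K hK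
    have hdz : m + 1 ≤ dg G S z := by
      have h15 : dg G K z + 1 ≤ dg G S z := by
        have h16 : insert v (K.filter (fun a => G.Adj z a)) ⊆ S.filter (fun a => G.Adj z a) := by
          intro a ha
          rw [Finset.mem_insert] at ha
          rw [Finset.mem_filter]
          rcases ha with rfl | ha
          · exact ⟨hv, hvz.symm⟩
          · rw [Finset.mem_filter] at ha
            exact ⟨hsub K hK ha.1, ha.2⟩
        have h17 : v ∉ K.filter (fun a => G.Adj z a) := fun h =>
          hvK K hK (Finset.mem_filter.1 h).1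
        have h18 := Finset.card_le_card h16
        rw [Finset.card_insert_of_notMem h17] at h18
        exact h18
      have := hd1 K hK z hz
      omega
    have hyz : y ≠ z := by
      intro h
      rw [← h] at hdz
      omega
    have hKy : Conn G (K.erase y) :=
      (hC.ih K (hlt K hK) (hconn K hK)).d2 (htight K hK) y hyK
        ((T2.dg_mono (hsub K hK) y).trans hdy)
    have hzKy : z ∈ K.erase y := Finset.mem_erase.2 ⟨hyz.symm, hz⟩
    have hvS : v ∈ S.erase y := Finset.mem_erase.2 ⟨hyv.symm, hv⟩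
    have hKyS : K.erase y ⊆ S.erase y := Finset.erase_subset_erase _ (hsub K hK)
    have hoth : ∀ K' ∈ comps G (S.erase v), K' ≠ K → K' ⊆ S.erase y := by
      intro K' hK' hne a ha
      rw [Finset.mem_erase]
      refine ⟨?_, hsub K' hK' ha⟩
      rintro rfl
      exact Finset.disjoint_left.1 (hF.disj (S.erase v) K' K hK' hK hne) ha hyK
    refine ⟨⟨v, hvS⟩, ?_⟩
    intro T hT hTn hTc
    have hvT : v ∈ T := by
      obtain ⟨x, hx⟩ := hTn
      by_cases hxv : x = v
      · rw [← hxv]
        exact hx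
      · have hxS := Finset.mem_erase.1 (hT hx)
        obtain ⟨K', hK', hxK'⟩ := hF.cover (S.erase v) x (Finset.mem_erase.2 ⟨hxv, hxS.2⟩)
        by_cases hKK : K' = K
        · subst hKK
          have h19 := T2.absorb hKy hKyS hTc hx (Finset.mem_erase.2 ⟨hxS.1, hxK'⟩)
          exact hTc z (h19 hzKy) v hvS hvz.symm
        · have h19 := T2.absorb (hconn K' hK') (hoth K' hK' hKK) hTc hx hxK'
          obtain ⟨z', hz', hvz'⟩ := hF.nbr S v hC.conn hv K' hK'
          exact hTc z' (h19 hz') v hvS hvz'.symm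
    apply Finset.Subset.antisymm hT
    intro x hx
    have hxS := Finset.mem_erase.1 hx
    by_cases hxv : x = v
    · rw [hxv]
      exact hvT
    · obtain ⟨K', hK', hxK'⟩ := hF.cover (S.erase v) x (Finset.mem_erase.2 ⟨hxv, hxS.2⟩)
      by_cases hKK : K' = K
      · subst hKK
        exact T2.absorb hKy hKyS hTc (hTc v hvT z (hKyS hzKy) hvz) hzKy
          (Finset.mem_erase.2 ⟨hxS.1, hxK'⟩)
      · obtain ⟨z', hz', hvz'⟩ := hF.nbr S v hC.conn hv K' hK'
        exact T2.absorb (hconn K' hK') (hoth K' hK' hKK) hTc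
          (hTc v hvT z' (hoth K' hK' hKK hz') hvz') hz' hxK'

end R128.F4
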