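import Pool.Agent.R85.F4Aux

namespace R128.F4
open Classical

theorem Three_proof : Stm.Three := by
  intro V G S F u hu v hv huv w hw hcw Ka hKa Kb hKb Kc hKc hab hac hbc ya hya huya ca yb hyb
    hvyb cb zc hzc hwzc cz
  have dab := Finset.disjoint_left.1 (F.disj _ Ka Kb hKa hKb hab)
  have dac := Finset.disjoint_left.1 (F.disj _ Ka Kc hKa hKc hac)
  have dbc := Finset.disjoint_left.1 (F.disj _ Kb Kc hKb hKc hbc)
  have ma := (R85F4.mem_comps.1 hKa).1 hya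
  have mb := (R85F4.mem_comps.1 hKb).1 hyb
  have mc := (R85F4.mem_comps.1 hKc).1 hzc
  have hKb1 := R85F4.comps_erase hKb (dab hya)
  have hKc1 := R85F4.comps_erase (R85F4.comps_erase hKc (dac hya)) (dbc hyb)
  have r1 := F.rem _ Ka ya hKa hya
  have r2 := F.rem _ Kb yb hKb1 hyb
  have r3 := F.rem _ Kc zc hKc1 hzc
  simp only [Finset.mem_erase] at ma mb mc hw
  have nab : ya ≠ yb := fun h => dab hya (h ▸ hyb)
  have nac : ya ≠ zc := fun h => dac hya (h ▸ hzc)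
  have nbc : yb ≠ zc := fun h => dbc hyb (h ▸ hzc)
  obtain ⟨maw, mav, mau, maS⟩ := ma
  obtain ⟨mbw, mbv, mbu, mbS⟩ := mb
  obtain ⟨mcw, mcv, mcu, mcS⟩ := mc
  obtain ⟨wv, wu, wS⟩ := hw
  have e1 := F.edge S u ya hu maS huya
  have e2 := F.edge ((S.erase u).erase ya) v yb
    (Finset.mem_erase.2 ⟨mav.symm, Finset.mem_erase.2 ⟨huv.symm, hv⟩⟩)
    (Finset.mem_erase.2 ⟨nab.symm, Finset.mem_erase.2 ⟨mbu, mbS⟩⟩) hvyb
  have e3 := F.edge ((((S.erase u).erase ya).erase v).erase yb) w zc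
    (Finset.mem_erase.2 ⟨mbw.symm, Finset.mem_erase.2 ⟨wv, Finset.mem_erase.2
      ⟨maw.symm, Finset.mem_erase.2 ⟨wu, wS⟩⟩⟩⟩)
    (Finset.mem_erase.2 ⟨nbc.symm, Finset.mem_erase.2 ⟨mcv, Finset.mem_erase.2
      ⟨nac.symm, Finset.mem_erase.2 ⟨mcu, mcS⟩⟩⟩⟩) hwzc
  have hset : (((((S.erase u).erase ya).erase v).erase yb).erase w).erase zc =
      (((((S.erase u).erase v).erase w).erase ya).erase yb).erase zc := by
    ext a
    simp only [Finset.mem_erase]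
    tauto
  rw [hset] at e3
  omega

end R128.F4
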