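import Pool.Agent.R128.F4.Stm

/-!
# U1: a vertex with `k` edges gives `k + 1` mutually joint elements (MP_0fdbcb_co)
-/

namespace R128.F4
open Classical

theorem U1_proof : Stm.U1 := by
  intro V G T x k hk
  obtain ⟨N, hN, hNc⟩ := Finset.exists_subset_card_eq hk
  have hadj : ∀ y ∈ N, G.Adj x y := fun y hy => (Finset.mem_filter.1 (hN hy)).2
  let g : {y // y ∈ N} → V ⊕ G.edgeSet := fun y =>
    Sum.inr ⟨s(x, y.1), (SimpleGraph.mem_edgeSet G).2 (hadj y.1 y.2)⟩
  have hg : Function.Injective g := by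
    intro a b hab
    have h1 : s(x, a.1) = s(x, b.1) := congrArg Subtype.val (Sum.inr.inj hab)
    exact Subtype.ext (Sym2.congr_right.1 h1)
  have hmem : ∀ z ∈ insert (Sum.inl x : V ⊕ G.edgeSet) (N.attach.image g),
      z = Sum.inl x ∨ ∃ e : G.edgeSet, x ∈ (e : Sym2 V) ∧ z = Sum.inr e := by
    intro z hz
    rcases Finset.mem_insert.1 hz with h | h
    · exact Or.inl h
    · obtain ⟨y, -, rfl⟩ := Finset.mem_image.1 h
      exact Or.inr ⟨_, Sym2.mem_mk_left _ _, rfl⟩
  refine ⟨insert (Sum.inl x) (N.attach.image g), ?_, ?_⟩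
  · rw [Finset.card_insert_of_notMem, Finset.card_image_of_injective _ hg, Finset.card_attach, hNc]
    intro h
    obtain ⟨y, -, hy⟩ := Finset.mem_image.1 h
    exact absurd hy (by simp [g])
  · intro a ha b hb hab
    rcases hmem a ha with rfl | ⟨e, he, rfl⟩
    · rcases hmem b hb with rfl | ⟨f, hf, rfl⟩
      · exact absurd rfl hab
      · exact hf
    · rcases hmem b hb with rfl | ⟨f, hf, rfl⟩
      · exact he
      · exact ⟨x, he, hf⟩

end R128.F4
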