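import Pool.Agent.R128.F4.Stm

/-!
# U2: mutually disjoint elements from a solution (MP_0fdbcb_co)
-/

namespace R128.F4
open Classical

theorem U2_proof : Stm.U2 := by
  intro V G S I s hSol hs
  obtain ⟨hIS, hInd, f, hf⟩ := hSol
  have hffT : ∀ x ∈ S \ I, f (f x) = x := fun x hx => (hf x hx).2.2
  let g : {y // y ∈ S \ I} → V ⊕ G.edgeSet := fun y =>
    Sum.inr ⟨s(y.1, f y.1), (SimpleGraph.mem_edgeSet G).2 (hf y.1 y.2).2.1⟩
  have hgeq : ∀ a b, g a = g b → a.1 = b.1 ∨ a.1 = f b.1 := by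
    intro a b hab
    have h1 : s(a.1, f a.1) = s(b.1, f b.1) := congrArg Subtype.val (Sum.inr.inj hab)
    rw [Sym2.eq_iff] at h1
    rcases h1 with h1 | h1
    · exact Or.inl h1.1
    · exact Or.inr h1.1
  have hcard : (S \ I).card ≤ 2 * ((S \ I).attach.image g).card := by
    rw [← Finset.card_attach (s := S \ I)]
    refine Finset.card_le_mul_card_image _ 2 ?_
    intro z hz
    obtain ⟨b, -, rfl⟩ := Finset.mem_image.1 hz
    have hsub : ((S \ I).attach.filter (fun a => g a = g b)) ⊆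
        {b, ⟨f b.1, (hf b.1 b.2).1⟩} := by
      intro a ha
      rw [Finset.mem_filter] at ha
      rcases hgeq a b ha.2 with h | h
      · exact Finset.mem_insert.2 (Or.inl (Subtype.ext h))
      · exact Finset.mem_insert.2 (Or.inr (Finset.mem_singleton.2 (Subtype.ext h)))
    exact le_trans (Finset.card_le_card hsub) Finset.card_le_two
  have hdis : Disjoint (I.image (Sum.inl : V → V ⊕ G.edgeSet)) ((S \ I).attach.image g) := by
    rw [Finset.disjoint_left]
    intro z hz hz'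
    obtain ⟨a, -, rfl⟩ := Finset.mem_image.1 hz
    obtain ⟨y, -, hy⟩ := Finset.mem_image.1 hz'
    exact absurd hy (by simp [g])
  have hbig : s ≤ (I.image (Sum.inl : V → V ⊕ G.edgeSet) ∪ (S \ I).attach.image g).card := by
    rw [Finset.card_union_of_disjoint hdis, Finset.card_image_of_injective _ Sum.inl_injective]
    have h1 : (S \ I).card = S.card - I.card := Finset.card_sdiff_of_subset hIS
    have h2 : I.card ≤ S.card := Finset.card_le_card hIS
    omega
  obtain ⟨X, hX, hXc⟩ := Finset.exists_subset_card_eq hbig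
  refine ⟨X, hXc, ?_⟩
  have hmem : ∀ z ∈ X, (∃ a ∈ I, z = Sum.inl a) ∨ ∃ y : {y // y ∈ S \ I}, z = g y := by
    intro z hz
    rcases Finset.mem_union.1 (hX hz) with h | h
    · obtain ⟨a, ha, rfl⟩ := Finset.mem_image.1 h
      exact Or.inl ⟨a, ha, rfl⟩
    · obtain ⟨y, -, rfl⟩ := Finset.mem_image.1 h
      exact Or.inr ⟨y, rfl⟩
  have hIe : ∀ a ∈ I, ∀ y : {y // y ∈ S \ I}, a ∉ (s(y.1, f y.1) : Sym2 V) := by
    intro a ha y h
    rw [Sym2.mem_iff] at h
    rcases h with h | h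
    · exact (Finset.mem_sdiff.1 y.2).2 (h ▸ ha)
    · exact (Finset.mem_sdiff.1 (hf y.1 y.2).1).2 (h ▸ ha)
  have hea : ∀ y : {y // y ∈ S \ I}, ∀ a, a ∈ (s(y.1, f y.1) : Sym2 V) →
      (s(y.1, f y.1) : Sym2 V) = s(a, f a) := by
    intro y a h
    rw [Sym2.mem_iff] at h
    rcases h with h | h
    · rw [h]
    · rw [h, hffT y.1 y.2]
      exact Sym2.eq_swap
  intro x hx y hy hxy hj
  rcases hmem x hx with ⟨a, ha, rfl⟩ | ⟨u, rfl⟩
  · rcases hmem y hy with ⟨b, hb, rfl⟩ | ⟨v, rfl⟩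
    · exact hInd a ha b hb hj
    · exact hIe a ha v hj
  · rcases hmem y hy with ⟨b, hb, rfl⟩ | ⟨v, rfl⟩
    · exact hIe b hb u hj
    · obtain ⟨a, h1, h2⟩ := hj
      have e1 := hea u a h1
      have e2 := hea v a h2
      apply hxy
      exact congrArg Sum.inr (Subtype.ext (e1.trans e2.symm))

end R128.F4
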