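import Pool.Agent.R128.F4.Stm

/-!
# U3: arithmetic of the upper bound (MP_0fdbcb_co)
-/

namespace R128.F4
open Classical

theorem U3_proof : Stm.U3 := by
  intro r s m A B p c hr hs hm hA hB hp
  obtain ⟨m', rfl⟩ : ∃ m', r = m' + 3 := ⟨r - 3, by omega⟩
  have hmm : m = m' := by omega
  subst hmm
  have e3 : m + 3 - 3 = m := by omega
  rw [e3] at hp
  have hs' : m ^ 2 + m + 3 ≤ s := by nlinarith
  have hm2 : 2 ≤ m := by omega
  have hN : s - (m + 3) + 2 + m ^ 2 = s - m - 1 + m ^ 2 := by omega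
  rw [hN] at hp
  have h1 : (s - m - 1 + m ^ 2) / (m ^ 2 + 1) * (m ^ 2 + 1) ≤ s - m - 1 + m ^ 2 :=
    Nat.div_mul_le_self _ _
  generalize (s - m - 1 + m ^ 2) / (m ^ 2 + 1) = D at hp h1
  obtain ⟨t, ht⟩ : ∃ t, s = t + (m + 1) := ⟨s - (m + 1), by omega⟩
  have e4 : s - m - 1 = t := by omega
  rw [e4] at h1
  have h5 : D * 5 ≤ D * (m ^ 2 + 1) := Nat.mul_le_mul_left _ (by nlinarith)
  have h6 : D * 5 ≤ t + m ^ 2 := le_trans h5 h1
  have h7 : m ^ 2 + 2 ≤ t := by omega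
  have h8 : D ≤ 2 * s - 1 := by omega
  have h9 : 2 * m ≤ m ^ 2 := by nlinarith
  refine ⟨by omega, by omega, ?_⟩
  intro hle
  by_contra hlt
  have h10 : c + 1 ≤ D := by omega
  have h11 : p + D = 2 * s - 1 := by omega
  have h12 : B = 2 * m ^ 2 + 1 := by rw [hB, hA]; ring
  have h13 : (2 * m ^ 2 + 1) * (c + 1) ≤ (2 * m ^ 2 + 1) * D := Nat.mul_le_mul_left _ h10
  have h14 : p + D + 1 = 2 * s := by omega
  rw [h12, hA] at hle
  nlinarith

end R128.F4
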