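import Pool.Agent.R128.F4.Stm

/-!
# U4: the upper bound from the main theorem (MP_0fdbcb_co)
-/

namespace R128.F4
open Classical

theorem U4.conn_univ {p : ℕ} (G : SimpleGraph (Fin p)) (h : G.Connected) :
    Conn G (Finset.univ : Finset (Fin p)) := by
  obtain ⟨x0⟩ := h.nonempty
  refine ⟨⟨x0, Finset.mem_univ _⟩, ?_⟩
  intro T _ hT hcl
  obtain ⟨x, hx⟩ := hT
  refine Finset.eq_univ_of_forall fun y => ?_
  obtain ⟨w⟩ := h.preconnected x y
  induction w with
  | nil => exact hx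
  | cons hadj w ih => exact ih (hcl _ hx _ (Finset.mem_univ _) hadj)

theorem U4_proof : Stm.U4 := by
  intro hU1 hU2 hU3 hmain hF r s hr hs
  obtain ⟨m, hm⟩ : ∃ m, m = r - 3 := ⟨_, rfl⟩
  obtain ⟨p, hp⟩ : ∃ p, p = 2 * s - 1 - (s - r + 2 + (r - 3) ^ 2) / ((r - 3) ^ 2 + 1) := ⟨_, rfl⟩
  rw [← hp]
  have key := fun c => hU3 r s m (2 * m) (m * (2 * m) + 1) p c hr hs hm rfl rfl hp
  refine ⟨(key 0).1, ?_⟩
  intro G hG
  by_contra hcon
  push Not at hcon
  obtain ⟨hnj, hnd⟩ := hcon
  have hdeg : ∀ (T : Finset (Fin p)) (x : Fin p), dg G T x ≤ m + 1 := by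
    intro T x
    by_contra hlt
    apply hnj
    have e : r = (m + 2) + 1 := by omega
    rw [e]
    exact hU1 _ G T x (m + 2) (by omega)
  have hconn := U4.conn_univ G hG
  have hpar : Par m (2 * m) (m * (2 * m) + 1) := ⟨by omega, rfl, rfl⟩
  have hgood := hmain _ G m _ _ hpar hdeg Finset.univ hconn
  have F := hF _ G
  have hcardp : (Finset.univ : Finset (Fin p)).card = p := by simp
  have hparity := F.parity Finset.univ
  rw [hcardp] at hparity
  rcases Nat.eq_zero_or_pos (cc G (Finset.univ : Finset (Fin p))) with hc | hc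
  · obtain ⟨x0⟩ := hG.nonempty
    have h1 := F.zero Finset.univ hconn hc x0 (Finset.mem_univ _)
    rw [hcardp] at h1
    have h2 := hdeg Finset.univ x0
    have h3 := (key 0).2.1
    omega
  · have h1 := hgood.a hc
    rw [hcardp] at h1
    have h2 := (key _).2.2 h1
    obtain ⟨I, hI, hIc⟩ := F.opt Finset.univ
    apply hnd
    refine hU2 _ G Finset.univ I s hI ?_
    rw [hcardp, hIc]
    omega

end R128.F4
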