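import Pool.Agent.R128.F4.Assembly
import Pool.Agent.R128.F4.A1
import Pool.Agent.R128.F4.A2
import Pool.Agent.R128.F4.A3
import Pool.Agent.R128.F4.A4
import Pool.Agent.R128.F4.A4b
import Pool.Agent.R128.F4.A5
import Pool.Agent.R128.F4.A6
import Pool.Agent.R128.F4.EB
import Pool.Agent.R128.F4.PB
import Pool.Agent.R128.F4.CV1
import Pool.Agent.R128.F4.CV2
import Pool.Agent.R128.F4.CV3
import Pool.Agent.R128.F4.CV5
import Pool.Agent.R128.F4.CV6
import Pool.Agent.R128.F4.CV7
import Pool.Agent.R128.F4.CV8a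
import Pool.Agent.R128.F4.CV8c
import Pool.Agent.R128.F4.CV8d1
import Pool.Agent.R128.F4.CV8d3
import Pool.Agent.R128.F4.CV8
import Pool.Agent.R128.F4.NS
import Pool.Agent.R128.F4.NCtr
import Pool.Agent.R128.F4.NCmax
import Pool.Agent.R128.F4.Three
import Pool.Agent.R128.F4.BX
import Pool.Agent.R128.F4.B1
import Pool.Agent.R128.F4.B2
import Pool.Agent.R128.F4.CB
import Pool.Agent.R128.F4.BN
import Pool.Agent.R128.F4.T0
import Pool.Agent.R128.F4.T2
import Pool.Agent.R128.F4.GoodStep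
import Pool.Agent.R128.F4.U1
import Pool.Agent.R128.F4.U2
import Pool.Agent.R128.F4.U3
import Pool.Agent.R128.F4.U4
import Pool.Agent.R128.F4.L1
import Pool.Agent.R128.F4.L2
import Pool.Agent.R128.F4.L3
import Pool.Agent.R128.F4.L4
import Pool.Agent.R128.F4.L5
import Pool.Agent.R128.F4.L6
import Pool.Agent.R128.F4.L7
import Pool.Agent.R128.F4.L8

namespace R128.F4

open Stm

theorem isLeast_F4Set (r s : ℕ) (hr : 5 ≤ r) (hs : r ^ 2 + 8 < s + 5 * r) :
    IsLeast (F4Set r s) (2 * s - 1 - (s - r + 2 + (r - 3) ^ 2) / ((r - 3) ^ 2 + 1)) :=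
  final_of A1_proof A2_proof A3_proof A4_proof A4b_proof A5_proof A6_proof EB_proof PB_proof
    CV1_proof CV2_proof CV3_proof CV5_proof CV6_proof CV7_proof CV8a_proof CV8c_proof CV8d1_proof
    CV8d3_proof CV8_proof NS_proof NCtr_proof NCmax_proof Three_proof BX_proof B1_proof B2_proof
    CB_proof BN_proof T0_proof T2_proof GoodStep_proof U1_proof U2_proof U3_proof U4_proof
    L1_proof L2_proof L3_proof L4_proof L5_proof L6_proof L7_proof L8_proof r s hr hs

end R128.F4
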