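import Pool.Agent.R128.F4.Stm

namespace R128.F4
open Classical

theorem GoodStep_proof : Stm.GoodStep := by
  intro hPB hEB hT0 hT2 hcut hnc V G m A B S hC
  have hF := hC.F
  have hA := hC.par.hA
  have hB := hC.par.hB
  have hm := hC.par.hm
  obtain ⟨x0, hx0⟩ := hC.conn.1
  -- part b
  have hb : 1 ≤ cc G S → Crit G S → ∀ x ∈ S, S.card + 2 ≤ 2 * dg G S x + B * cc G S := by
    intro hc hcr x hx
    by_cases hex : ∃ w ∈ S, ¬ Conn G (S.erase w)
    · obtain ⟨w, hw, hwn⟩ := hex
      have h1 := hcut V G m A B S hC hcr w hw hwn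
      have h2 : 1 ≤ dg G S x := by
        by_contra h0
        have h3 : dg G S x = 0 := by omega
        unfold dg at h3
        rw [Finset.card_eq_zero, Finset.filter_eq_empty_iff] at h3
        have h4 := hC.conn.2 {x} (Finset.singleton_subset_iff.2 hx) (Finset.singleton_nonempty x)
          (by
            intro a ha b hb hab
            rw [Finset.mem_singleton] at ha
            rw [ha] at hab
            exact absurd hab (h3 hb))
        have h5 := hcr x hx
        rw [← h4] at h5
        obtain ⟨I, hI, hIc⟩ := hF.opt (({x} : Finset V).erase x)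
        have h6 : ({x} : Finset V).erase x = ∅ := by simp
        rw [h6] at hI hIc h5
        have h7 : I = ∅ := Finset.subset_empty.1 hI.1
        rw [h7, Finset.card_empty] at hIc
        omega
      omega
    · push Not at hex
      exact hnc V G m A B S hC hcr hc hex x hx
  have hcd : ∀ x ∈ S, dg G S x ≤ m + 1 := fun x _ => hC.deg S x
  have hncr : ¬ Crit G S → ∃ v ∈ S, cc G (S.erase v) + 1 = cc G S := by
    intro h
    unfold Crit at h
    push Not at h
    obtain ⟨v, hv, hv2⟩ := h
    exact ⟨v, hv, (hF.pm S v hv).resolve_left hv2⟩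
  -- tight sets
  have htight : S.card = A + B * cc G S → (∀ x ∈ S, m ≤ dg G S x) ∧
      (∀ y ∈ S, dg G S y ≤ m → Conn G (S.erase y)) := by
    intro hS
    rcases Nat.eq_zero_or_pos (cc G S) with h0 | hpos
    · have h1 := hT0 V G m S hF hm hC.conn (by rw [hS, h0, hA]; ring) h0
      exact ⟨h1.1, fun y hy _ => h1.2 y hy⟩
    · by_cases hcr : Crit G S
      · have h1 : ∀ x ∈ S, m + 1 ≤ dg G S x := by
          intro x hx
          have := hb hpos hcr x hx
          omega
        exact ⟨fun x hx => by have := h1 x hx; omega, fun y hy hle => by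
          have := h1 y hy; omega⟩
      · obtain ⟨v, hv, hv2⟩ := hncr hcr
        exact hT2 hEB V G m A B S hC hS v hv hv2
  refine ⟨?_, hb, fun h => (htight h).1, fun h => (htight h).2⟩
  intro hc
  by_cases hcr : Crit G S
  · have h1 := hb hc hcr x0 hx0
    have h2 := hcd x0 hx0
    omega
  · obtain ⟨v, hv, hv2⟩ := hncr hcr
    have h1 := hPB hEB V G m A B S hC v hv
    have h2 : (comps G (S.erase v)).card ≤ m + 1 :=
      (hF.card_le S v hC.conn hv).trans (hcd v hv)
    have h3 : (comps G (S.erase v)).card * A ≤ (m + 1) * A := Nat.mul_le_mul_right _ h2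
    have h4 : B * cc G S = B * cc G (S.erase v) + B := by rw [← hv2]; ring
    have h5 : (m + 1) * A = m * A + A := by ring
    omega

end R128.F4
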