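import Pool.Agent.R128.F4.Defs

/-!
Exact statements of the pieces.  Each piece `X` is handed in as
`theorem X_proof : R128.F4.Stm.X := ...` in its own file `Pool/Agent/R128/F4/X.lean`.
Proofs are in `Pool/Agent/R128/F4/notes.md`.
-/

namespace R128.F4.Stm

noncomputable section
open Classical

/-! ### basic facts -/

def A1 : Prop := ∀ (V : Type) (G : SimpleGraph V) (S : Finset V),
  (∀ I, Sol G S I → I.card ≤ cc G S) ∧ (∃ I, Sol G S I ∧ I.card = cc G S) ∧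
  (∀ I, Sol G S I → I.card % 2 = S.card % 2)

def A2 : Prop := A1 → ∀ (V : Type) (G : SimpleGraph V) (S : Finset V),
  (∀ x y : V, x ∈ S → y ∈ S → G.Adj x y → cc G ((S.erase x).erase y) ≤ cc G S) ∧
  (∀ v ∈ S, cc G (S.erase v) = cc G S + 1 ∨ cc G (S.erase v) + 1 = cc G S)

def A3 : Prop := A1 → ∀ (V : Type) (G : SimpleGraph V) (K L : Finset V),
  Disjoint K L → (∀ x ∈ K, ∀ y ∈ L, ¬ G.Adj x y) → cc G (K ∪ L) = cc G K + cc G L

def A4 : Prop := ∀ (V : Type) (G : SimpleGraph V) (S : Finset V),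
  (∀ x ∈ S, ∃ K ∈ comps G S, x ∈ K) ∧
  (∀ K L : Finset V, K ∈ comps G S → L ∈ comps G S → K ≠ L → Disjoint K L) ∧
  (Conn G S → comps G S = {S}) ∧
  (∀ v : V, Conn G S → v ∈ S → ∀ K ∈ comps G (S.erase v), ∃ y ∈ K, G.Adj v y)

def A4b : Prop := A4 → ∀ (V : Type) (G : SimpleGraph V) (S : Finset V),
  (∑ K ∈ comps G S, K.card = S.card) ∧
  (∀ v : V, ∑ K ∈ comps G S, dg G K v = dg G S v) ∧
  (∀ v : V, Conn G S → v ∈ S → (comps G (S.erase v)).card ≤ dg G S v)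

def A5 : Prop := A1 → A3 → A4 → ∀ (V : Type) (G : SimpleGraph V) (S : Finset V),
  (∑ K ∈ comps G S, cc G K = cc G S) ∧
  (∀ (K : Finset V) (y : V), K ∈ comps G S → y ∈ K →
    cc G (S.erase y) + cc G K = cc G S + cc G (K.erase y))

def A6 : Prop := A1 → ∀ (V : Type) (G : SimpleGraph V) (Q : Finset V),
  Conn G Q → cc G Q = 0 → ∀ x ∈ Q, Q.card ≤ 2 * dg G Q x

/-! ### component bounds -/

def EB : Prop := ∀ (V : Type) (G : SimpleGraph V) (m A B : ℕ) (S : Finset V), Ctx G m A B S →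
  ∀ v ∈ S, ∀ K ∈ comps G (S.erase v), K.card ≤ A + B * cc G K

def PB : Prop := EB → ∀ (V : Type) (G : SimpleGraph V) (m A B : ℕ) (S : Finset V),
  Ctx G m A B S → ∀ v ∈ S,
  S.card ≤ 1 + (comps G (S.erase v)).card * A + B * cc G (S.erase v)

/-! ### critical `S`, components of `S - w` -/

def CV1 : Prop := ∀ (V : Type) (G : SimpleGraph V) (S : Finset V), Facts G → Conn G S →
  Crit G S → ∀ w ∈ S, ∀ K ∈ comps G (S.erase w), ∀ y ∈ K, G.Adj w y →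
  cc G (K.erase y) + 1 = cc G K

def CV2 : Prop := PB → EB → CV1 → ∀ (V : Type) (G : SimpleGraph V) (m A B : ℕ) (S : Finset V),
  Ctx G m A B S → Crit G S → ∀ w ∈ S, ∀ K ∈ comps G (S.erase w), ∀ y ∈ K, G.Adj w y →
  (comps G (K.erase y)).card ≤ m ∧
  K.card + B ≤ 1 + (comps G (K.erase y)).card * A + B * cc G K ∧
  K.card ≤ B * cc G K

def CV3 : Prop := ∀ (V : Type) (G : SimpleGraph V) (S : Finset V), Facts G → Conn G S →
  Crit G S → ∀ w ∈ S, ∃ K ∈ comps G (S.erase w), ¬ NBl G w K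

def CV5 : Prop := CV1 → ∀ (V : Type) (G : SimpleGraph V) (S : Finset V), Facts G → Conn G S →
  Crit G S → ∀ w ∈ S, ∀ K ∈ comps G (S.erase w), ¬ NBl G w K →
  cc G (insert w K) + 1 = cc G K ∧ Crit G (insert w K)

def CV6 : Prop := CV1 → CV5 → ∀ (V : Type) (G : SimpleGraph V) (m A B : ℕ) (S : Finset V),
  Ctx G m A B S → Crit G S → ∀ w ∈ S, ¬ Conn G (S.erase w) →
  ∀ K ∈ comps G (S.erase w), ¬ NBl G w K →
  K.card + 1 + B ≤ 2 * dg G K w + B * cc G K ∧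
  (2 ≤ cc G K → K.card + 3 + B ≤ 2 * dg G K w + B * cc G K)

def CV7 : Prop := PB → EB → CV1 → CV2 → CV5 → CV6 →
  ∀ (V : Type) (G : SimpleGraph V) (m A B : ℕ) (S : Finset V),
  Ctx G m A B S → Crit G S → ∀ w ∈ S, ∀ K ∈ comps G (S.erase w), ∀ K' ∈ comps G (S.erase w),
  K ≠ K' → ¬ NBl G w K → ¬ NBl G w K' → S.card ≤ B * cc G S

def CV8a : Prop := CV1 → ∀ (V : Type) (G : SimpleGraph V) (S : Finset V), Facts G → Conn G S →
  Crit G S → ∀ w ∈ S, ∀ K ∈ comps G (S.erase w), dg G K w = 1 → ¬ NBl G w K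

def CV8c : Prop := PB → EB → CV1 → CV2 → CV5 → CV6 → CV8a →
  ∀ (V : Type) (G : SimpleGraph V) (m A B : ℕ) (S : Finset V),
  Ctx G m A B S → Crit G S → ∀ w ∈ S, ∀ K1 ∈ comps G (S.erase w), ∀ K2 ∈ comps G (S.erase w),
  K1 ≠ K2 → ¬ NBl G w K1 → NBl G w K2 → ∀ y ∈ K2, G.Adj w y →
  (comps G (K2.erase y)).card + 1 ≤ m → S.card ≤ B * cc G S

def CV8d1 : Prop := PB → EB → CV1 → CV2 → CV5 → CV6 → CV7 → CV8a →
  ∀ (V : Type) (G : SimpleGraph V) (m A B : ℕ) (S : Finset V),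
  Ctx G m A B S → Crit G S → ∀ w ∈ S, ∀ K ∈ comps G (S.erase w), ∀ y ∈ K, G.Adj w y →
  (comps G (K.erase y)).card = m →
  ∀ Q1 ∈ comps G (K.erase y), ∀ Q2 ∈ comps G (K.erase y), Q1 ≠ Q2 →
  (∀ z ∈ Q1, ¬ G.Adj w z) → (∀ z ∈ Q2, ¬ G.Adj w z) → S.card ≤ B * cc G S

def CV8d3 : Prop := PB → EB → CV1 →
  ∀ (V : Type) (G : SimpleGraph V) (m A B : ℕ) (S : Finset V),
  Ctx G m A B S → Crit G S → ∀ w ∈ S, ∀ K ∈ comps G (S.erase w), ∀ y ∈ K, G.Adj w y →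
  (∀ y' ∈ K, G.Adj w y' → (comps G (K.erase y')).card = m) →
  (∃ Q ∈ comps G (K.erase y), ∃ z ∈ Q, G.Adj w z) → K.card + 2 ≤ B * cc G K

def CV8 : Prop := PB → EB → CV1 → CV2 → CV3 → CV5 → CV6 → CV7 → CV8a → CV8c → CV8d1 → CV8d3 →
  ∀ (V : Type) (G : SimpleGraph V) (m A B : ℕ) (S : Finset V),
  Ctx G m A B S → Crit G S → ∀ w ∈ S, ¬ Conn G (S.erase w) → S.card ≤ B * cc G S

/-! ### no cut vertex -/

def NS : Prop := ∀ (V : Type) (G : SimpleGraph V) (S : Finset V), Facts G → Conn G S →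
  3 ≤ S.card → (∀ w ∈ S, Conn G (S.erase w)) → ∀ x ∈ S, ∀ u ∈ S, G.Adj x u →
  ∃ v ∈ S, v ≠ x ∧ v ≠ u ∧ G.Adj u v ∧ Conn G ((S.erase u).erase v)

def NCtr : Prop := ∀ (V : Type) (G : SimpleGraph V) (H : Finset V), Facts G →
  ∀ w ∈ H, cc G (H.erase w) + 1 = cc G H → ∀ K ∈ comps G (H.erase w), ∀ z ∈ K,
  cc G (K.erase z) + 1 = cc G K → cc G (H.erase z) + 1 = cc G H

def NCmax : Prop := ∀ (V : Type) (G : SimpleGraph V) (H : Finset V), Facts G → Conn G H →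
  (∃ w ∈ H, cc G (H.erase w) + 1 = cc G H) →
  (∀ w ∈ H, cc G (H.erase w) + 1 = cc G H → (comps G (H.erase w)).Nonempty) →
  ∃ w ∈ H, cc G (H.erase w) + 1 = cc G H ∧ ∃ K1 ∈ comps G (H.erase w),
    ∀ K ∈ comps G (H.erase w), K ≠ K1 → ∀ z ∈ K, cc G (H.erase z) = cc G H + 1

def Three : Prop := ∀ (V : Type) (G : SimpleGraph V) (S : Finset V), Facts G →
  ∀ u ∈ S, ∀ v ∈ S, u ≠ v → ∀ w ∈ (S.erase u).erase v,
  cc G (((S.erase u).erase v).erase w) + 1 = cc G S →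
  ∀ Ka ∈ comps G (((S.erase u).erase v).erase w),
  ∀ Kb ∈ comps G (((S.erase u).erase v).erase w),
  ∀ Kc ∈ comps G (((S.erase u).erase v).erase w), Ka ≠ Kb → Ka ≠ Kc → Kb ≠ Kc →
  ∀ ya ∈ Ka, G.Adj u ya → cc G (Ka.erase ya) = cc G Ka + 1 →
  ∀ yb ∈ Kb, G.Adj v yb → cc G (Kb.erase yb) = cc G Kb + 1 →
  ∀ zc ∈ Kc, G.Adj w zc → cc G (Kc.erase zc) = cc G Kc + 1 → False

/-- easy consequences of `BCtx` -/
def BX : Prop := NCtr → ∀ (V : Type) (G : SimpleGraph V) (m A B : ℕ) (S : Finset V)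
  (u v w : V) (K1 : Finset V), BCtx G m A B S u v w K1 →
  (∀ z ∈ (S.erase u).erase v,
    cc G (((S.erase u).erase v).erase z) + 1 = cc G ((S.erase u).erase v) →
    dg G ((S.erase u).erase v) z = m + 1 ∧ ¬ G.Adj u z ∧ ¬ G.Adj v z) ∧
  (∀ K ∈ comps G (((S.erase u).erase v).erase w), K ≠ K1 → ∀ z ∈ K,
    cc G (K.erase z) = cc G K + 1) ∧
  (∀ z ∈ K1, cc G (K1.erase z) = cc G K1 + 1 ∨
    cc G (((S.erase u).erase v).erase z) + 1 = cc G ((S.erase u).erase v)) ∧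
  (∀ K ∈ comps G (((S.erase u).erase v).erase w), dg G K w = 1) ∧
  (∀ K ∈ comps G (((S.erase u).erase v).erase w), ∃ z ∈ K, G.Adj u z ∨ G.Adj v z)

def B1 : Prop := PB → EB → NCtr → BX → Three →
  ∀ (V : Type) (G : SimpleGraph V) (m A B : ℕ) (S : Finset V)
  (u v w : V) (K1 : Finset V), BCtx G m A B S u v w K1 →
  ∀ Kj ∈ comps G (((S.erase u).erase v).erase w),
  ∀ Kl ∈ comps G (((S.erase u).erase v).erase w), Kj ≠ Kl → Kj ≠ K1 → Kl ≠ K1 →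
  (∃ y ∈ Kj, G.Adj u y) → (∃ y ∈ Kl, G.Adj v y) → S.card ≤ B * cc G S + 2

/-- the last case, with `u` having a neighbour in a component `K2 ≠ K1` -/
def B2 : Prop := NCtr → BX → Three →
  ∀ (V : Type) (G : SimpleGraph V) (m A B : ℕ) (S : Finset V)
  (u v w : V) (K1 : Finset V), BCtx G m A B S u v w K1 →
  (∀ Kj ∈ comps G (((S.erase u).erase v).erase w),
    ∀ Kl ∈ comps G (((S.erase u).erase v).erase w), Kj ≠ Kl → Kj ≠ K1 → Kl ≠ K1 →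
    (∃ y ∈ Kj, G.Adj u y) → (∃ y ∈ Kl, G.Adj v y) → False) →
  ∀ K2 ∈ comps G (((S.erase u).erase v).erase w), K2 ≠ K1 → (∃ y ∈ K2, G.Adj u y) → False

def CB : Prop := PB → EB → NCtr → NCmax → Three → BX → B1 → B2 →
  ∀ (V : Type) (G : SimpleGraph V) (m A B : ℕ) (S : Finset V), Ctx G m A B S → Crit G S →
  (∀ w ∈ S, Conn G (S.erase w)) → ∀ u ∈ S, ∀ v ∈ S, G.Adj u v →
  Conn G ((S.erase u).erase v) → cc G ((S.erase u).erase v) = cc G S →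
  ¬ Crit G ((S.erase u).erase v) → S.card ≤ B * cc G S + 2

/-- part (b) of `Good` when there is no cut vertex -/
def BN : Prop := PB → EB → NS → NCtr → NCmax → Three → BX → B1 → B2 → CB →
  ∀ (V : Type) (G : SimpleGraph V) (m A B : ℕ) (S : Finset V), Ctx G m A B S → Crit G S →
  1 ≤ cc G S → (∀ w ∈ S, Conn G (S.erase w)) →
  ∀ x ∈ S, S.card + 2 ≤ 2 * dg G S x + B * cc G S

/-! ### tight sets and the main theorem -/

def T0 : Prop := ∀ (V : Type) (G : SimpleGraph V) (m : ℕ) (S : Finset V), Facts G → 2 ≤ m →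
  Conn G S → S.card = 2 * m → cc G S = 0 →
  (∀ x ∈ S, m ≤ dg G S x) ∧ (∀ y ∈ S, Conn G (S.erase y))

def T2 : Prop := EB → ∀ (V : Type) (G : SimpleGraph V) (m A B : ℕ) (S : Finset V),
  Ctx G m A B S → S.card = A + B * cc G S → ∀ v ∈ S, cc G (S.erase v) + 1 = cc G S →
  (∀ x ∈ S, m ≤ dg G S x) ∧ (∀ y ∈ S, dg G S y ≤ m → Conn G (S.erase y))

def GoodStep : Prop := PB → EB → T0 → T2 →
  (∀ (V : Type) (G : SimpleGraph V) (m A B : ℕ) (S : Finset V),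
    Ctx G m A B S → Crit G S → ∀ w ∈ S, ¬ Conn G (S.erase w) → S.card ≤ B * cc G S) →
  (∀ (V : Type) (G : SimpleGraph V) (m A B : ℕ) (S : Finset V), Ctx G m A B S → Crit G S →
    1 ≤ cc G S → (∀ w ∈ S, Conn G (S.erase w)) →
    ∀ x ∈ S, S.card + 2 ≤ 2 * dg G S x + B * cc G S) →
  ∀ (V : Type) (G : SimpleGraph V) (m A B : ℕ) (S : Finset V), Ctx G m A B S → Good G m A B S

/-! ### from elements to solutions -/

/-- a vertex with at least `k` neighbours gives `k+1` mutually joint elements -/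
def U1 : Prop := ∀ (V : Type) (G : SimpleGraph V) (T : Finset V) (x : V) (k : ℕ),
  k ≤ dg G T x → HasJoint G (k + 1)

/-- mutually disjoint elements from a solution -/
def U2 : Prop := ∀ (V : Type) (G : SimpleGraph V) (S I : Finset V) (s : ℕ), Sol G S I →
  2 * s ≤ S.card + I.card → HasDisj G s

/-- arithmetic of the upper bound -/
def U3 : Prop := ∀ r s m A B p c : ℕ, 5 ≤ r → r ^ 2 + 8 < s + 5 * r → m = r - 3 → A = 2 * m →
  B = m * A + 1 → p = 2 * s - 1 - (s - r + 2 + (r - 3) ^ 2) / ((r - 3) ^ 2 + 1) →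
  0 < p ∧ 2 * (m + 1) < p ∧ (p ≤ A + B * c → 2 * s - 1 ≤ p + c)

/-! ### lower bound -/

/-- if all degrees are at most `m+1` with `2 ≤ m` there are no `m+3` mutually joint elements -/
def L1 : Prop := ∀ (V : Type) (G : SimpleGraph V) (m : ℕ), 2 ≤ m →
  (∀ (T : Finset V) (x : V), dg G T x ≤ m + 1) → ¬ HasJoint G (m + 3)

/-- vertex covers bound mutually disjoint elements -/
def L2 : Prop := ∀ (V : Type) (G : SimpleGraph V) (S : Finset V) (k s : ℕ), (∀ x, x ∈ S) →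
  VC G S k → k < s → ¬ HasDisj G s

/-- transfer to `Fin p` -/
def L3 : Prop := L1 → L2 → ∀ (V : Type) (G : SimpleGraph V) (S : Finset V) (m k s : ℕ), 2 ≤ m →
  Conn G S → (∀ T ⊆ S, ∀ x ∈ S, dg G T x ≤ m + 1) → VC G S k → k < s →
  S.card ∉ F4Set (m + 3) s

/-- connected subsets of all sizes -/
def L4 : Prop := ∀ (V : Type) (G : SimpleGraph V) (S : Finset V), Conn G S →
  ∀ k, 1 ≤ k → k ≤ S.card → ∃ T ⊆ S, T.card = k ∧ Conn G T

/-- block sizes -/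
def L5 : Prop := ∀ b m M : ℕ, 1 ≤ m → b ≤ M → M ≤ m * b →
  ∃ f : ℕ → ℕ, (∀ i, 1 ≤ f i ∧ f i ≤ m) ∧ ∑ i ∈ Finset.range b, f i = M

/-- the chain of centers and blocks -/
def L6 : Prop := ∀ (m c : ℕ) (f : ℕ → ℕ), 1 ≤ m → (∀ i, 1 ≤ f i ∧ f i ≤ m) →
  ∃ (V : Type) (G : SimpleGraph V) (S : Finset V), Conn G S ∧
    (∀ T ⊆ S, ∀ x ∈ S, dg G T x ≤ m + 1) ∧
    S.card = c + 2 * ∑ i ∈ Finset.range (c * m + 1), f i ∧
    VC G S (c + ∑ i ∈ Finset.range (c * m + 1), f i)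

/-- arithmetic of the lower bound -/
def L7 : Prop := ∀ r s m c : ℕ, 5 ≤ r → r ^ 2 + 8 < s + 5 * r → m = r - 3 →
  c = (s - r + 2 + (r - 3) ^ 2) / ((r - 3) ^ 2 + 1) →
  c + (c * m + 1) ≤ s - 1 ∧ s - 1 - c ≤ m * (c * m + 1)

/-- all smaller orders fail -/
def L8 : Prop := L1 → L2 → L3 → L4 → L5 → L6 → L7 → ∀ r s p : ℕ, 5 ≤ r → r ^ 2 + 8 < s + 5 * r →
  p < 2 * s - 1 - (s - r + 2 + (r - 3) ^ 2) / ((r - 3) ^ 2 + 1) → p ∉ F4Set r s

/-- the upper bound from the main theorem -/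
def U4 : Prop := U1 → U2 → U3 →
  (∀ (V : Type) (G : SimpleGraph V) (m A B : ℕ), Par m A B →
    (∀ (T : Finset V) (x : V), dg G T x ≤ m + 1) → ∀ S : Finset V, Conn G S →
    Good G m A B S) → (∀ (V : Type) (G : SimpleGraph V), Facts G) →
  ∀ r s : ℕ, 5 ≤ r → r ^ 2 + 8 < s + 5 * r →
    2 * s - 1 - (s - r + 2 + (r - 3) ^ 2) / ((r - 3) ^ 2 + 1) ∈ F4Set r s

end

end R128.F4.Stm
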